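import Pool.Agent.H84.Mom.Asy

set_option autoImplicit false
set_option linter.unusedSectionVars false

/-! The arithmetic factor. -/

namespace Pool.Agent.H84.Mom

open Finset Filter Topology
open Pool.Agent.H306R2 (aF lc lc_zero lc_succ lc_nonneg lc_sq_le lc_pos lc_summable up aF_hasProd aF_eq
  up_summable exp_up aF_factor inv_prime Ep_ge_one)

noncomputable section

lemma lc_choose (k m : ℕ) : lc ((k + 1 : ℕ) : ℝ) m = ((m + k).choose k : ℝ) := by
  induction m with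
  | zero => simp [lc_zero]
  | succ m ih =>
    rw [lc_succ, ih]
    have h := Nat.add_one_mul_choose_eq (m + k) m
    have h1 : (m + k).choose m = (m + k).choose k := by
      rw [Nat.choose_symm_add]
    have h2 : (m + k + 1).choose (m + 1) = (m + 1 + k).choose k := by
      rw [show (m + k + 1) = (m + 1) + k by omega, Nat.choose_symm_add]
    rw [h1, h2] at h
    have h3 : ((m + k : ℕ) + 1 : ℝ) * ((m + k).choose k : ℝ) = ((m + 1 + k).choose k : ℝ) * ((m : ℝ) + 1) := by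
      exact_mod_cast h
    have h4 : (m : ℝ) + 1 ≠ 0 := by positivity
    rw [mul_div_assoc', div_eq_iff h4, ← h3]
    push_cast
    ring

lemma lc_hasSum {k : ℕ} (hk : 1 ≤ k) {x : ℝ} (hx : 0 ≤ x) (hx1 : x < 1) :
    HasSum (fun m : ℕ => lc (k : ℝ) m * x ^ m) (1 / (1 - x) ^ k) := by
  obtain ⟨k, rfl⟩ : ∃ k', k = k' + 1 := ⟨k - 1, by omega⟩
  simp only [lc_choose]
  exact hasSum_choose_mul_geometric_of_norm_lt_one k (by rw [Real.norm_of_nonneg hx]; exact hx1)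

/-- the local factor -/
def Dp (k p : ℕ) : ℝ := ∑' m : ℕ, lc (k : ℝ) m ^ 2 * (1 / (p : ℝ)) ^ m

lemma Dp_summable {k p : ℕ} (hk : 1 ≤ k) (hp : p.Prime) :
    Summable (fun m : ℕ => lc (k : ℝ) m ^ 2 * (1 / (p : ℝ)) ^ m) := by
  have h2 := inv_prime hp
  have hk0 : (0 : ℝ) < k := by exact_mod_cast hk
  refine Summable.of_nonneg_of_le (fun m => by positivity) (fun m => ?_)
    (lc_summable (α := (k : ℝ) ^ 2) (by positivity) h2.1 (by linarith [h2.2]))
  exact mul_le_mul_of_nonneg_right (lc_sq_le hk0.le m) (by positivity)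

lemma Dp_ge_one {k p : ℕ} (hk : 1 ≤ k) (hp : p.Prime) : 1 ≤ Dp k p := by
  have h := (Dp_summable hk hp).le_tsum 0 (fun m _ => by positivity)
  unfold Dp
  rw [lc_zero, pow_zero, one_pow, one_mul] at h
  exact h

lemma Dp_le1 {k p : ℕ} (hk : 1 ≤ k) (hp : p.Prime) : Dp k p ≤ 1 / (1 - 1 / (p : ℝ)) ^ (k ^ 2) := by
  have h2 := inv_prime hp
  have hk0 : (0 : ℝ) < k := by exact_mod_cast hk
  have hs := lc_hasSum (k := k ^ 2) (Nat.one_le_pow _ _ hk) h2.1.le (by linarith [h2.2])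
  unfold Dp
  rw [← hs.tsum_eq]
  refine (Dp_summable hk hp).tsum_le_tsum (fun m => ?_) hs.summable
  have h3 := lc_sq_le hk0.le m
  have h4 : ((k ^ 2 : ℕ) : ℝ) = (k : ℝ) ^ 2 := by push_cast; rfl
  rw [h4]
  exact mul_le_mul_of_nonneg_right h3 (by positivity)

lemma Dp_le2 {k p : ℕ} (hk : 1 ≤ k) (hp : p.Prime) : Dp k p ≤ (1 / (1 - 1 / Real.sqrt p) ^ k) ^ 2 := by
  have hp1 : (1 : ℝ) < p := by exact_mod_cast hp.one_lt
  have hs1 : 1 < Real.sqrt p := by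
    rw [Real.lt_sqrt (by norm_num)]; simpa using hp1
  have hx0 : 0 ≤ 1 / Real.sqrt p := by positivity
  have hx1 : 1 / Real.sqrt p < 1 := by
    rw [div_lt_one (by linarith)]; exact hs1
  have hk0 : (0 : ℝ) ≤ k := Nat.cast_nonneg k
  have hs := lc_hasSum hk hx0 hx1
  set S := 1 / (1 - 1 / Real.sqrt p) ^ k with hS
  have hS0 : 0 ≤ S := hs.nonneg fun m => mul_nonneg (lc_nonneg hk0 m) (by positivity)
  unfold Dp
  have h1 : ∀ m : ℕ, lc (k : ℝ) m ^ 2 * (1 / (p : ℝ)) ^ m ≤ S * (lc (k : ℝ) m * (1 / Real.sqrt p) ^ m) := by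
    intro m
    have e1 : lc (k : ℝ) m ^ 2 * (1 / (p : ℝ)) ^ m = (lc (k : ℝ) m * (1 / Real.sqrt p) ^ m) ^ 2 := by
      rw [mul_pow, ← pow_mul, mul_comm m 2, pow_mul]
      congr 2
      rw [div_pow, Real.sq_sqrt (by linarith), one_pow]
    rw [e1, pow_two]
    refine mul_le_mul_of_nonneg_right ?_ (mul_nonneg (lc_nonneg hk0 m) (by positivity))
    exact le_hasSum hs m fun i _ => mul_nonneg (lc_nonneg hk0 i) (by positivity)
  calc ∑' m : ℕ, lc (k : ℝ) m ^ 2 * (1 / (p : ℝ)) ^ m ≤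
      ∑' m : ℕ, S * (lc (k : ℝ) m * (1 / Real.sqrt p) ^ m) :=
        (Dp_summable hk hp).tsum_le_tsum h1 (hs.summable.mul_left S)
    _ = S ^ 2 := by rw [tsum_mul_left, hs.tsum_eq]; ring

lemma log_Dp1 {k p : ℕ} (hk : 1 ≤ k) (hp : p.Prime) :
    Real.log (Dp k p) - (k : ℝ) ^ 2 * (1 / p) ≤ 2 * (k : ℝ) ^ 2 * (1 / (p : ℝ)) ^ 2 := by
  have h2 := inv_prime hp
  have h3 := log_bd h2.1.le h2.2
  have h4 := Real.log_le_log (by linarith [Dp_ge_one hk hp]) (Dp_le1 hk hp)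
  rw [one_div ((1 - 1 / (p : ℝ)) ^ k ^ 2), Real.log_inv, Real.log_pow] at h4
  push_cast at h4
  have h5 := mul_le_mul_of_nonneg_left h3.2 (by positivity : (0 : ℝ) ≤ (k : ℝ) ^ 2)
  nlinarith

lemma log_Dp2 {k p : ℕ} (hk : 1 ≤ k) (hp : p.Prime) :
    Real.log (Dp k p) ≤ 8 * k * (1 / Real.sqrt p) := by
  have hp2 : (2 : ℝ) ≤ p := by exact_mod_cast hp.two_le
  have hs1 : (1.4 : ℝ) ≤ Real.sqrt p := by
    refine Real.le_sqrt_of_sq_le ?_
    norm_num
    linarith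
  have hx0 : 0 < 1 / Real.sqrt p := by positivity
  have hx1 : 1 / Real.sqrt p ≤ 0.72 := by
    rw [div_le_iff₀ (by linarith)]
    linarith
  have h4 := Real.log_le_log (by linarith [Dp_ge_one hk hp]) (Dp_le2 hk hp)
  set y := 1 / Real.sqrt p with hy
  have h1y : 0 < 1 - y := by linarith
  rw [Real.log_pow, one_div ((1 - y) ^ k), Real.log_inv, Real.log_pow] at h4
  push_cast at h4
  have h5 := Real.one_sub_inv_le_log_of_pos h1y
  have h6 : (1 - y)⁻¹ ≤ 1 + 4 * y := by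
    rw [inv_le_comm₀ h1y (by positivity), inv_le_iff_one_le_mul₀ (by positivity)]
    nlinarith
  have h7 : -Real.log (1 - y) ≤ 4 * y := by linarith
  have hk0 : (0 : ℝ) ≤ k := Nat.cast_nonneg k
  have h8 := mul_le_mul_of_nonneg_left h7 hk0
  nlinarith

lemma log_aF {k : ℕ} (hk : 1 ≤ k) :
    HasSum (fun p : Nat.Primes => Real.log (Dp k p) + (k : ℝ) ^ 2 * Real.log (1 - 1 / ((p : ℕ) : ℝ)))
      (Real.log (aF k)) := by
  have hk0 : (0 : ℝ) < k := by exact_mod_cast hk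
  have he : ∀ i : Fin 1, (0 : ℝ) ≤ (fun _ : Fin 1 => (k : ℝ)) i := fun _ => hk0.le
  have hE : 0 < ∑ i : Fin 1, (fun _ : Fin 1 => (k : ℝ)) i := by simpa using hk0
  have hsum : ∑ i : Fin 1, (fun _ : Fin 1 => (k : ℝ)) i = k := by simp
  have h1 := up_summable he hE (s := 0) (fun i => le_refl _)
  have h2 := aF_eq he hE
  rw [hsum] at h2
  rw [h2, Real.log_exp]
  refine h1.hasSum.congr_fun ?_
  intro p
  have h3 := exp_up he hE (s := 0) (fun i => le_refl _) p.2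
  have h4 := aF_factor (e := fun _ : Fin 1 => (k : ℝ)) p.2
  rw [hsum] at h4 h3
  rw [h4] at h3
  have h5 := congrArg Real.log h3
  rw [Real.log_exp] at h5
  rw [h5]
  have h6 := inv_prime p.2
  have h7 : 0 < 1 - 1 / ((p : ℕ) : ℝ) := by linarith
  have h8 : ∑' m : ℕ, lc (k : ℝ) m ^ 2 * (1 / ((p : ℕ) : ℝ)) ^ m = Dp k p := rfl
  rw [h8, Real.log_mul (by positivity) (by linarith [Dp_ge_one hk p.2]), Real.log_rpow h7]
  ring

/-- bound for the arithmetic factor -/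
theorem log_aF_le {k : ℕ} (hk : 1 ≤ k) (N : ℕ) :
    Real.log (aF k) + (k : ℝ) ^ 2 * cN N ≤
      2 * (k : ℝ) ^ 2 * SN N + 8 * k * ∑ p ∈ PP 0 N, 1 / Real.sqrt p := by
  have h1 := log_aF hk
  have hcs : Summable (fun p : Nat.Primes =>
      (-Real.log (1 - 1 / ((p : ℕ) : ℝ)) - if N < (p : ℕ) then 1 / ((p : ℕ) : ℝ) else 0)) := by
    refine Summable.of_norm_bounded (dom_summable N) fun p => ?_
    have h := dom_bound N (le_refl 0) p
    rw [sub_zero, Real.rpow_neg_one, ← one_div] at h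
    rw [Real.norm_eq_abs]
    exact h
  have h2 : HasSum (fun p : Nat.Primes => (k : ℝ) ^ 2 *
      (-Real.log (1 - 1 / ((p : ℕ) : ℝ)) - if N < (p : ℕ) then 1 / ((p : ℕ) : ℝ) else 0))
      ((k : ℝ) ^ 2 * cN N) := hcs.hasSum.mul_left _
  have h3 := h1.add h2
  -- the majorant
  have h4 : HasSum (fun p : Nat.Primes => 2 * (k : ℝ) ^ 2 * (if N < (p : ℕ) then (1 / ((p : ℕ) : ℝ)) ^ 2 else 0))
      (2 * (k : ℝ) ^ 2 * SN N) := (SN_summable N).hasSum.mul_left _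
  have h5 : HasSum (fun p : Nat.Primes => if p ∈ PPp 0 N then 8 * (k : ℝ) * (1 / Real.sqrt p) else 0)
      (∑ p ∈ PPp 0 N, 8 * (k : ℝ) * (1 / Real.sqrt p)) := by
    have h9 : HasSum (fun p : Nat.Primes => if p ∈ PPp 0 N then 8 * (k : ℝ) * (1 / Real.sqrt p) else 0)
      (∑ p ∈ PPp 0 N, if p ∈ PPp 0 N then 8 * (k : ℝ) * (1 / Real.sqrt p) else 0) :=
      hasSum_sum_of_ne_finset_zero (fun p hp => if_neg hp)
    rw [sum_congr rfl fun p hp => if_pos hp] at h9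
    exact h9
  have h6 := h4.add h5
  have h7 : ∑ p ∈ PPp 0 N, 8 * (k : ℝ) * (1 / Real.sqrt p) = 8 * k * ∑ p ∈ PP 0 N, 1 / Real.sqrt p := by
    rw [sum_PP 0 N (fun p : ℕ => 1 / Real.sqrt p), mul_sum]
  rw [h7] at h6
  refine hasSum_le (fun p => ?_) h3 h6
  have m1 : p ∈ PPp 0 N ↔ (p : ℕ) ∈ PP 0 N := Finset.mem_subtype
  have m2 : (p : ℕ) ∈ PP 0 N ↔ ¬ N < (p : ℕ) := by
    unfold PP
    rw [mem_filter, mem_Icc]
    constructor
    · intro h; omega
    · intro h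
      exact ⟨⟨p.2.one_lt.le, by omega⟩, p.2, p.2.pos⟩
  by_cases h : N < (p : ℕ)
  · have h8 : p ∉ PPp 0 N := by rw [m1, m2]; exact fun h' => h' h
    rw [if_pos h, if_pos h, if_neg h8]
    have := log_Dp1 hk p.2
    linarith
  · have h8 : p ∈ PPp 0 N := by rw [m1, m2]; exact h
    rw [if_neg h, if_neg h, if_pos h8]
    have := log_Dp2 hk p.2
    linarith

end

end Pool.Agent.H84.Mom
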