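import Pool.Agent.H84.Mom.Dat

set_option autoImplicit false
set_option linter.unusedSectionVars false

/-! Asymptotics of the prime sums of a design. -/

namespace Pool.Agent.H84.Mom

open Finset Filter Topology MeasureTheory

noncomputable section

variable {n : ℕ} {J : Type} [Fintype J]

lemma PR_diff_le (N X : ℕ) {s t : ℝ} (hs : 0 < s) (hst : s ≤ t) :
    ∑ p ∈ PP N X, ((p : ℝ) ^ (-1 - s) - (p : ℝ) ^ (-1 - t)) ≤ PR N s - PR N t := by
  have h1 := (PR_summable N hs)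
  have h2 := (PR_summable N (lt_of_lt_of_le hs hst))
  have h3 : ∀ p : Nat.Primes, (if N < (p : ℕ) then ((p : ℕ) : ℝ) ^ (-1 - s) else 0) -
      (if N < (p : ℕ) then ((p : ℕ) : ℝ) ^ (-1 - t) else 0) =
      if N < (p : ℕ) then (((p : ℕ) : ℝ) ^ (-1 - s) - ((p : ℕ) : ℝ) ^ (-1 - t)) else 0 := by
    intro p; split_ifs <;> ring
  have h4 := (h1.hasSum.sub h2.hasSum)
  simp only [h3] at h4
  have h5 := sum_PP_le (N := N) (X := X) (f := fun p : ℕ => ((p : ℝ) ^ (-1 - s) - (p : ℝ) ^ (-1 - t)))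
    (fun p => by
      have : (1 : ℝ) ≤ ((p : ℕ) : ℝ) := by exact_mod_cast p.2.one_lt.le
      have h6 := Real.rpow_le_rpow_of_exponent_le this (by linarith : -1 - t ≤ -1 - s)
      exact sub_nonneg.2 h6) h4.summable
  exact h5.trans (le_of_eq h4.tsum_eq)

/-- estimate for a tail -/
lemma tail_form (D : Dat n J) (N X : ℕ) {σ : ℝ} (hσ : 0 < σ) (hϑ : 0 < D.ϑ)
    (hdiff : ∀ a b, D.ϑ < D.r a + D.r b →
      PR N ((D.r a + D.r b - D.ϑ) * σ) - PR N ((D.r a + D.r b) * σ) ≤ D.ϑ / (D.r a + D.r b - D.ϑ))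
    (F : J → J → ℝ) (hF0 : ∀ a b, 0 ≤ F a b) (hF : ∀ a b, F a b ≠ 0 → D.ϑ < D.r a + D.r b) (K : ℝ)
    (hK : 0 ≤ K) (W : ℕ → ℝ)
    (hW : ∀ p ∈ PP N X, W p = K * (1 / (p : ℝ) * ∑ a, ∑ b, F a b * (Eb D.r σ p a * Eb D.r σ p b))) :
    ∑ p : PP N X, (((p : ℕ) : ℝ) ^ (D.ϑ * σ) - 1) * W p ≤ K * (D.ϑ * D.sz F) := by
  rw [Finset.sum_coe_sort (PP N X) (fun p : ℕ => ((p : ℝ) ^ (D.ϑ * σ) - 1) * W p)]
  have h1 : ∀ p ∈ PP N X, ((p : ℝ) ^ (D.ϑ * σ) - 1) * W p =
      K * ∑ a, ∑ b, F a b * ((p : ℝ) ^ (-1 - (D.r a + D.r b - D.ϑ) * σ) - (p : ℝ) ^ (-1 - (D.r a + D.r b) * σ)) := by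
    intro p hp
    have hp1 : 1 ≤ p := (PP_prime p hp).one_lt.le
    have hp0 : (0 : ℝ) < p := by exact_mod_cast hp1
    rw [hW p hp, mul_left_comm]
    congr 1
    rw [mul_sum, mul_sum]
    refine sum_congr rfl fun a _ => ?_
    rw [mul_sum, mul_sum]
    refine sum_congr rfl fun b _ => ?_
    have e1 := Eb_mul (r := D.r) (σ := σ) hp1 a b
    have e2 : (p : ℝ) ^ (-1 - (D.r a + D.r b - D.ϑ) * σ) = (p : ℝ) ^ (D.ϑ * σ) * (p : ℝ) ^ (-1 - (D.r a + D.r b) * σ) := by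
      rw [← Real.rpow_add hp0]
      congr 1
      ring
    rw [e2, ← e1]
    ring
  rw [sum_congr rfl h1, ← mul_sum]
  refine mul_le_mul_of_nonneg_left ?_ hK
  unfold Dat.sz
  rw [mul_sum, sum_comm]
  refine sum_le_sum fun a _ => ?_
  rw [mul_sum, sum_comm]
  refine sum_le_sum fun b _ => ?_
  rw [← mul_sum]
  by_cases h0 : F a b = 0
  · rw [h0]; simp
  · have h2 := hF a b h0
    have h3 := PR_diff_le N X (s := (D.r a + D.r b - D.ϑ) * σ) (t := (D.r a + D.r b) * σ)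
      (mul_pos (by linarith) hσ) (mul_le_mul_of_nonneg_right (by linarith) hσ.le)
    have h4 := mul_le_mul_of_nonneg_left (h3.trans (hdiff a b h2)) (hF0 a b)
    refine h4.trans (le_of_eq ?_)
    ring

lemma diff_ev (D : Dat n J) (N : ℕ) {K : ℝ} (hK : 0 < K) (hϑ : 0 < D.ϑ) :
    ∀ᶠ L : ℝ in atTop, ∀ a b, D.ϑ < D.r a + D.r b →
      PR N ((D.r a + D.r b - D.ϑ) * (K / L)) - PR N ((D.r a + D.r b) * (K / L)) ≤
        D.ϑ / (D.r a + D.r b - D.ϑ) := by
  rw [eventually_all]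
  intro a
  rw [eventually_all]
  intro b
  by_cases h : D.ϑ < D.r a + D.r b
  · have h1 : 0 < (D.r a + D.r b - D.ϑ) * K := mul_pos (by linarith) hK
    have h2 : 0 < (D.r a + D.r b) * K := mul_pos (by linarith) hK
    have h3 := PR_diff_tendsto N h1 h2
    have h4 : Real.log ((D.r a + D.r b) * K) - Real.log ((D.r a + D.r b - D.ϑ) * K) <
        D.ϑ / (D.r a + D.r b - D.ϑ) := by
      have h5 : 0 < D.r a + D.r b - D.ϑ := by linarith
      rw [Real.log_mul (by linarith) hK.ne', Real.log_mul h5.ne' hK.ne']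
      have h6 : Real.log ((D.r a + D.r b) / (D.r a + D.r b - D.ϑ)) < D.ϑ / (D.r a + D.r b - D.ϑ) := by
        have h7 : (D.r a + D.r b) / (D.r a + D.r b - D.ϑ) = 1 + D.ϑ / (D.r a + D.r b - D.ϑ) := by
          field_simp
          ring
        have h8 : 0 < D.ϑ / (D.r a + D.r b - D.ϑ) := by positivity
        rw [h7]
        have := Real.log_lt_sub_one_of_pos (x := 1 + D.ϑ / (D.r a + D.r b - D.ϑ)) (by linarith) (by linarith)
        linarith
      rw [Real.log_div (by linarith) h5.ne'] at h6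
      linarith
    filter_upwards [h3.eventually_lt_const h4] with L hL _
    rw [mul_div_assoc, mul_div_assoc] at hL
    exact hL.le
  · filter_upwards with L hL
    exact absurd hL h

lemma main_X {D : Dat n J} {k j : ℕ} (h : D.OK k j) (N : ℕ) {σ ε : ℝ} (hσ : 0 < σ) (hε : 0 < ε) :
    ∃ X : ℕ, ∑ a, ∑ b, D.Q a b * PR N ((D.r a + D.r b) * σ) - ε ≤
      ∑ p ∈ PP N X, 1 / (p : ℝ) * D.D (Eb D.r σ p) := by
  have h1 : Tendsto (fun X : ℕ => ∑ p ∈ PP N X, 1 / (p : ℝ) * D.D (Eb D.r σ p)) atTop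
      (𝓝 (∑ a, ∑ b, D.Q a b * PR N ((D.r a + D.r b) * σ))) := by
    have h2 : ∀ X : ℕ, ∑ p ∈ PP N X, 1 / (p : ℝ) * D.D (Eb D.r σ p) =
        ∑ a, ∑ b, D.Q a b * ∑ p ∈ PP N X, (p : ℝ) ^ (-1 - (D.r a + D.r b) * σ) := by
      intro X
      rw [← form_sum]
      refine sum_congr rfl fun p _ => ?_
      rw [h.hQ]
    simp only [h2]
    refine tendsto_finsetSum _ fun a _ => tendsto_finsetSum _ fun b _ => ?_
    by_cases h0 : D.Q a b = 0
    · rw [h0]; simp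
    · refine Tendsto.const_mul _ ?_
      exact PPp_tendsto N (f := fun p : ℕ => (p : ℝ) ^ (-1 - (D.r a + D.r b) * σ))
        (PR_summable N (mul_pos (h.hQ0 a b h0) hσ))
  have h2 := h1.eventually (lt_mem_nhds (sub_lt_self _ hε))
  obtain ⟨X, hX⟩ := h2.exists
  exact ⟨X, hX.le⟩

lemma lim_L {D : Dat n J} {k j : ℕ} (h : D.OK k j) (N : ℕ) :
    Tendsto (fun L : ℝ => ∑ a, ∑ b, D.Q a b * PR N ((D.r a + D.r b) * ((k : ℝ) ^ 2 / L)) -
      (j : ℝ) / k * Real.log L) atTop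
      (𝓝 (-(∑ a, ∑ b, D.Q a b * Real.log (D.r a + D.r b)) - (j : ℝ) / k * (2 * Real.log k + cN N))) := by
  have hk : (0 : ℝ) < k := by exact_mod_cast h.hk
  have h1 : Tendsto (fun L : ℝ => ∑ a, ∑ b, D.Q a b * (PR N ((D.r a + D.r b) * ((k : ℝ) ^ 2 / L)) - Real.log L))
      atTop (𝓝 (∑ a, ∑ b, D.Q a b * (-Real.log (D.r a + D.r b) - (2 * Real.log k + cN N)))) := by
    refine tendsto_finsetSum _ fun a _ => tendsto_finsetSum _ fun b _ => ?_
    by_cases h0 : D.Q a b = 0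
    · rw [h0]; simp
    · refine Tendsto.const_mul _ ?_
      have h2 := h.hQ0 a b h0
      have h3 := PR_tendsto N (r := (D.r a + D.r b) * (k : ℝ) ^ 2) (by positivity)
      have e : -Real.log ((D.r a + D.r b) * (k : ℝ) ^ 2) - cN N =
          -Real.log (D.r a + D.r b) - (2 * Real.log k + cN N) := by
        rw [Real.log_mul h2.ne' (by positivity), Real.log_pow]
        push_cast
        ring
      rw [e] at h3
      refine h3.congr fun L => ?_
      rw [mul_div_assoc]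
  have e1 : ∑ a, ∑ b, D.Q a b * (-Real.log (D.r a + D.r b) - (2 * Real.log k + cN N)) =
      -(∑ a, ∑ b, D.Q a b * Real.log (D.r a + D.r b)) - (j : ℝ) / k * (2 * Real.log k + cN N) := by
    rw [← h.hQ1]
    simp only [mul_sub, mul_neg, sum_sub_distrib, sum_neg_distrib, sum_mul]
  rw [e1] at h1
  refine h1.congr fun L => ?_
  rw [← h.hQ1]
  simp only [mul_sub, sum_sub_distrib, sum_mul]

/-- `∑_{p > N} p^{-2}` -/
def SN (N : ℕ) : ℝ := ∑' p : Nat.Primes, if N < (p : ℕ) then (1 / ((p : ℕ) : ℝ)) ^ 2 else 0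

lemma SN_summable (N : ℕ) :
    Summable (fun p : Nat.Primes => if N < (p : ℕ) then (1 / ((p : ℕ) : ℝ)) ^ 2 else 0) := by
  refine Summable.of_nonneg_of_le (fun p => ?_) (fun p => ?_) Pool.Agent.H306R2.primes_summable
  · split_ifs
    · positivity
    · exact le_refl _
  · split_ifs
    · exact le_refl _
    · positivity

lemma SN_le (N X : ℕ) : ∑ p ∈ PP N X, (1 / (p : ℝ)) ^ 2 ≤ SN N :=
  sum_PP_le (f := fun p : ℕ => (1 / (p : ℝ)) ^ 2) (fun p => by positivity) (SN_summable N)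

end

end Pool.Agent.H84.Mom
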