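import Pool.Agent.H84.Mom.Asy

set_option autoImplicit false
set_option linter.unusedSectionVars false

/-! Primes have density zero. -/

namespace Pool.Agent.H84.Mom

open Finset Filter Topology

noncomputable section

lemma pi_small (ε : ℝ) (hε : 0 < ε) :
    ∀ᶠ x : ℕ in atTop, (Nat.primeCounting x : ℝ) ≤ ε * x := by
  have h1 : Tendsto (fun x : ℕ => Real.log 4 / Real.log (Real.sqrt x) + (Real.sqrt x)⁻¹) atTop (𝓝 0) := by
    have hs : Tendsto (fun x : ℕ => Real.sqrt (x : ℝ)) atTop atTop :=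
      Real.tendsto_sqrt_atTop.comp tendsto_natCast_atTop_atTop
    have h2 : Tendsto (fun x : ℕ => Real.log 4 / Real.log (Real.sqrt x)) atTop (𝓝 0) :=
      tendsto_const_nhds.div_atTop (Real.tendsto_log_atTop.comp hs)
    have h3 := h2.add (tendsto_inv_atTop_zero.comp hs)
    simpa using h3
  filter_upwards [h1.eventually (gt_mem_nhds hε), eventually_gt_atTop 1] with x hx hx1
  have hx1' : (1 : ℝ) < x := by exact_mod_cast hx1
  have h2 := Chebyshev.pi_le_log4_mul_div hx1'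
  rw [Nat.floor_natCast] at h2
  refine h2.trans ?_
  have hx0 : (0 : ℝ) < x := by linarith
  have h3 : Real.sqrt x = x * (Real.sqrt x)⁻¹ := by
    have h4 : Real.sqrt x ≠ 0 := (Real.sqrt_pos.2 hx0).ne'
    have h5 := Real.mul_self_sqrt hx0.le
    field_simp
    nlinarith
  have h6 : Real.log 4 * x / Real.log (Real.sqrt x) + x * (Real.sqrt x)⁻¹ =
      (Real.log 4 / Real.log (Real.sqrt x) + (Real.sqrt x)⁻¹) * x := by ring
  calc Real.log 4 * x / Real.log (Real.sqrt x) + Real.sqrt x =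
        Real.log 4 * x / Real.log (Real.sqrt x) + x * (Real.sqrt x)⁻¹ := by rw [← h3]
    _ = (Real.log 4 / Real.log (Real.sqrt x) + (Real.sqrt x)⁻¹) * x := h6
    _ ≤ ε * x := mul_le_mul_of_nonneg_right hx.le hx0.le

lemma PP_card (N X : ℕ) : ((PP N X).card : ℝ) ≤ Nat.primeCounting X := by
  have h : (PP N X).card ≤ Nat.primeCounting X := by
    rw [Nat.primeCounting, Nat.primeCounting', Nat.count_eq_card_filter_range]
    refine card_le_card fun p hp => ?_
    unfold PP at hp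
    rw [mem_filter, mem_Icc] at hp
    rw [mem_filter, mem_range]
    exact ⟨by omega, hp.2.1⟩
  exact_mod_cast h

/-- tail sum of inverse squares -/
lemma sum_sq_le {N M X : ℕ} (hN : 1 ≤ N) (hM : N ≤ M) :
    ∑ p ∈ PP N X, (1 / (p : ℝ)) ^ 2 ≤ Nat.primeCounting M / (N : ℝ) ^ 2 + 1 / M := by
  have hN0 : (0 : ℝ) < N := by exact_mod_cast hN
  have hM0 : (0 : ℝ) < M := by exact_mod_cast (hN.trans hM)
  have h1 : ∑ p ∈ PP N X, (1 / (p : ℝ)) ^ 2 ≤
      ∑ p ∈ PP N M, (1 / (p : ℝ)) ^ 2 + ∑ p ∈ Ioc M (max M X), ((p : ℝ) ^ 2)⁻¹ := by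
    have h2 : PP N X ⊆ PP N M ∪ Ioc M (max M X) := by
      intro p hp
      unfold PP at hp ⊢
      rw [mem_filter, mem_Icc] at hp
      rw [mem_union, mem_filter, mem_Icc, mem_Ioc]
      by_cases h : p ≤ M
      · left
        exact ⟨⟨hp.1.1, h⟩, hp.2⟩
      · right
        exact ⟨by omega, le_max_of_le_right hp.1.2⟩
    refine (sum_le_sum_of_subset_of_nonneg h2 fun _ _ _ => by positivity).trans ?_
    have hd : Disjoint (PP N M) (Ioc M (max M X)) := by
      rw [Finset.disjoint_left]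
      intro p hp hp2
      unfold PP at hp
      rw [mem_filter, mem_Icc] at hp
      rw [mem_Ioc] at hp2
      omega
    rw [sum_union hd]
    refine add_le_add (le_refl _) (le_of_eq (sum_congr rfl fun p _ => ?_))
    rw [one_div, inv_pow]
  have h3 : ∑ p ∈ PP N M, (1 / (p : ℝ)) ^ 2 ≤ Nat.primeCounting M / (N : ℝ) ^ 2 := by
    have h4 : ∀ p ∈ PP N M, (1 / (p : ℝ)) ^ 2 ≤ 1 / (N : ℝ) ^ 2 := by
      intro p hp
      have hp' := PP_lt p hp
      have h5 : (N : ℝ) ≤ p := by exact_mod_cast hp'.le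
      rw [div_pow, one_pow]
      exact one_div_le_one_div_of_le (by positivity) (pow_le_pow_left₀ hN0.le h5 2)
    refine (sum_le_card_nsmul _ _ _ h4).trans ?_
    rw [nsmul_eq_mul, mul_one_div]
    exact div_le_div_of_nonneg_right (PP_card N M) (by positivity)
  have h6 := sum_Ioc_inv_sq_le_sub (α := ℝ) (k := M) (n := max M X) (by omega) (le_max_left _ _)
  have h7 : 0 ≤ ((max M X : ℕ) : ℝ)⁻¹ := by positivity
  rw [one_div (M : ℝ)]
  linarith

lemma SN_small (ε : ℝ) (hε : 0 < ε) : ∀ᶠ N : ℕ in atTop, N * SN N ≤ ε := by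
  obtain ⟨m, hm⟩ := exists_nat_gt (2 / ε)
  have hm0 : (0 : ℝ) < m := lt_trans (by positivity) hm
  have hm1 : 1 ≤ m := by exact_mod_cast hm0
  have h1 := pi_small (ε / (2 * m)) (by positivity)
  obtain ⟨x0, hx0⟩ := eventually_atTop.1 h1
  filter_upwards [eventually_ge_atTop (max x0 1)] with N hN
  have hN1 : 1 ≤ N := le_trans (le_max_right _ _) hN
  have hN0 : (0 : ℝ) < N := by exact_mod_cast hN1
  have h2 := hx0 (m * N) (by
    have : x0 ≤ N := le_trans (le_max_left _ _) hN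
    nlinarith)
  have h3 : SN N ≤ Nat.primeCounting (m * N) / (N : ℝ) ^ 2 + 1 / ((m * N : ℕ) : ℝ) := by
    have ht := PPp_tendsto N (f := fun p : ℕ => (1 / (p : ℝ)) ^ 2) (SN_summable N)
    exact le_of_tendsto ht (Eventually.of_forall fun X => sum_sq_le hN1 (by nlinarith))
  have h4 : (N : ℝ) * (Nat.primeCounting (m * N) / (N : ℝ) ^ 2) ≤ ε / 2 := by
    have e1 : (N : ℝ) * (Nat.primeCounting (m * N) / (N : ℝ) ^ 2) = Nat.primeCounting (m * N) / N := by
      field_simp
    rw [e1, div_le_iff₀ hN0]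
    refine h2.trans (le_of_eq ?_)
    push_cast
    field_simp
  have h5 : (N : ℝ) * (1 / ((m * N : ℕ) : ℝ)) ≤ ε / 2 := by
    have e1 : (N : ℝ) * (1 / ((m * N : ℕ) : ℝ)) = 1 / m := by
      push_cast
      field_simp
    rw [e1, div_le_iff₀ hm0]
    rw [div_lt_iff₀ hε] at hm
    linarith
  have h6 := mul_le_mul_of_nonneg_left h3 hN0.le
  linarith

lemma sum_inv_sqrt_le (K : ℕ) : ∑ n ∈ Icc 1 K, 1 / Real.sqrt n ≤ 2 * Real.sqrt K := by
  induction K with
  | zero => simp
  | succ K ih =>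
    rw [sum_Icc_succ_top (by omega)]
    have h0 : (0 : ℝ) ≤ K := Nat.cast_nonneg K
    have h1 : 0 < Real.sqrt ((K + 1 : ℕ) : ℝ) := Real.sqrt_pos.2 (by push_cast; linarith)
    have h2 : Real.sqrt K ^ 2 = K := Real.sq_sqrt h0
    have h3 : Real.sqrt ((K + 1 : ℕ) : ℝ) ^ 2 = K + 1 := by
      rw [Real.sq_sqrt (by positivity)]; push_cast; ring
    have h4 : 0 ≤ Real.sqrt K := Real.sqrt_nonneg _
    set a := Real.sqrt K
    set b := Real.sqrt ((K + 1 : ℕ) : ℝ)
    have h5 : 1 / b ≤ 2 * b - 2 * a := by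
      rw [div_le_iff₀ h1]
      nlinarith [sq_nonneg (a - b)]
    linarith

lemma FN_small (ε : ℝ) (hε : 0 < ε) :
    ∀ᶠ N : ℕ in atTop, ∑ p ∈ PP 0 N, 1 / Real.sqrt p ≤ ε * Real.sqrt N := by
  -- choose `m` with `2 / sqrt m ≤ ε / 2`
  obtain ⟨m, hm⟩ := exists_nat_gt (16 / ε ^ 2)
  have hm0 : (0 : ℝ) < m := lt_trans (by positivity) hm
  have hm1 : 1 ≤ m := by exact_mod_cast hm0
  set ε' := ε / (2 * Real.sqrt (2 * m)) with hε'
  have hs0 : 0 < Real.sqrt (2 * m) := Real.sqrt_pos.2 (by positivity)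
  have hε'0 : 0 < ε' := by positivity
  filter_upwards [pi_small ε' hε'0, eventually_ge_atTop (2 * m)] with N hpi hN
  have hN1 : 1 ≤ N := by omega
  have hN0 : (0 : ℝ) < N := by exact_mod_cast hN1
  set K := N / m with hK
  have hK1 : 1 ≤ K := by
    rw [hK, Nat.one_le_div_iff (by omega)]
    omega
  have hK0 : (0 : ℝ) < K := by exact_mod_cast hK1
  have hKm : (K : ℝ) ≤ N / m := Nat.cast_div_le
  have hKm2 : (N : ℝ) / (2 * m) ≤ K := by
    have h1 : N < m * (K + 1) := by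
      rw [hK]
      exact Nat.lt_mul_div_succ N (by omega)
    have h2 : (N : ℝ) < m * (K + 1) := by exact_mod_cast h1
    rw [div_le_iff₀ (by positivity)]
    have h3 : (1 : ℝ) ≤ K := by exact_mod_cast hK1
    nlinarith
  have h1 : ∑ p ∈ PP 0 N, 1 / Real.sqrt p ≤ ∑ n ∈ Icc 1 K, 1 / Real.sqrt n + ∑ p ∈ PP K N, 1 / Real.sqrt p := by
    have h2 : PP 0 N ⊆ Icc 1 K ∪ PP K N := by
      intro p hp
      unfold PP at hp ⊢
      rw [mem_filter, mem_Icc] at hp
      rw [mem_union, mem_filter, mem_Icc, mem_Icc]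
      by_cases h : p ≤ K
      · left
        exact ⟨hp.1.1, h⟩
      · right
        exact ⟨hp.1, hp.2.1, by omega⟩
    refine (sum_le_sum_of_subset_of_nonneg h2 fun _ _ _ => by positivity).trans ?_
    have hd : Disjoint (Icc 1 K) (PP K N) := by
      rw [Finset.disjoint_left]
      intro p hp hp2
      unfold PP at hp2
      rw [mem_filter, mem_Icc] at hp2
      rw [mem_Icc] at hp
      omega
    rw [sum_union hd]
  have h2 := sum_inv_sqrt_le K
  have h3 : ∑ p ∈ PP K N, 1 / Real.sqrt p ≤ Nat.primeCounting N / Real.sqrt K := by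
    have h4 : ∀ p ∈ PP K N, 1 / Real.sqrt p ≤ 1 / Real.sqrt K := by
      intro p hp
      have hp' := PP_lt p hp
      have h5 : (K : ℝ) ≤ p := by exact_mod_cast hp'.le
      exact one_div_le_one_div_of_le (Real.sqrt_pos.2 hK0) (Real.sqrt_le_sqrt h5)
    refine (sum_le_card_nsmul _ _ _ h4).trans ?_
    rw [nsmul_eq_mul, mul_one_div]
    exact div_le_div_of_nonneg_right (PP_card K N) (Real.sqrt_nonneg _)
  have h5 : 2 * Real.sqrt K ≤ ε / 2 * Real.sqrt N := by
    have e1 : Real.sqrt K ≤ Real.sqrt N / Real.sqrt m := by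
      rw [← Real.sqrt_div hN0.le]
      exact Real.sqrt_le_sqrt hKm
    have e2 : 4 / ε ≤ Real.sqrt m := by
      refine Real.le_sqrt_of_sq_le ?_
      rw [div_pow]
      norm_num
      linarith
    have e3 : Real.sqrt N / Real.sqrt m ≤ Real.sqrt N / (4 / ε) :=
      div_le_div_of_nonneg_left (Real.sqrt_nonneg _) (by positivity) e2
    have e4 : Real.sqrt N / (4 / ε) = ε / 4 * Real.sqrt N := by
      field_simp
    linarith
  have h6 : (Nat.primeCounting N : ℝ) / Real.sqrt K ≤ ε / 2 * Real.sqrt N := by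
    have e1 : Real.sqrt N / Real.sqrt (2 * m) ≤ Real.sqrt K := by
      rw [← Real.sqrt_div hN0.le]
      exact Real.sqrt_le_sqrt hKm2
    have e0 : 0 < Real.sqrt N := Real.sqrt_pos.2 hN0
    calc (Nat.primeCounting N : ℝ) / Real.sqrt K ≤ ε' * N / (Real.sqrt N / Real.sqrt (2 * m)) :=
          div_le_div₀ (by positivity) hpi (by positivity) e1
      _ = ε / 2 * Real.sqrt N := by
          rw [hε']
          have e5 : (N : ℝ) = Real.sqrt N * Real.sqrt N := (Real.mul_self_sqrt hN0.le).symm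
          nth_rewrite 1 [e5]
          field_simp
  linarith

end

end Pool.Agent.H84.Mom
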