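import Pool.Agent.H84.Mom.FixT
import Pool.Agent.H84.Mom.AK
import Pool.Agent.H84.Mom.Dens

set_option autoImplicit false
set_option linter.unusedSectionVars false

/-! Base designs. -/

namespace Pool.Agent.H84.Mom

open Finset Filter Topology MeasureTheory
open Pool.Agent.H306R2 (aF)

noncomputable section

/-- a base design -/
structure Base (n : ℕ) (J : Type) [Fintype J] [DecidableEq J] where
  q : Fin n → ℕ
  t : ℕ
  r : J → ℝ
  z0 : J
  ρ : J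
  ex : J
  hh : Fin n → J → ℝ
  ll : Fin n → J → ℝ
  cA : Fin n → ℝ
  cB : Fin n → ℝ
  cL : ℝ
  cH : ℝ
  ϑ : ℝ
  s : ℝ

variable {n : ℕ} {J : Type} [Fintype J] [DecidableEq J]

/-- indicator -/
def ind (a0 : J) (c : ℝ) (a : J) : ℝ := if a = a0 then c else 0

/-- `∑ ll` -/
def Base.m (b : Base n J) (a : J) : ℝ := ∑ i, b.ll i a

/-- `∑ hh` -/
def Base.h (b : Base n J) (a : J) : ℝ := ∑ i, b.hh i a

/-- the vector `γ` -/
def Base.γ (b : Base n J) (x : ℝ) (a : J) : ℝ := ind b.ρ (1 / b.t - x) a + b.h a + ind b.ex x a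

/-- the vector `w` -/
def Base.w (b : Base n J) (x : ℝ) (a : J) : ℝ := ind b.z0 (1 / b.t - x) a + (b.h a + b.m a) + ind b.ex x a

/-- the vector `zz` -/
def Base.zz (b : Base n J) (x : ℝ) (a : J) : ℝ := ind b.z0 (1 / b.t - x) a - ind b.ρ (1 / b.t - x) a

/-- the quadratic form -/
def Base.Q (b : Base n J) (x : ℝ) (a a' : J) : ℝ :=
  b.w x a * b.w x a' - b.zz x a * b.zz x a' -
    ∑ i, (b.q i : ℝ) * ((b.hh i a + b.ll i a) * (b.hh i a' + b.ll i a')) -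
    x * (ind b.ex 1 a * ind b.ex 1 a')

/-- the design -/
def Base.dat (b : Base n J) (k e : ℕ) : Dat (n + e) J where
  q := Fin.append b.q (fun _ => b.t * k)
  r := b.r
  z := ind b.z0 (1 / b.t - (e : ℝ) / (b.t * k))
  lf := fun c => match c with
    | none => b.m
    | some i => Fin.append b.hh (fun _ => ind b.ex (1 / (b.t * k : ℝ))) i
  rt := fun c => match c with
    | none => b.γ ((e : ℝ) / (b.t * k))
    | some i => Fin.append b.ll (fun _ _ => 0) i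
  A := fun c => match c with
    | none => b.cL
    | some i => Fin.append b.cA (fun _ => (1 - b.s) / (b.t * k : ℝ)) i
  B := fun c => match c with
    | none => b.cH
    | some i => Fin.append b.cB (fun _ => b.s / (b.t * k : ℝ)) i
  Q := b.Q ((e : ℝ) / (b.t * k))
  ϑ := b.ϑ

/-- bilinear form for the sizes -/
def BL (r : J → ℝ) (ϑ : ℝ) (u v : J → ℝ) : ℝ := ∑ a, ∑ a', u a * v a' / (r a + r a' - ϑ)

/-- the conditions -/
structure Base.OK (b : Base n J) : Prop where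
  hq : ∀ i, 1 ≤ b.q i
  ht : 1 ≤ b.t
  hsum : (1 : ℝ) / b.t + ∑ i, 1 / (b.q i : ℝ) = 1
  hz0 : b.r b.z0 = 0
  hr : ∀ a, a ≠ b.z0 → b.ϑ < b.r a
  hϑ : 0 < b.ϑ
  hρ : b.ρ ≠ b.z0
  hex : b.ex ≠ b.z0
  hh0 : ∀ i a, 0 ≤ b.hh i a
  ll0 : ∀ i a, 0 ≤ b.ll i a
  hhz : ∀ i, b.hh i b.z0 = 0
  llz : ∀ i, b.ll i b.z0 = 0
  hhl : ∀ i, ∑ a, (b.hh i a + b.ll i a) = 1 / (b.q i : ℝ)
  cA0 : ∀ i, 0 ≤ b.cA i
  cB0 : ∀ i, 0 ≤ b.cB i
  cL0 : 0 ≤ b.cL
  cH0 : 0 ≤ b.cH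
  hs0 : 0 < b.s
  hs1 : b.s < 1
  capq : ∀ i, b.q i * (b.cA i + b.cB i) ≤ 1
  capA : b.cL + ∑ i, b.cA i < 1
  capB : b.cH + ∑ i, b.cB i < 1
  capS : b.cL + b.cH ≤ 1
  n1 : ∀ i, BL b.r b.ϑ (b.hh i) (fun a => b.γ 0 a + b.m a - b.ll i a) < b.cA i
  n2 : ∀ i, BL b.r b.ϑ (fun a => b.w 0 a - b.hh i a) (b.ll i) < b.cB i
  nL : BL b.r b.ϑ b.m b.m < b.cL
  nH : BL b.r b.ϑ (fun a => b.w 0 a - b.m a) (b.γ 0) < b.cH
  nE : BL b.r b.ϑ (ind b.ex 1) (fun a => b.γ 0 a + b.m a) < 1 - b.s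

section

variable {b : Base n J}

lemma ind_self (a0 : J) (c : ℝ) : ind a0 c a0 = c := by simp [ind]

lemma sum_ind (a0 : J) (c : ℝ) : ∑ a, ind a0 c a = c := by
  unfold ind
  rw [sum_ite_eq' univ a0 (fun _ => c)]
  simp

lemma vl_add (u v E : J → ℝ) : vl (fun a => u a + v a) E = vl u E + vl v E := by
  unfold vl
  rw [← sum_add_distrib]
  exact sum_congr rfl fun a _ => by ring

lemma vl_ind (a0 : J) (c : ℝ) (E : J → ℝ) : vl (ind a0 c) E = c * E a0 := by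
  unfold vl ind
  have : ∀ a, (if a = a0 then c else 0) * E a = if a = a0 then c * E a else 0 := by
    intro a; split_ifs <;> ring
  rw [sum_congr rfl fun a _ => this a, sum_ite_eq' univ a0 (fun a => c * E a)]
  simp

lemma vl_sum {ι : Type} [Fintype ι] (f : ι → J → ℝ) (E : J → ℝ) :
    vl (fun a => ∑ i, f i a) E = ∑ i, vl (f i) E := by
  unfold vl
  rw [sum_comm]
  exact sum_congr rfl fun a _ => by rw [sum_mul]

end

end

end Pool.Agent.H84.Mom
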