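import Pool.Agent.H84.Mom.Bas

set_option autoImplicit false
set_option linter.unusedSectionVars false

/-! The design of a base design is admissible. -/

namespace Pool.Agent.H84.Mom

open Finset Filter Topology MeasureTheory
open Pool.Agent.H306R2 (aF)

noncomputable section

variable {n : ℕ} {J : Type} [Fintype J] [DecidableEq J] {b : Base n J}

lemma Base.OK.t0 (hb : b.OK) : (0 : ℝ) < b.t := by exact_mod_cast hb.ht

lemma Base.OK.r0 (hb : b.OK) (a : J) : 0 ≤ b.r a := by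
  by_cases h : a = b.z0
  · rw [h, hb.hz0]
  · exact (hb.hϑ.trans (hb.hr a h)).le

lemma Base.OK.m0 (hb : b.OK) (a : J) : 0 ≤ b.m a := sum_nonneg fun i _ => hb.ll0 i a

lemma Base.OK.h0 (hb : b.OK) (a : J) : 0 ≤ b.h a := sum_nonneg fun i _ => hb.hh0 i a

lemma ind_nonneg {a0 : J} {c : ℝ} (hc : 0 ≤ c) (a : J) : 0 ≤ ind a0 c a := by
  unfold ind; split_ifs
  · exact hc
  · exact le_refl _

lemma jk_eq (hb : b.OK) {k j e : ℕ} (hk : 1 ≤ k) (hkj : k = b.t * j + e) :
    (j : ℝ) / k = 1 / b.t - (e : ℝ) / (b.t * k) := by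
  have ht := hb.t0
  have hk0 : (0 : ℝ) < k := by exact_mod_cast hk
  have h1 : (k : ℝ) = b.t * j + e := by exact_mod_cast hkj
  field_simp
  linarith

lemma sum_opt {e : ℕ} (f : Option (Fin (n + e)) → ℝ) :
    ∑ c, f c = f none + (∑ i : Fin n, f (some (Fin.castAdd e i)) + ∑ i : Fin e, f (some (Fin.natAdd n i))) := by
  rw [Fintype.sum_option, Fin.sum_univ_add]

section

variable {k e : ℕ}

lemma lf_none : (b.dat k e).lf none = b.m := rfl
lemma rt_none : (b.dat k e).rt none = b.γ ((e : ℝ) / (b.t * k)) := rfl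
lemma lf_l (i : Fin n) : (b.dat k e).lf (some (Fin.castAdd e i)) = b.hh i := by
  show Fin.append b.hh (fun _ => ind b.ex (1 / (b.t * k : ℝ))) (Fin.castAdd e i) = b.hh i
  exact Fin.append_left _ _ _
lemma lf_r (i : Fin e) : (b.dat k e).lf (some (Fin.natAdd n i)) = ind b.ex (1 / (b.t * k : ℝ)) := by
  show Fin.append b.hh (fun _ => ind b.ex (1 / (b.t * k : ℝ))) (Fin.natAdd n i) = _
  exact Fin.append_right _ _ _
lemma rt_l (i : Fin n) : (b.dat k e).rt (some (Fin.castAdd e i)) = b.ll i := by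
  show Fin.append b.ll (fun _ _ => 0) (Fin.castAdd e i) = b.ll i
  exact Fin.append_left _ _ _
lemma rt_r (i : Fin e) : (b.dat k e).rt (some (Fin.natAdd n i)) = fun _ => 0 := by
  show Fin.append b.ll (fun _ _ => 0) (Fin.natAdd n i) = _
  exact Fin.append_right _ _ _
lemma q_l (i : Fin n) : (b.dat k e).q (Fin.castAdd e i) = b.q i := by
  show Fin.append b.q (fun _ => b.t * k) (Fin.castAdd e i) = b.q i
  exact Fin.append_left _ _ _
lemma q_r (i : Fin e) : (b.dat k e).q (Fin.natAdd n i) = b.t * k := by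
  show Fin.append b.q (fun _ => b.t * k) (Fin.natAdd n i) = _
  exact Fin.append_right _ _ _
lemma A_l (i : Fin n) : (b.dat k e).A (some (Fin.castAdd e i)) = b.cA i := by
  show Fin.append b.cA (fun _ => (1 - b.s) / (b.t * k : ℝ)) (Fin.castAdd e i) = b.cA i
  exact Fin.append_left _ _ _
lemma A_r (i : Fin e) : (b.dat k e).A (some (Fin.natAdd n i)) = (1 - b.s) / (b.t * k : ℝ) := by
  show Fin.append b.cA (fun _ => (1 - b.s) / (b.t * k : ℝ)) (Fin.natAdd n i) = _
  exact Fin.append_right _ _ _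
lemma B_l (i : Fin n) : (b.dat k e).B (some (Fin.castAdd e i)) = b.cB i := by
  show Fin.append b.cB (fun _ => b.s / (b.t * k : ℝ)) (Fin.castAdd e i) = b.cB i
  exact Fin.append_left _ _ _
lemma B_r (i : Fin e) : (b.dat k e).B (some (Fin.natAdd n i)) = b.s / (b.t * k : ℝ) := by
  show Fin.append b.cB (fun _ => b.s / (b.t * k : ℝ)) (Fin.natAdd n i) = _
  exact Fin.append_right _ _ _

lemma sum_lf (a : J) : ∑ c, (b.dat k e).lf c a = b.h a + b.m a + ind b.ex ((e : ℝ) / (b.t * k)) a := by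
  rw [sum_opt]
  simp only [lf_none, lf_l, lf_r, sum_const, card_univ, Fintype.card_fin, nsmul_eq_mul]
  unfold Base.h ind
  split_ifs <;> ring

lemma sum_rt (a : J) : ∑ c, (b.dat k e).rt c a = b.γ ((e : ℝ) / (b.t * k)) a + b.m a := by
  rw [sum_opt]
  simp only [rt_none, rt_l, rt_r, sum_const_zero, add_zero]
  rfl

lemma dat_D (hb : b.OK) (hk : 1 ≤ k) (E : J → ℝ) :
    (b.dat k e).D E = ∑ a, ∑ a', (b.dat k e).Q a a' * (E a * E a') := by
  have ht := hb.t0
  have hk0 : (0 : ℝ) < k := by exact_mod_cast hk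
  have hq : ∀ i, (b.q i : ℝ) ≠ 0 := fun i => by have := hb.hq i; positivity
  set x : ℝ := (e : ℝ) / (b.t * k) with hx
  -- left
  have hz : vl (b.dat k e).z E = (1 / b.t - x) * E b.z0 := by
    show vl (ind b.z0 (1 / b.t - x)) E = _
    rw [vl_ind]
  set H := ∑ i, vl (b.hh i) E with hH
  set M := ∑ i, vl (b.ll i) E with hM
  have hm : vl b.m E = M := by
    unfold Base.m
    rw [vl_sum]
  have hh : vl b.h E = H := by
    unfold Base.h
    rw [vl_sum]
  have hγ : vl (b.γ x) E = (1 / b.t - x) * E b.ρ + H + x * E b.ex := by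
    have : b.γ x = fun a => (fun a => ind b.ρ (1 / b.t - x) a + b.h a) a + ind b.ex x a := rfl
    rw [this, vl_add (fun a => ind b.ρ (1 / b.t - x) a + b.h a), vl_add, vl_ind, vl_ind, hh]
  have hw : vl (b.w x) E = (1 / b.t - x) * E b.z0 + (H + M) + x * E b.ex := by
    have : b.w x = fun a => (fun a => ind b.z0 (1 / b.t - x) a + (fun a => b.h a + b.m a) a) a +
      ind b.ex x a := rfl
    rw [this, vl_add (fun a => ind b.z0 (1 / b.t - x) a + (fun a => b.h a + b.m a) a), vl_add, vl_ind,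
      vl_ind, vl_add, hh, hm]
  have hzz : vl (b.zz x) E = (1 / b.t - x) * E b.z0 - (1 / b.t - x) * E b.ρ := by
    rw [← vl_ind b.z0, ← vl_ind b.ρ]
    unfold vl Base.zz
    rw [← sum_sub_distrib]
    exact sum_congr rfl fun a _ => by ring
  have hsl : ∑ c, vl ((b.dat k e).lf c) E = M + H + x * E b.ex := by
    rw [sum_opt]
    simp only [lf_none, lf_l, lf_r, sum_const, card_univ, Fintype.card_fin, nsmul_eq_mul, vl_ind, hm]
    rw [hx, hH]
    field_simp
    ring
  have hsr : ∑ c, vl ((b.dat k e).rt c) E = vl (b.γ x) E + M := by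
    rw [sum_opt]
    simp only [rt_none, rt_l, rt_r]
    have : vl (fun _ => 0) E = 0 := by unfold vl; simp
    simp only [this, sum_const_zero, add_zero]
    rfl
  have hslr : ∑ c, vl ((b.dat k e).lf c) E * vl ((b.dat k e).rt c) E =
      M * vl (b.γ x) E + ∑ i, vl (b.hh i) E * vl (b.ll i) E := by
    rw [sum_opt]
    simp only [rt_none, rt_l, rt_r, lf_none, lf_l, lf_r]
    have : vl (fun _ => 0) E = 0 := by unfold vl; simp
    simp only [this, mul_zero, sum_const_zero, add_zero, hm]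
    rfl
  have hK : ∑ i, 1 / ((b.dat k e).q i : ℝ) * (((b.dat k e).q i : ℝ) ^ 2 *
      (vl ((b.dat k e).lf (some i)) E + vl ((b.dat k e).rt (some i)) E) ^ 2 -
      2 * (b.dat k e).q i * (vl ((b.dat k e).lf (some i)) E * vl ((b.dat k e).rt (some i)) E)) =
      ∑ i, (b.q i : ℝ) * (vl (b.hh i) E + vl (b.ll i) E) ^ 2 - 2 * ∑ i, vl (b.hh i) E * vl (b.ll i) E +
        x * (E b.ex) ^ 2 := by
    rw [Fin.sum_univ_add]
    simp only [rt_l, rt_r, lf_l, lf_r, q_l, q_r]
    have : vl (fun _ => 0) E = 0 := by unfold vl; simp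
    simp only [this, mul_zero, sub_zero, add_zero, vl_ind, sum_const, card_univ, Fintype.card_fin, nsmul_eq_mul]
    have e1 : ∀ i, 1 / (b.q i : ℝ) * ((b.q i : ℝ) ^ 2 * (vl (b.hh i) E + vl (b.ll i) E) ^ 2 -
        2 * b.q i * (vl (b.hh i) E * vl (b.ll i) E)) =
        (b.q i : ℝ) * (vl (b.hh i) E + vl (b.ll i) E) ^ 2 - 2 * (vl (b.hh i) E * vl (b.ll i) E) := by
      intro i
      have := hq i
      field_simp
    rw [sum_congr rfl fun i _ => e1 i, sum_sub_distrib, ← mul_sum]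
    congr 1
    rw [hx]
    push_cast
    field_simp
  have hR : ∑ a, ∑ a', (b.dat k e).Q a a' * (E a * E a') =
      vl (b.w x) E * vl (b.w x) E - vl (b.zz x) E * vl (b.zz x) E -
      ∑ i, (b.q i : ℝ) * (vl (b.hh i) E + vl (b.ll i) E) ^ 2 - x * (E b.ex) ^ 2 := by
    have e2 : ∀ i, (vl (b.hh i) E + vl (b.ll i) E) ^ 2 =
        ∑ a, ∑ a', ((b.hh i a + b.ll i a) * (b.hh i a' + b.ll i a')) * (E a * E a') := by
      intro i
      rw [← vl_mul (fun a => b.hh i a + b.ll i a) (fun a => b.hh i a + b.ll i a), vl_add]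
      ring
    have e3 : (E b.ex) ^ 2 = ∑ a, ∑ a', (ind b.ex 1 a * ind b.ex 1 a') * (E a * E a') := by
      rw [← vl_mul (ind b.ex 1) (ind b.ex 1), vl_ind]
      ring
    simp only [e2]
    rw [e3, vl_mul, vl_mul]
    simp only [mul_sum]
    rw [← sum_sub_distrib]
    have e4 : ∑ i, ∑ a, ∑ a', (b.q i : ℝ) * (((b.hh i a + b.ll i a) * (b.hh i a' + b.ll i a')) * (E a * E a')) =
        ∑ a, ∑ a', ∑ i, (b.q i : ℝ) * (((b.hh i a + b.ll i a) * (b.hh i a' + b.ll i a')) * (E a * E a')) := by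
      rw [sum_comm]
      refine sum_congr rfl fun a _ => ?_
      rw [sum_comm]
    rw [e4, ← sum_sub_distrib, ← sum_sub_distrib]
    refine sum_congr rfl fun a _ => ?_
    rw [← sum_sub_distrib, ← sum_sub_distrib, ← sum_sub_distrib]
    refine sum_congr rfl fun a' _ => ?_
    show b.Q x a a' * (E a * E a') = _
    unfold Base.Q
    rw [sub_mul, sub_mul, sum_mul]
    have e5 : ∑ i, (b.q i : ℝ) * ((b.hh i a + b.ll i a) * (b.hh i a' + b.ll i a')) * (E a * E a') =
        ∑ i, (b.q i : ℝ) * (((b.hh i a + b.ll i a) * (b.hh i a' + b.ll i a')) * (E a * E a')) :=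
      sum_congr rfl fun i _ => by ring
    rw [e5]
    ring
  unfold Dat.D
  rw [hR, hK, hz, hsl, hsr, hslr, lf_none, rt_none, hm]
  have hγ' : vl (b.γ ((e : ℝ) / (b.t * k))) E = vl (b.γ x) E := rfl
  rw [hγ', hw, hzz, hγ]
  ring

/-- the size forms in terms of the base -/
def Base.S1 (b : Base n J) (x : ℝ) (i : Fin n) : ℝ :=
  BL b.r b.ϑ (b.hh i) (fun a => b.γ x a + b.m a - b.ll i a)
def Base.S2 (b : Base n J) (x : ℝ) (i : Fin n) : ℝ :=
  BL b.r b.ϑ (fun a => b.w x a - b.hh i a) (b.ll i)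
def Base.SH (b : Base n J) (x : ℝ) : ℝ := BL b.r b.ϑ (fun a => b.w x a - b.m a) (b.γ x)
def Base.SE (b : Base n J) (x : ℝ) : ℝ := BL b.r b.ϑ (ind b.ex 1) (fun a => b.γ x a + b.m a)

lemma sz_BL (D : Dat n J) (u v : J → ℝ) : D.sz (fun a a' => u a * v a') = BL D.r D.ϑ u v := rfl

lemma BL_smul (r : J → ℝ) (ϑ c : ℝ) (u v : J → ℝ) : BL r ϑ (fun a => c * u a) v = c * BL r ϑ u v := by
  unfold BL
  rw [mul_sum]
  refine sum_congr rfl fun a _ => ?_
  rw [mul_sum]
  refine sum_congr rfl fun a' _ => ?_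
  ring

lemma z_add (a : J) : (b.dat k e).z a + ∑ c, (b.dat k e).lf c a = b.w ((e : ℝ) / (b.t * k)) a := by
  rw [sum_lf]
  show ind b.z0 (1 / b.t - (e : ℝ) / (b.t * k)) a + _ = _
  unfold Base.w
  ring

lemma sz1_none : (b.dat k e).sz ((b.dat k e).F1 none) = BL b.r b.ϑ b.m b.m := by
  have : (b.dat k e).F1 none = fun a a' => b.m a * b.m a' := by
    funext a a'
    unfold Dat.F1
    rw [sum_rt, lf_none, rt_none]
    ring
  rw [this]
  exact sz_BL _ _ _

lemma sz2_none : (b.dat k e).sz ((b.dat k e).F2 none) = b.SH ((e : ℝ) / (b.t * k)) := by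
  have : (b.dat k e).F2 none = fun a a' => (fun a => b.w ((e : ℝ) / (b.t * k)) a - b.m a) a *
      b.γ ((e : ℝ) / (b.t * k)) a' := by
    funext a a'
    unfold Dat.F2
    rw [z_add, lf_none, rt_none]
  rw [this]
  exact sz_BL _ _ _

lemma sz1_l (i : Fin n) : (b.dat k e).sz ((b.dat k e).F1 (some (Fin.castAdd e i))) = b.S1 ((e : ℝ) / (b.t * k)) i := by
  have : (b.dat k e).F1 (some (Fin.castAdd e i)) = fun a a' => b.hh i a *
      (fun a => b.γ ((e : ℝ) / (b.t * k)) a + b.m a - b.ll i a) a' := by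
    funext a a'
    unfold Dat.F1
    rw [sum_rt, lf_l, rt_l]
  rw [this]
  exact sz_BL _ _ _

lemma sz2_l (i : Fin n) : (b.dat k e).sz ((b.dat k e).F2 (some (Fin.castAdd e i))) = b.S2 ((e : ℝ) / (b.t * k)) i := by
  have : (b.dat k e).F2 (some (Fin.castAdd e i)) = fun a a' =>
      (fun a => b.w ((e : ℝ) / (b.t * k)) a - b.hh i a) a * b.ll i a' := by
    funext a a'
    unfold Dat.F2
    rw [z_add, lf_l, rt_l]
  rw [this]
  exact sz_BL _ _ _

lemma sz1_r (i : Fin e) : (b.dat k e).sz ((b.dat k e).F1 (some (Fin.natAdd n i))) =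
    1 / (b.t * k : ℝ) * b.SE ((e : ℝ) / (b.t * k)) := by
  have : (b.dat k e).F1 (some (Fin.natAdd n i)) = fun a a' => (fun a => 1 / (b.t * k : ℝ) * ind b.ex 1 a) a *
      (fun a => b.γ ((e : ℝ) / (b.t * k)) a + b.m a) a' := by
    funext a a'
    unfold Dat.F1
    rw [sum_rt, lf_r, rt_r]
    dsimp only
    unfold ind
    split_ifs <;> ring
  rw [this]
  have h2 := sz_BL (b.dat k e) (fun a => 1 / (b.t * k : ℝ) * ind b.ex 1 a)
    (fun a => b.γ ((e : ℝ) / (b.t * k)) a + b.m a)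
  rw [h2]
  exact BL_smul _ _ _ _ _

lemma sz2_r (i : Fin e) : (b.dat k e).sz ((b.dat k e).F2 (some (Fin.natAdd n i))) = 0 := by
  unfold Dat.sz Dat.F2
  rw [rt_r]
  simp

lemma cont_BL {u v : ℝ → J → ℝ} (r : J → ℝ) (ϑ : ℝ) (hu : ∀ a, Continuous fun x => u x a)
    (hv : ∀ a, Continuous fun x => v x a) : Continuous fun x => BL r ϑ (u x) (v x) := by
  unfold BL
  exact continuous_finsetSum _ fun a _ => continuous_finsetSum _ fun a' _ =>
    ((hu a).mul (hv a')).div_const _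

lemma cont_ind (a0 a : J) {f : ℝ → ℝ} (hf : Continuous f) : Continuous fun x => ind a0 (f x) a := by
  unfold ind
  split_ifs
  · exact hf
  · exact continuous_const

lemma cont_γ (a : J) : Continuous fun x => b.γ x a := by
  unfold Base.γ
  exact ((cont_ind _ _ (by fun_prop)).add continuous_const).add (cont_ind _ _ continuous_id)

lemma cont_w (a : J) : Continuous fun x => b.w x a := by
  unfold Base.w
  exact ((cont_ind _ _ (by fun_prop)).add continuous_const).add (cont_ind _ _ continuous_id)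

lemma cont_zz (a : J) : Continuous fun x => b.zz x a := by
  unfold Base.zz
  exact (cont_ind _ _ (by fun_prop)).sub (cont_ind _ _ (by fun_prop))

/-- the numerical conditions persist for small `x`, with some room -/
lemma room (hb : b.OK) : ∃ κ : ℝ, 0 < κ ∧ ∀ᶠ x : ℝ in 𝓝 0,
    (∀ i, κ ≤ b.cA i - b.S1 x i) ∧ (∀ i, κ ≤ b.cB i - b.S2 x i) ∧ κ ≤ b.cL - BL b.r b.ϑ b.m b.m ∧
    κ ≤ b.cH - b.SH x ∧ κ ≤ (1 - b.s) - b.SE x := by
  have c1' : ∀ i, Continuous (fun x => b.S1 x i) := by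
    intro i
    unfold Base.S1
    refine cont_BL (u := fun _ => b.hh i) (v := fun x a => b.γ x a + b.m a - b.ll i a) _ _
      (fun a => continuous_const) (fun a => ?_)
    exact ((cont_γ a).add continuous_const).sub continuous_const
  have c2' : ∀ i, Continuous (fun x => b.S2 x i) := by
    intro i
    unfold Base.S2
    refine cont_BL (u := fun x a => b.w x a - b.hh i a) (v := fun _ => b.ll i) _ _
      (fun a => ?_) (fun a => continuous_const)
    exact (cont_w a).sub continuous_const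
  have c3' : Continuous (fun x => b.SH x) := by
    unfold Base.SH
    refine cont_BL (u := fun x a => b.w x a - b.m a) (v := fun x => b.γ x) _ _
      (fun a => ?_) (fun a => cont_γ a)
    exact (cont_w a).sub continuous_const
  have c4' : Continuous (fun x => b.SE x) := by
    unfold Base.SE
    refine cont_BL (u := fun _ => ind b.ex 1) (v := fun x a => b.γ x a + b.m a) _ _
      (fun a => continuous_const) (fun a => ?_)
    exact (cont_γ a).add continuous_const
  have c1 : ∀ i, ContinuousAt (fun x => b.cA i - b.S1 x i) 0 := fun i =>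
    (continuous_const.sub (c1' i)).continuousAt
  have c2 : ∀ i, ContinuousAt (fun x => b.cB i - b.S2 x i) 0 := fun i =>
    (continuous_const.sub (c2' i)).continuousAt
  have c3 : ContinuousAt (fun x => b.cH - b.SH x) 0 := (continuous_const.sub c3').continuousAt
  have c4 : ContinuousAt (fun x => (1 - b.s) - b.SE x) 0 := (continuous_const.sub c4').continuousAt
  -- choose `κ`
  have p1 : ∀ i, 0 < b.cA i - b.S1 0 i := fun i => sub_pos.2 (hb.n1 i)
  have p2 : ∀ i, 0 < b.cB i - b.S2 0 i := fun i => sub_pos.2 (hb.n2 i)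
  have p3 : 0 < b.cH - b.SH 0 := sub_pos.2 hb.nH
  have p4 : 0 < (1 - b.s) - b.SE 0 := sub_pos.2 hb.nE
  have p5 : 0 < b.cL - BL b.r b.ϑ b.m b.m := sub_pos.2 hb.nL
  have hex : ∃ κ : ℝ, 0 < κ ∧ (∀ i, κ < b.cA i - b.S1 0 i) ∧ (∀ i, κ < b.cB i - b.S2 0 i) ∧
      κ < b.cL - BL b.r b.ϑ b.m b.m ∧ κ < b.cH - b.SH 0 ∧ κ < (1 - b.s) - b.SE 0 := by
    have e1 : ∀ᶠ κ : ℝ in 𝓝[>] 0, (∀ i, κ < b.cA i - b.S1 0 i) := by
      rw [eventually_all]
      intro i
      exact mem_nhdsWithin_of_mem_nhds (gt_mem_nhds (p1 i))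
    have e2 : ∀ᶠ κ : ℝ in 𝓝[>] 0, (∀ i, κ < b.cB i - b.S2 0 i) := by
      rw [eventually_all]
      intro i
      exact mem_nhdsWithin_of_mem_nhds (gt_mem_nhds (p2 i))
    have e3 : ∀ᶠ κ : ℝ in 𝓝[>] 0, κ < b.cL - BL b.r b.ϑ b.m b.m :=
      mem_nhdsWithin_of_mem_nhds (gt_mem_nhds p5)
    have e4 : ∀ᶠ κ : ℝ in 𝓝[>] 0, κ < b.cH - b.SH 0 := mem_nhdsWithin_of_mem_nhds (gt_mem_nhds p3)
    have e5 : ∀ᶠ κ : ℝ in 𝓝[>] 0, κ < (1 - b.s) - b.SE 0 := mem_nhdsWithin_of_mem_nhds (gt_mem_nhds p4)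
    obtain ⟨κ, h1, h2, h3, h4, h5, h6⟩ := ((eventually_mem_nhdsWithin (a := (0 : ℝ)) (s := Set.Ioi 0)).and
      (e1.and (e2.and (e3.and (e4.and e5))))).exists
    exact ⟨κ, h1, h2, h3, h4, h5, h6⟩
  obtain ⟨κ, hκ, k1, k2, k3, k4, k5⟩ := hex
  refine ⟨κ, hκ, ?_⟩
  have f1 : ∀ᶠ x : ℝ in 𝓝 0, ∀ i, κ ≤ b.cA i - b.S1 x i := by
    rw [eventually_all]
    intro i
    exact ((c1 i).eventually (lt_mem_nhds (k1 i))).mono fun x hx => hx.le
  have f2 : ∀ᶠ x : ℝ in 𝓝 0, ∀ i, κ ≤ b.cB i - b.S2 x i := by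
    rw [eventually_all]
    intro i
    exact ((c2 i).eventually (lt_mem_nhds (k2 i))).mono fun x hx => hx.le
  filter_upwards [f1, f2, c3.eventually (lt_mem_nhds k4), c4.eventually (lt_mem_nhds k5)] with x
    h1 h2 h3 h4
  exact ⟨h1, h2, k3.le, h3.le, h4.le⟩

end

end

end Pool.Agent.H84.Mom
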