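import Pool.Agent.H84.Mom.Bas2

set_option autoImplicit false
set_option linter.unusedSectionVars false

/-! The design of a base design is admissible. -/

namespace Pool.Agent.H84.Mom

open Finset Filter Topology MeasureTheory
open Pool.Agent.H306R2 (aF)

noncomputable section

variable {n : ℕ} {J : Type} [Fintype J] [DecidableEq J] {b : Base n J}

lemma sum_h (hb : b.OK) : ∑ a, (b.h a + b.m a) = 1 - 1 / b.t := by
  have h1 : ∑ a, (b.h a + b.m a) = ∑ i, ∑ a, (b.hh i a + b.ll i a) := by
    rw [sum_comm]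
    refine sum_congr rfl fun a _ => ?_
    unfold Base.h Base.m
    rw [sum_add_distrib]
  rw [h1, sum_congr rfl fun i _ => hb.hhl i]
  have := hb.hsum
  linarith

lemma sum_w (hb : b.OK) (x : ℝ) : ∑ a, b.w x a = 1 := by
  unfold Base.w
  rw [sum_add_distrib, sum_add_distrib, sum_ind, sum_ind, sum_h hb]
  ring

lemma sum_Q (hb : b.OK) (x : ℝ) : ∑ a, ∑ a', b.Q x a a' = 1 / b.t - x := by
  have hw := sum_w hb x
  have hz : ∑ a, b.zz x a = 0 := by
    unfold Base.zz
    rw [sum_sub_distrib, sum_ind, sum_ind, sub_self]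
  have hq : ∀ i, (b.q i : ℝ) ≠ 0 := fun i => by have := hb.hq i; positivity
  unfold Base.Q
  simp only [sum_sub_distrib, ← mul_sum, ← sum_mul]
  rw [hw, hz, sum_ind]
  have e1 : ∑ a, ∑ a', ∑ i, (b.q i : ℝ) * ((b.hh i a + b.ll i a) * (b.hh i a' + b.ll i a')) =
      ∑ i, 1 / (b.q i : ℝ) := by
    have e2 : ∀ a, ∑ a', ∑ i, (b.q i : ℝ) * ((b.hh i a + b.ll i a) * (b.hh i a' + b.ll i a')) =
        ∑ i, (b.hh i a + b.ll i a) := by
      intro a
      rw [sum_comm]
      refine sum_congr rfl fun i _ => ?_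
      rw [← mul_sum, ← mul_sum, hb.hhl i]
      have := hq i
      field_simp
    rw [sum_congr rfl fun a _ => e2 a, sum_comm]
    exact sum_congr rfl fun i _ => hb.hhl i
  rw [e1]
  have := hb.hsum
  linarith

lemma Q_zero (hb : b.OK) (x : ℝ) : b.Q x b.z0 b.z0 = 0 := by
  unfold Base.Q Base.w Base.zz Base.h Base.m ind
  simp only [hb.hhz, hb.llz, sum_const_zero, if_true, if_neg hb.hρ.symm, if_neg hb.hex.symm]
  simp

theorem dat_OK (hb : b.OK) :
    ∀ᶠ k : ℕ in atTop, ∀ j e : ℕ, k = b.t * j + e → e < b.t → (b.dat k e).OK k j := by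
  have ht := hb.t0
  obtain ⟨κ, hκ, hroom⟩ := room hb
  obtain ⟨δ, hδ, hball⟩ := Metric.eventually_nhds_iff.1 hroom
  set κ' := min κ b.s with hκ'
  have hκ'0 : 0 < κ' := lt_min hκ hb.hs0
  -- eventually in `k`
  have hinv : Tendsto (fun k : ℕ => 1 / (k : ℝ)) atTop (𝓝 0) := tendsto_one_div_atTop_nhds_zero_nat
  have E1 := hinv.eventually (gt_mem_nhds hδ)
  have E2 := hinv.eventually (gt_mem_nhds (sub_pos.2 hb.capA))
  have E3 := hinv.eventually (gt_mem_nhds (sub_pos.2 hb.capB))
  have E4 : ∀ᶠ k : ℕ in atTop, 2 * (1 + (n : ℝ) + b.t) * Real.exp (-(b.ϑ * κ' / b.t * k)) ≤ 1 / 2 := by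
    have h1 : Tendsto (fun k : ℕ => b.ϑ * κ' / b.t * (k : ℝ)) atTop atTop :=
      Tendsto.const_mul_atTop (by have := hb.hϑ; positivity) tendsto_natCast_atTop_atTop
    have h2 := (Real.tendsto_exp_neg_atTop_nhds_zero.comp h1).const_mul (2 * (1 + (n : ℝ) + b.t))
    rw [mul_zero] at h2
    filter_upwards [h2.eventually (gt_mem_nhds (by norm_num : (0 : ℝ) < 1 / 2))] with k hk
    exact hk.le
  filter_upwards [E1, E2, E3, E4, eventually_ge_atTop b.t, eventually_ge_atTop 1] with k h1 h2 h3 h4 h5 hk
    j e hkj he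
  have hk0 : (0 : ℝ) < k := by exact_mod_cast hk
  have hj : 1 ≤ j := by
    by_contra h
    have : j = 0 := by omega
    subst this
    simp only [mul_zero, zero_add] at hkj
    omega
  have hj0 : (0 : ℝ) < j := by exact_mod_cast hj
  have hjk := jk_eq hb hk hkj
  set x : ℝ := (e : ℝ) / (b.t * k) with hx
  have hx0 : 0 ≤ x := by positivity
  have het : (e : ℝ) ≤ b.t := by exact_mod_cast he.le
  have hxk : x ≤ 1 / k := by
    rw [hx, div_le_div_iff₀ (by positivity) hk0]
    nlinarith
  have htx : 0 ≤ 1 / (b.t : ℝ) - x := by rw [← hjk]; positivity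
  obtain ⟨r1, r2, r3, r4, r5⟩ := hball (y := x) (by
    rw [Real.dist_eq, sub_zero, abs_of_nonneg hx0]
    linarith)
  have hlf : ∀ c a, 0 ≤ (b.dat k e).lf c a := by
    intro c a
    rcases c with _ | i
    · exact hb.m0 a
    · refine Fin.addCases (fun i => ?_) (fun i => ?_) i
      · rw [lf_l]; exact hb.hh0 i a
      · rw [lf_r]; exact ind_nonneg (by positivity) a
  have hrt : ∀ c a, 0 ≤ (b.dat k e).rt c a := by
    intro c a
    rcases c with _ | i
    · rw [rt_none]
      unfold Base.γ
      have i1 := ind_nonneg (a0 := b.ρ) htx a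
      have i2 := ind_nonneg (a0 := b.ex) hx0 a
      have i3 := hb.h0 a
      rw [hx] at i1 i2
      linarith
    · refine Fin.addCases (fun i => ?_) (fun i => ?_) i
      · rw [rt_l]; exact hb.ll0 i a
      · rw [rt_r]
  have hsupl : ∀ c a, (b.dat k e).lf c a ≠ 0 → b.ϑ < b.r a := by
    intro c a h
    refine hb.hr a ?_
    rintro rfl
    apply h
    rcases c with _ | i
    · show b.m b.z0 = 0
      unfold Base.m
      simp [hb.llz]
    · refine Fin.addCases (fun i => ?_) (fun i => ?_) i
      · rw [lf_l]; exact hb.hhz i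
      · rw [lf_r]; unfold ind; rw [if_neg hb.hex.symm]
  have hsupr : ∀ c a, (b.dat k e).rt c a ≠ 0 → b.ϑ < b.r a := by
    intro c a h
    refine hb.hr a ?_
    rintro rfl
    apply h
    rcases c with _ | i
    · rw [rt_none]
      unfold Base.γ Base.h ind
      rw [if_neg hb.hρ.symm, if_neg hb.hex.symm]
      simp [hb.hhz]
    · refine Fin.addCases (fun i => ?_) (fun i => ?_) i
      · rw [rt_l]; exact hb.llz i
      · rw [rt_r]
  refine
    { hk := hk
      hj := hj
      hq := ?_
      hH := ?_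
      hr := hb.r0
      hz0 := ?_
      hz := ?_
      hl := hlf
      hrt := hrt
      hL1 := ?_
      hR1 := ?_
      hA := ?_
      hB := ?_
      hAs := ?_
      hBs := ?_
      hqA := ?_
      hS := hb.capS
      hQ := ?_
      hQ0 := ?_
      hQ1 := ?_
      hϑ := hb.hϑ
      hF1 := ?_
      hF2 := ?_
      htail := ?_ }
  · intro i
    refine Fin.addCases (fun i => ?_) (fun i => ?_) i
    · rw [q_l]; exact hb.hq i
    · rw [q_r]
      exact Nat.one_le_iff_ne_zero.2 (Nat.mul_ne_zero (by have := hb.ht; omega) (by omega))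
  · rw [Fin.sum_univ_add]
    simp only [q_l, q_r, sum_const, card_univ, Fintype.card_fin, nsmul_eq_mul]
    rw [hjk]
    have := hb.hsum
    push_cast
    have e1 : (e : ℝ) * (1 / (b.t * k)) = x := by rw [hx]; ring
    rw [e1]
    linarith
  · exact ind_nonneg htx
  · intro E hE
    show vl (ind b.z0 (1 / b.t - x)) E = _
    rw [vl_ind, hE _ hb.hz0, mul_one, hjk]
  · rw [sum_comm, ← sum_add_distrib]
    have := sum_w hb x
    rw [← this]
    refine le_of_eq (sum_congr rfl fun a _ => ?_)
    exact z_add a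
  · rw [sum_comm]
    simp only [sum_rt]
    have e1 : ∑ a, (b.γ x a + b.m a) = 1 := by
      unfold Base.γ
      have h6 : ∑ a, (ind b.ρ (1 / (b.t : ℝ) - x) a + b.h a + ind b.ex x a + b.m a) =
          ∑ a, (ind b.ρ (1 / (b.t : ℝ) - x) a + (b.h a + b.m a) + ind b.ex x a) :=
        sum_congr rfl fun a _ => by ring
      rw [h6, sum_add_distrib, sum_add_distrib, sum_ind, sum_ind, sum_h hb]
      ring
    exact e1.le
  · intro c
    rcases c with _ | i
    · exact hb.cL0
    · refine Fin.addCases (fun i => ?_) (fun i => ?_) i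
      · rw [A_l]; exact hb.cA0 i
      · rw [A_r]
        have := hb.hs1
        have : 0 ≤ 1 - b.s := by linarith
        positivity
  · intro c
    rcases c with _ | i
    · exact hb.cH0
    · refine Fin.addCases (fun i => ?_) (fun i => ?_) i
      · rw [B_l]; exact hb.cB0 i
      · rw [B_r]
        have := hb.hs0
        positivity
  · rw [sum_opt]
    simp only [A_l, A_r, sum_const, card_univ, Fintype.card_fin, nsmul_eq_mul]
    have e1 : (e : ℝ) * ((1 - b.s) / (b.t * k)) = (1 - b.s) * x := by rw [hx]; ring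
    rw [e1]
    have e2 : (1 - b.s) * x ≤ 1 / k := by
      have := hb.hs0
      nlinarith
    show b.cL + _ ≤ 1
    linarith
  · rw [sum_opt]
    simp only [B_l, B_r, sum_const, card_univ, Fintype.card_fin, nsmul_eq_mul]
    have e1 : (e : ℝ) * (b.s / (b.t * k)) = b.s * x := by rw [hx]; ring
    rw [e1]
    have e2 : b.s * x ≤ 1 / k := by
      have := hb.hs1
      nlinarith
    show b.cH + _ ≤ 1
    linarith
  · intro i
    refine Fin.addCases (fun i => ?_) (fun i => ?_) i
    · rw [A_l, B_l, q_l]; exact hb.capq i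
    · rw [A_r, B_r, q_r]
      push_cast
      have : (b.t : ℝ) * k * ((1 - b.s) / (b.t * k) + b.s / (b.t * k)) = 1 := by
        field_simp
        ring
      exact this.le
  · intro E
    exact dat_D hb hk E
  · intro a a' h
    by_cases ha : a = b.z0
    · by_cases ha' : a' = b.z0
      · exfalso
        rw [ha, ha'] at h
        exact h (Q_zero hb x)
      · have h6 := hb.hr a' ha'
        have h7 := hb.r0 a
        have h8 := hb.hϑ
        show 0 < b.r a + b.r a'
        linarith
    · have h6 := hb.hr a ha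
      have h7 := hb.r0 a'
      have h8 := hb.hϑ
      show 0 < b.r a + b.r a'
      linarith
  · rw [hjk]
    exact sum_Q hb x
  · intro c a a' h
    have h6 : (b.dat k e).lf c a ≠ 0 := by
      intro h7
      apply h
      unfold Dat.F1
      rw [h7, zero_mul]
    have h7 := hsupl c a h6
    have h8 := hb.r0 a'
    show b.ϑ < b.r a + b.r a'
    linarith
  · intro c a a' h
    have h6 : (b.dat k e).rt c a' ≠ 0 := by
      intro h7
      apply h
      unfold Dat.F2
      rw [h7, mul_zero]
    have h7 := hsupr c a' h6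
    have h8 := hb.r0 a
    show b.ϑ < b.r a + b.r a'
    linarith
  · -- tails
    have hϑ := hb.hϑ
    set q := Real.exp (-(b.ϑ * κ' / b.t * k)) with hq
    have hbig : ∀ y : ℝ, κ' / (b.t * k) ≤ y → Real.exp (-(b.ϑ * (k : ℝ) ^ 2 * y)) ≤ q := by
      intro y hy
      rw [hq]
      refine Real.exp_le_exp.2 (neg_le_neg ?_)
      have h6 := mul_le_mul_of_nonneg_left hy (by positivity : (0 : ℝ) ≤ b.ϑ * (k : ℝ) ^ 2)
      refine le_trans (le_of_eq ?_) h6
      field_simp
    have hbt : (1 : ℝ) ≤ b.t := by exact_mod_cast hb.ht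
    have hk1 : (1 : ℝ) ≤ k := by exact_mod_cast hk
    have hsm : κ' / (b.t * k) ≤ κ := by
      have h6 : κ' ≤ κ := min_le_left _ _
      rw [div_le_iff₀ (by positivity)]
      nlinarith [mul_le_mul hbt hk1 (by norm_num) (by linarith : (0 : ℝ) ≤ b.t)]
    have hterm : ∀ c, (Real.exp (-(b.ϑ * (k : ℝ) ^ 2 * ((b.dat k e).A c - (b.dat k e).sz ((b.dat k e).F1 c)))) +
        Real.exp (-(b.ϑ * (k : ℝ) ^ 2 * ((b.dat k e).B c - (b.dat k e).sz ((b.dat k e).F2 c))))) ≤ 2 * q := by
      intro c
      rcases c with _ | i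
      · rw [sz1_none, sz2_none]
        have a1 := hbig (b.cL - BL b.r b.ϑ b.m b.m) (hsm.trans r3)
        have a2 := hbig (b.cH - b.SH x) (hsm.trans r4)
        have e1 : (b.dat k e).A none = b.cL := rfl
        have e2 : (b.dat k e).B none = b.cH := rfl
        rw [e1, e2]
        linarith
      · refine Fin.addCases (fun i => ?_) (fun i => ?_) i
        · rw [sz1_l, sz2_l, A_l, B_l]
          have a1 := hbig _ (hsm.trans (r1 i))
          have a2 := hbig _ (hsm.trans (r2 i))
          linarith
        · rw [sz1_r, sz2_r, A_r, B_r]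
          have a1 := hbig ((1 - b.s) / (b.t * k) - 1 / (b.t * k) * b.SE x) (by
            have e1 : (1 - b.s) / (b.t * k) - 1 / (b.t * k) * b.SE x = ((1 - b.s) - b.SE x) / (b.t * k) := by
              ring
            rw [e1]
            exact div_le_div_of_nonneg_right ((min_le_left _ _).trans r5) (by positivity))
          have a2 := hbig (b.s / (b.t * k) - 0) (by
            rw [sub_zero]
            exact div_le_div_of_nonneg_right (min_le_right _ _) (by positivity))
          linarith
    refine (sum_le_sum fun c _ => hterm c).trans ?_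
    rw [sum_const, card_univ, Fintype.card_option, Fintype.card_fin, nsmul_eq_mul]
    have hq0 : 0 < q := Real.exp_pos _
    have e1 : ((n + e + 1 : ℕ) : ℝ) * (2 * q) ≤ 2 * (1 + (n : ℝ) + b.t) * q := by
      push_cast
      nlinarith
    linarith

end

end Pool.Agent.H84.Mom
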