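import Pool.Agent.H84.Mom.Eul

set_option autoImplicit false
set_option linter.unusedSectionVars false

/-! Lower bound for the block sums with caps. -/

namespace Pool.Agent.H84.Mom

open Finset
open Pool.Agent.H306R2 (dv lc)
open H295MK (mt)

noncomputable section

variable {P : Finset ℕ} {κ : Type*} [Fintype κ] [DecidableEq κ]

/-- the weight without the subtype -/
def FF (j : ℕ) (u : κ → ℕ → Fin 3 → ℝ) (p : ℕ) (b : Option κ × κ) : ℝ :=
  (match b.1 with
    | none => (j : ℝ) / Real.sqrt p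
    | some c => u c p 1) * u b.2 p 2

lemma om_some (j : ℕ) (u : κ → ℕ → Fin 3 → ℝ) (p : ℕ) (b : Blk κ) :
    om j u p (some b) = FF j u p b.1 := rfl

/-- sums over blocks -/
lemma sum_blk (f : Option κ × κ → ℝ) :
    ∑ b : Blk κ, f b.1 = ∑ r, (f (none, r) + ∑ c, if c = r then 0 else f (some c, r)) := by
  have h1 : ∑ b ∈ univ.filter (fun b : Option κ × κ => b.1 ≠ some b.2), f b = ∑ b : Blk κ, f b.1 :=
    Finset.sum_subtype _ (fun x => by simp) f
  rw [← h1, sum_filter, Fintype.sum_prod_type, sum_comm]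
  refine sum_congr rfl fun r _ => ?_
  rw [Fintype.sum_option]
  congr 1
  refine sum_congr rfl fun c _ => ?_
  by_cases h : c = r
  · simp [h]
  · simp [h]

/-- total weight -/
def WW (j : ℕ) (u : κ → ℕ → Fin 3 → ℝ) (p : ℕ) : ℝ :=
  ((j : ℝ) / Real.sqrt p + ∑ c, u c p 1) * (∑ c, u c p 2) - ∑ c, u c p 1 * u c p 2

/-- weight of the blocks with `c` in state `1` -/
def W1 (u : κ → ℕ → Fin 3 → ℝ) (c : κ) (p : ℕ) : ℝ := u c p 1 * (∑ r, u r p 2 - u c p 2)

/-- weight of the blocks with `c` in state `2` -/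
def W2 (j : ℕ) (u : κ → ℕ → Fin 3 → ℝ) (c : κ) (p : ℕ) : ℝ :=
  ((j : ℝ) / Real.sqrt p + ∑ r, u r p 1 - u c p 1) * u c p 2

lemma sum_ite_ne (g : κ → ℝ) (r : κ) : ∑ c, (if c = r then 0 else g c) = ∑ c, g c - g r := by
  have : ∀ c, (if c = r then (0:ℝ) else g c) = g c - (if c = r then g c else 0) := by
    intro c; split_ifs <;> ring
  rw [sum_congr rfl fun c _ => this c, sum_sub_distrib, sum_ite_eq' univ r g]
  simp

lemma sum_om (j : ℕ) (u : κ → ℕ → Fin 3 → ℝ) (p : ℕ) :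
    ∑ b : Blk κ, om j u p (some b) = WW j u p := by
  have h1 : ∑ b : Blk κ, om j u p (some b) = ∑ b : Blk κ, FF j u p b.1 := rfl
  rw [h1, sum_blk]
  have h2 : ∀ r, (FF j u p (none, r) + ∑ c, if c = r then 0 else FF j u p (some c, r)) =
      ((j : ℝ) / Real.sqrt p + ∑ c, u c p 1) * u r p 2 - u r p 1 * u r p 2 := by
    intro r
    rw [sum_ite_ne (fun c => FF j u p (some c, r)) r]
    unfold FF
    dsimp only
    rw [← sum_mul]
    ring
  rw [sum_congr rfl fun r _ => h2 r, sum_sub_distrib, ← mul_sum]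
  rfl

lemma sum_om1 (j : ℕ) (u : κ → ℕ → Fin 3 → ℝ) (p : ℕ) (c : κ) :
    ∑ b : Blk κ, (if st (some b) c = 1 then om j u p (some b) else 0) = W1 u c p := by
  have h1 : ∑ b : Blk κ, (if st (some b) c = 1 then om j u p (some b) else 0) =
      ∑ b : Blk κ, (fun b : Option κ × κ => if b.1 = some c then FF j u p b else 0) b.1 := by
    refine sum_congr rfl fun b _ => ?_
    rw [om_some]
    simp only [st_one]
  rw [h1.trans (sum_blk (fun b : Option κ × κ => if b.1 = some c then FF j u p b else 0))]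
  have h2 : ∀ r, ((fun b : Option κ × κ => if b.1 = some c then FF j u p b else 0) (none, r) +
      ∑ c', if c' = r then 0 else (fun b : Option κ × κ => if b.1 = some c then FF j u p b else 0)
        (some c', r)) = if r = c then 0 else u c p 1 * u r p 2 := by
    intro r
    rw [sum_ite_ne (fun c' => (fun b : Option κ × κ => if b.1 = some c then FF j u p b else 0)
        (some c', r)) r]
    unfold FF
    dsimp only
    simp only [Option.some.injEq, reduceCtorEq, if_false, zero_add]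
    rw [sum_ite_eq' univ c (fun x => u x p 1 * u r p 2)]
    simp only [mem_univ, if_true]
    split_ifs with h
    · rw [h]; ring
    · ring
  rw [sum_congr rfl fun r _ => h2 r, sum_ite_ne (fun r => u c p 1 * u r p 2) c, ← mul_sum]
  unfold W1
  ring

lemma sum_om2 (j : ℕ) (u : κ → ℕ → Fin 3 → ℝ) (p : ℕ) (c : κ) :
    ∑ b : Blk κ, (if st (some b) c = 2 then om j u p (some b) else 0) = W2 j u c p := by
  have h1 : ∑ b : Blk κ, (if st (some b) c = 2 then om j u p (some b) else 0) =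
      ∑ b : Blk κ, (fun b : Option κ × κ => if b.2 = c then FF j u p b else 0) b.1 := by
    refine sum_congr rfl fun b _ => ?_
    rw [om_some]
    simp only [st_two]
  rw [h1.trans (sum_blk (fun b : Option κ × κ => if b.2 = c then FF j u p b else 0))]
  have h2 : ∀ r, ((fun b : Option κ × κ => if b.2 = c then FF j u p b else 0) (none, r) +
      ∑ c', if c' = r then 0 else (fun b : Option κ × κ => if b.2 = c then FF j u p b else 0)
        (some c', r)) = if r = c then W2 j u c p else 0 := by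
    intro r
    rw [sum_ite_ne (fun c' => (fun b : Option κ × κ => if b.2 = c then FF j u p b else 0)
        (some c', r)) r]
    unfold FF W2
    dsimp only
    split_ifs with h
    · rw [h, ← sum_mul]; ring
    · simp
  rw [sum_congr rfl fun r _ => h2 r, sum_ite_eq' univ c]
  simp

lemma num_rpow (θ : ℝ) (s : Fin 3) (φ : P → Fin 3) :
    (num s φ : ℝ) ^ θ = ∏ p : P, if φ p = s then ((p : ℕ) : ℝ) ^ θ else 1 := by
  unfold num
  push_cast
  rw [← Real.finsetProd_rpow _ _ (fun p _ => by split_ifs <;> positivity)]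
  refine prod_congr rfl fun p _ => ?_
  split_ifs
  · rfl
  · exact Real.one_rpow θ

/-- weighted sums over `Ψ` factor -/
lemma sum_Psi (g : P → Option (Blk κ) → ℝ) :
    ∑ Ψ : P → Option (Blk κ), ∏ p, g p (Ψ p) = ∏ p, ∑ b, g p b := by
  rw [Finset.prod_univ_sum, Fintype.piFinset_univ]

section tail

variable (u : κ → ℕ → Fin 3 → ℝ) (j : ℕ)

lemma tail1 (hP : ∀ p ∈ P, Nat.Prime p) (hu : ∀ c, ∀ p ∈ P, ∀ s, 0 ≤ u c p s) (θ : ℝ) (hθ : 0 ≤ θ) (c : κ)
    (s : Fin 3) (w : ℕ → ℝ) (hw : ∀ p ∈ P, 0 ≤ w p)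
    (hs : s ≠ 0)
    (hsum : ∀ p ∈ P, ∑ b : Blk κ, (if st (some b) c = s then om j u p (some b) else 0) = w p) :
    ∑ Ψ : P → Option (Blk κ), (∏ p : P, om j u p (Ψ p)) * (num s (fam Ψ c) : ℝ) ^ θ ≤
      (∏ p : P, (1 + WW j u p)) * Real.exp (∑ p : P, (((p : ℕ) : ℝ) ^ θ - 1) * w p) := by
  have h1 : ∀ Ψ : P → Option (Blk κ), (∏ p : P, om j u p (Ψ p)) * (num s (fam Ψ c) : ℝ) ^ θ =
      ∏ p : P, (fun (p : P) (b : Option (Blk κ)) => om j u p b *
        (if st b c = s then ((p : ℕ) : ℝ) ^ θ else 1)) p (Ψ p) := by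
    intro Ψ
    rw [num_rpow, ← prod_mul_distrib]
    rfl
  rw [(sum_congr rfl fun Ψ _ => h1 Ψ).trans (sum_Psi (fun (p : P) (b : Option (Blk κ)) => om j u p b *
        (if st b c = s then ((p : ℕ) : ℝ) ^ θ else 1))), Real.exp_sum, ← prod_mul_distrib]
  have h2 : ∀ p : P, ∑ b, (fun (p : P) (b : Option (Blk κ)) => om j u p b *
        (if st b c = s then ((p : ℕ) : ℝ) ^ θ else 1)) p b =
      1 + WW j u p + (((p : ℕ) : ℝ) ^ θ - 1) * w p := by
    intro p
    dsimp only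
    rw [Fintype.sum_option]
    have h3 : om j u p none * (if st (none : Option (Blk κ)) c = s then ((p : ℕ) : ℝ) ^ θ else 1) = 1 := by
      unfold st om
      rw [if_neg hs.symm, mul_one]
    have h4 : ∀ b : Blk κ, om j u p (some b) * (if st (some b) c = s then ((p : ℕ) : ℝ) ^ θ else 1) =
        om j u p (some b) + (((p : ℕ) : ℝ) ^ θ - 1) * (if st (some b) c = s then om j u p (some b) else 0) := by
      intro b; split_ifs <;> ring
    rw [h3, sum_congr rfl fun b _ => h4 b, sum_add_distrib, ← mul_sum, hsum p p.2, sum_om]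
    ring
  have hWW : ∀ p : P, 0 ≤ WW j u p := by
    intro p
    rw [← sum_om]
    exact sum_nonneg fun b _ => om_nonneg j (fun c s => hu c p p.2 s) _
  have hz : ∀ p : P, 0 ≤ (((p : ℕ) : ℝ) ^ θ - 1) * w p := by
    intro p
    refine mul_nonneg ?_ (hw p p.2)
    have : (1 : ℝ) ≤ ((p : ℕ) : ℝ) := by exact_mod_cast (hP p p.2).one_lt.le
    have := Real.one_le_rpow this hθ
    linarith
  refine prod_le_prod (fun p _ => ?_) fun p _ => ?_
  · rw [h2 p]
    have := hWW p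
    have := hz p
    linarith
  · rw [h2 p]
    have a1 := hWW p
    have a2 := hz p
    have a3 := Real.add_one_le_exp ((((p : ℕ) : ℝ) ^ θ - 1) * w p)
    have a4 := mul_le_mul_of_nonneg_left a3 (by linarith : 0 ≤ 1 + WW j u p)
    nlinarith [mul_nonneg a1 a2]

open Classical in
theorem conc (XA XB : κ → ℝ) (hXA : ∀ c, 0 < XA c) (hXB : ∀ c, 0 < XB c) (hP : ∀ p ∈ P, Nat.Prime p)
    (hu : ∀ c, ∀ p ∈ P, ∀ s, 0 ≤ u c p s) (θ : ℝ) (hθ : 0 ≤ θ) :
    (∏ p : P, (1 + WW j u p)) * (1 -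
      ∑ c, (XA c ^ (-θ) * Real.exp (∑ p : P, (((p : ℕ) : ℝ) ^ θ - 1) * W1 u c p) +
        XB c ^ (-θ) * Real.exp (∑ p : P, (((p : ℕ) : ℝ) ^ θ - 1) * W2 j u c p))) ≤
      ∑ Ψ : P → Option (Blk κ), (if capOK XA XB Ψ then ∏ p : P, om j u p (Ψ p) else 0) := by
  have hom : ∀ Ψ : P → Option (Blk κ), 0 ≤ ∏ p : P, om j u p (Ψ p) := fun Ψ =>
    prod_nonneg fun p _ => om_nonneg j (fun c s => hu c p p.2 s) _
  have hterm : ∀ (Ψ : P → Option (Blk κ)) (c : κ) (s : Fin 3) (X : ℝ), 0 < X →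
      0 ≤ X ^ (-θ) * (num s (fam Ψ c) : ℝ) ^ θ := fun Ψ c s X hX => by positivity
  have hbig : ∀ (Ψ : P → Option (Blk κ)) (c : κ) (s : Fin 3) (X : ℝ), 0 < X →
      X < (num s (fam Ψ c) : ℝ) → 1 ≤ X ^ (-θ) * (num s (fam Ψ c) : ℝ) ^ θ := by
    intro Ψ c s X hX h
    rw [Real.rpow_neg hX.le, inv_mul_eq_div, le_div_iff₀ (Real.rpow_pos_of_pos hX _), one_mul]
    exact Real.rpow_le_rpow hX.le h.le hθ
  have h1 : ∀ Ψ : P → Option (Blk κ),
      (∏ p : P, om j u p (Ψ p)) - ∑ c, ((XA c ^ (-θ) * ((∏ p : P, om j u p (Ψ p)) * (num 1 (fam Ψ c) : ℝ) ^ θ)) +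
        (XB c ^ (-θ) * ((∏ p : P, om j u p (Ψ p)) * (num 2 (fam Ψ c) : ℝ) ^ θ))) ≤
      (if capOK XA XB Ψ then ∏ p : P, om j u p (Ψ p) else 0) := by
    intro Ψ
    have e1 : ∑ c, ((XA c ^ (-θ) * ((∏ p : P, om j u p (Ψ p)) * (num 1 (fam Ψ c) : ℝ) ^ θ)) +
        (XB c ^ (-θ) * ((∏ p : P, om j u p (Ψ p)) * (num 2 (fam Ψ c) : ℝ) ^ θ))) =
        (∏ p : P, om j u p (Ψ p)) * ∑ c, (XA c ^ (-θ) * (num 1 (fam Ψ c) : ℝ) ^ θ +
          XB c ^ (-θ) * (num 2 (fam Ψ c) : ℝ) ^ θ) := by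
      rw [mul_sum]
      exact sum_congr rfl fun c _ => by ring
    rw [e1]
    have hnn : 0 ≤ ∑ c, (XA c ^ (-θ) * (num 1 (fam Ψ c) : ℝ) ^ θ +
          XB c ^ (-θ) * (num 2 (fam Ψ c) : ℝ) ^ θ) :=
      sum_nonneg fun c _ => add_nonneg (hterm Ψ c 1 _ (hXA c)) (hterm Ψ c 2 _ (hXB c))
    split_ifs with h
    · have := mul_nonneg (hom Ψ) hnn
      linarith
    · have h2 : 1 ≤ ∑ c, (XA c ^ (-θ) * (num 1 (fam Ψ c) : ℝ) ^ θ +
          XB c ^ (-θ) * (num 2 (fam Ψ c) : ℝ) ^ θ) := by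
        unfold capOK at h
        rw [not_forall] at h
        obtain ⟨c, hc⟩ := h
        have h3 : 1 ≤ XA c ^ (-θ) * (num 1 (fam Ψ c) : ℝ) ^ θ +
          XB c ^ (-θ) * (num 2 (fam Ψ c) : ℝ) ^ θ := by
          rw [not_and_or, not_le, not_le] at hc
          rcases hc with hc | hc
          · have := hbig Ψ c 1 _ (hXA c) hc
            have := hterm Ψ c 2 _ (hXB c)
            linarith
          · have := hbig Ψ c 2 _ (hXB c) hc
            have := hterm Ψ c 1 _ (hXA c)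
            linarith
        refine h3.trans (single_le_sum (f := fun c => XA c ^ (-θ) * (num 1 (fam Ψ c) : ℝ) ^ θ +
          XB c ^ (-θ) * (num 2 (fam Ψ c) : ℝ) ^ θ) (fun c _ => ?_) (mem_univ c))
        exact add_nonneg (hterm Ψ c 1 _ (hXA c)) (hterm Ψ c 2 _ (hXB c))
      have := mul_le_mul_of_nonneg_left h2 (hom Ψ)
      linarith
  refine le_trans ?_ (sum_le_sum fun Ψ _ => h1 Ψ)
  rw [sum_sub_distrib, sum_comm]
  have h2 : ∑ Ψ : P → Option (Blk κ), ∏ p : P, om j u p (Ψ p) = ∏ p : P, (1 + WW j u p) := by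
    rw [sum_Psi (fun (p : P) b => om j u p b)]
    refine prod_congr rfl fun p _ => ?_
    rw [Fintype.sum_option, sum_om]
    rfl
  rw [h2, mul_sub, mul_one, mul_sum]
  have h3 : ∀ c, ∑ Ψ : P → Option (Blk κ),
      ((XA c ^ (-θ) * ((∏ p : P, om j u p (Ψ p)) * (num 1 (fam Ψ c) : ℝ) ^ θ)) +
        (XB c ^ (-θ) * ((∏ p : P, om j u p (Ψ p)) * (num 2 (fam Ψ c) : ℝ) ^ θ))) ≤
      (∏ p : P, (1 + WW j u p)) *
        (XA c ^ (-θ) * Real.exp (∑ p : P, (((p : ℕ) : ℝ) ^ θ - 1) * W1 u c p) +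
        XB c ^ (-θ) * Real.exp (∑ p : P, (((p : ℕ) : ℝ) ^ θ - 1) * W2 j u c p)) := by
    intro c
    rw [sum_add_distrib, ← mul_sum, ← mul_sum]
    have b1 : ∀ p ∈ P, 0 ≤ W1 u c p := by
      intro p hp
      rw [← sum_om1 j]
      refine sum_nonneg fun b _ => ?_
      split_ifs
      · exact om_nonneg j (fun c s => hu c p hp s) _
      · exact le_refl _
    have b2 : ∀ p ∈ P, 0 ≤ W2 j u c p := by
      intro p hp
      rw [← sum_om2 j]
      refine sum_nonneg fun b _ => ?_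
      split_ifs
      · exact om_nonneg j (fun c s => hu c p hp s) _
      · exact le_refl _
    have a1 := tail1 u j hP hu θ hθ c 1 (W1 u c) b1 (by decide) (fun p hp => sum_om1 j u p c)
    have a2 := tail1 u j hP hu θ hθ c 2 (W2 j u c) b2 (by decide) (fun p hp => sum_om2 j u p c)
    have c1 : 0 ≤ XA c ^ (-θ) := Real.rpow_nonneg (hXA c).le _
    have c2 : 0 ≤ XB c ^ (-θ) := Real.rpow_nonneg (hXB c).le _
    have d1 := mul_le_mul_of_nonneg_left a1 c1
    have d2 := mul_le_mul_of_nonneg_left a2 c2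
    linarith
  have h4 := sum_le_sum fun c (_ : c ∈ univ) => h3 c
  linarith

end tail

lemma one_add_ge_exp {x : ℝ} (hx : 0 ≤ x) : Real.exp (x - x ^ 2 / 2) ≤ 1 + x := by
  rw [← Real.le_log_iff_exp_le (by linarith)]
  refine le_trans ?_ (Real.le_log_one_add_of_nonneg hx)
  rw [le_div_iff₀ (by linarith)]
  nlinarith [pow_nonneg hx 3]

/-- **Lower bound for the correlation.** -/
theorem eul_lower (u : κ → ℕ → Fin 3 → ℝ) (j : ℕ) (XA XB : κ → ℝ) (hXA : ∀ c, 0 < XA c)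
    (hXB : ∀ c, 0 < XB c) (hP : ∀ p ∈ P, Nat.Prime p)
    (hu : ∀ c, ∀ p ∈ P, ∀ s, 0 ≤ u c p s) (hu0 : ∀ c, ∀ p ∈ P, u c p 0 = 1) (θ : ℝ) (hθ : 0 ≤ θ)
    (htail : ∑ c, (XA c ^ (-θ) * Real.exp (∑ p : P, (((p : ℕ) : ℝ) ^ θ - 1) * W1 u c p) +
        XB c ^ (-θ) * Real.exp (∑ p : P, (((p : ℕ) : ℝ) ^ θ - 1) * W2 j u c p)) ≤ 1 / 2) :
    Real.exp (∑ p : P, (WW j u p - WW j u p ^ 2 / 2)) / 2 ≤
    ∑ Φ : κ → P → Fin 3, (∏ c, cf (u c) (XA c) (XB c) (Φ c)) *
        mt j (∏ c, num 1 (Φ c)) (∏ c, num 2 (Φ c)) := by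
  refine le_trans ?_ (eul_lower0 u XA XB hP hu hu0 j)
  refine le_trans ?_ (conc u j XA XB hXA hXB hP hu θ hθ)
  have hWW : ∀ p : P, 0 ≤ WW j u p := by
    intro p
    rw [← sum_om]
    exact sum_nonneg fun b _ => om_nonneg j (fun c s => hu c p p.2 s) _
  rw [div_eq_mul_one_div]
  refine mul_le_mul ?_ (by linarith) (by norm_num) (prod_nonneg fun p _ => by linarith [hWW p])
  rw [Real.exp_sum]
  exact prod_le_prod (fun p _ => (Real.exp_pos _).le) fun p _ => one_add_ge_exp (hWW p)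

end

end Pool.Agent.H84.Mom
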