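import Pool.Graph.R_seed8.H306R2.EPLim

set_option autoImplicit false

/-! Prime sums. -/

namespace Pool.Agent.H84.Mom

open Finset Filter Topology
open Pool.Agent.H306R2 (Zr Zr_hasProd Zr_pos Zr_tendsto primes_summable)

noncomputable section

/-- `∑_{p > N} p^{-1-σ}` -/
def PR (N : ℕ) (σ : ℝ) : ℝ := ∑' p : Nat.Primes, if N < (p : ℕ) then ((p : ℕ) : ℝ) ^ (-1 - σ) else 0

/-- the constant -/
def cN (N : ℕ) : ℝ := ∑' p : Nat.Primes,
  (-Real.log (1 - 1 / ((p : ℕ) : ℝ)) - if N < (p : ℕ) then 1 / ((p : ℕ) : ℝ) else 0)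

lemma prime_rpow_bd (p : Nat.Primes) {σ : ℝ} (hσ : 0 ≤ σ) :
    0 < ((p : ℕ) : ℝ) ^ (-1 - σ) ∧ ((p : ℕ) : ℝ) ^ (-1 - σ) ≤ 1 / ((p : ℕ) : ℝ) ∧
      1 / ((p : ℕ) : ℝ) ≤ 1 / 2 := by
  have h2 : (2 : ℝ) ≤ ((p : ℕ) : ℝ) := by exact_mod_cast p.2.two_le
  have h0 : (0 : ℝ) < ((p : ℕ) : ℝ) := by linarith
  refine ⟨Real.rpow_pos_of_pos h0 _, ?_, one_div_le_one_div_of_le (by norm_num) h2⟩
  rw [one_div, ← Real.rpow_neg_one]
  exact Real.rpow_le_rpow_of_exponent_le (by linarith) (by linarith)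

lemma prime_rpow_summable {σ : ℝ} (hσ : 0 < σ) :
    Summable (fun p : Nat.Primes => ((p : ℕ) : ℝ) ^ (-1 - σ)) :=
  (Pool.Agent.H306R2.Zr_summable hσ).comp_injective Nat.Primes.coe_nat_injective

lemma PR_summable (N : ℕ) {σ : ℝ} (hσ : 0 < σ) :
    Summable (fun p : Nat.Primes => if N < (p : ℕ) then ((p : ℕ) : ℝ) ^ (-1 - σ) else 0) := by
  refine Summable.of_nonneg_of_le (fun p => ?_) (fun p => ?_) (prime_rpow_summable hσ)
  · split_ifs
    · positivity
    · exact le_refl _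
  · split_ifs
    · exact le_refl _
    · positivity

lemma log_bd {x : ℝ} (h0 : 0 ≤ x) (h1 : x ≤ 1 / 2) : x ≤ -Real.log (1 - x) ∧ -Real.log (1 - x) ≤ x + 2 * x ^ 2 := by
  have h3 : 0 < 1 - x := by linarith
  constructor
  · have := Real.log_le_sub_one_of_pos h3
    linarith
  · have h2 := Real.one_sub_inv_le_log_of_pos h3
    have h4 : (1 - x)⁻¹ ≤ 1 + x + 2 * x ^ 2 := by
      rw [inv_le_comm₀ h3 (by positivity), inv_le_iff_one_le_mul₀ (by positivity)]
      nlinarith [mul_nonneg h0 (by linarith : 0 ≤ 1 / 2 - x), mul_nonneg (mul_nonneg h0 h0) (by linarith : 0 ≤ 1 / 2 - x)]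
    linarith

lemma log_bd' {x : ℝ} (h0 : 0 ≤ x) (h1 : x ≤ 1 / 2) : -Real.log (1 - x) ≤ 2 * x := by
  have := (log_bd h0 h1).2
  nlinarith

lemma Zr_log {σ : ℝ} (hσ : 0 < σ) :
    HasSum (fun p : Nat.Primes => -Real.log (1 - ((p : ℕ) : ℝ) ^ (-1 - σ))) (Real.log (Zr σ)) := by
  have hs : Summable (fun p : Nat.Primes => -Real.log (1 - ((p : ℕ) : ℝ) ^ (-1 - σ))) := by
    refine Summable.of_nonneg_of_le (fun p => ?_) (fun p => ?_) ((prime_rpow_summable hσ).mul_left 2)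
    · have h := prime_rpow_bd p hσ.le
      have := (log_bd h.1.le (by linarith)).1
      linarith [h.1]
    · have h := prime_rpow_bd p hσ.le
      exact log_bd' h.1.le (by linarith)
  have h1 : HasProd (fun p : Nat.Primes => (1 - ((p:ℕ):ℝ) ^ (-1 - σ))⁻¹)
      (Real.exp (∑' p : Nat.Primes, -Real.log (1 - ((p : ℕ) : ℝ) ^ (-1 - σ)))) := by
    refine Real.hasProd_of_hasSum_log (fun p => ?_) ?_
    · have h := prime_rpow_bd p hσ.le
      have : 0 < 1 - ((p:ℕ):ℝ) ^ (-1 - σ) := by linarith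
      positivity
    · simp only [Real.log_inv]
      exact hs.hasSum
  have h2 := h1.unique (Zr_hasProd hσ)
  rw [← h2, Real.log_exp]
  exact hs.hasSum

/-- dominating function -/
def dom (N : ℕ) (p : Nat.Primes) : ℝ := 2 * (1 / ((p : ℕ) : ℝ)) ^ 2 + if N < (p : ℕ) then 0 else 1

lemma fin_primes (N : ℕ) : {p : Nat.Primes | ¬ N < (p : ℕ)}.Finite := by
  have h : {n : ℕ | n ≤ N}.Finite := Set.finite_le_nat N
  refine (h.preimage (Nat.Primes.coe_nat_injective.injOn)).subset ?_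
  intro p hp
  simp only [Set.mem_ofPred_eq, not_lt, Set.mem_preimage] at hp ⊢
  exact hp

lemma dom_summable (N : ℕ) : Summable (dom N) := by
  refine (primes_summable.mul_left 2).add ?_
  refine summable_of_hasFiniteSupport ((fin_primes N).subset ?_)
  intro p hp
  simp only [Function.mem_support, ne_eq] at hp
  simp only [Set.mem_ofPred_eq]
  intro h
  exact hp (if_pos h)

lemma dom_bound (N : ℕ) {σ : ℝ} (hσ : 0 ≤ σ) (p : Nat.Primes) :
    |(-Real.log (1 - ((p : ℕ) : ℝ) ^ (-1 - σ)) - if N < (p : ℕ) then ((p : ℕ) : ℝ) ^ (-1 - σ) else 0)| ≤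
      dom N p := by
  have h := prime_rpow_bd p hσ
  have h1 := log_bd h.1.le (by linarith)
  have h2 : (((p : ℕ) : ℝ) ^ (-1 - σ)) ^ 2 ≤ (1 / ((p : ℕ) : ℝ)) ^ 2 := pow_le_pow_left₀ h.1.le h.2.1 2
  unfold dom
  split_ifs
  · rw [abs_of_nonneg (by linarith)]
    linarith
  · rw [abs_of_nonneg (by linarith [h.1])]
    have := log_bd' h.1.le (by linarith : ((p : ℕ) : ℝ) ^ (-1 - σ) ≤ 1 / 2)
    have h3 : 0 ≤ (1 / ((p : ℕ) : ℝ)) ^ 2 := by positivity
    linarith

lemma PR_tendsto (N : ℕ) {r : ℝ} (hr : 0 < r) :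
    Tendsto (fun L : ℝ => PR N (r / L) - Real.log L) atTop (𝓝 (-Real.log r - cN N)) := by
  have hs : Tendsto (fun L : ℝ => r / L) atTop (𝓝 0) := tendsto_const_nhds.div_atTop tendsto_id
  have h1 : Tendsto (fun L : ℝ => ∑' p : Nat.Primes, (-Real.log (1 - ((p : ℕ) : ℝ) ^ (-1 - r / L)) -
      if N < (p : ℕ) then ((p : ℕ) : ℝ) ^ (-1 - r / L) else 0)) atTop (𝓝 (cN N)) := by
    unfold cN
    refine tendsto_tsum_of_dominated_convergence (dom_summable N) (fun p => ?_) ?_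
    · have h := prime_rpow_bd p (le_refl 0)
      have hp0 : ((p : ℕ) : ℝ) ≠ 0 := by exact_mod_cast p.2.ne_zero
      have h2 : Tendsto (fun L : ℝ => ((p : ℕ) : ℝ) ^ (-1 - r / L)) atTop (𝓝 (1 / ((p : ℕ) : ℝ))) := by
        have := (tendsto_const_nhds (x := ((p : ℕ) : ℝ)) (f := atTop (α := ℝ))).rpow (hs.const_sub (-1)) (Or.inl hp0)
        rwa [sub_zero, Real.rpow_neg_one, ← one_div] at this
      refine Tendsto.sub ?_ ?_
      · refine (Tendsto.log (h2.const_sub 1) ?_).neg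
        have := h.2.2
        linarith
      · split_ifs
        · exact h2
        · exact tendsto_const_nhds
    · filter_upwards [eventually_gt_atTop 0] with L hL p
      rw [Real.norm_eq_abs]
      exact dom_bound N (by positivity) p
  have h2 : Tendsto (fun L : ℝ => Real.log (Zr (r / L)) - Real.log L) atTop (𝓝 (-Real.log r)) := by
    have h3 := (Zr_tendsto hr).log (inv_ne_zero hr.ne')
    rw [Real.log_inv] at h3
    refine h3.congr' ?_
    filter_upwards [eventually_gt_atTop 0] with L hL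
    rw [Real.log_div (Zr_pos (by positivity)).ne' hL.ne']
  have h3 := h2.sub h1
  refine h3.congr' ?_
  filter_upwards [eventually_gt_atTop 0] with L hL
  have hσ : 0 < r / L := by positivity
  have h4 : ∑' p : Nat.Primes, (-Real.log (1 - ((p : ℕ) : ℝ) ^ (-1 - r / L)) -
      if N < (p : ℕ) then ((p : ℕ) : ℝ) ^ (-1 - r / L) else 0) = Real.log (Zr (r / L)) - PR N (r / L) :=
    ((Zr_log hσ).sub (PR_summable N hσ).hasSum).tsum_eq
  rw [h4]
  ring

lemma PR_diff_tendsto (N : ℕ) {r s : ℝ} (hr : 0 < r) (hs : 0 < s) :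
    Tendsto (fun L : ℝ => PR N (r / L) - PR N (s / L)) atTop (𝓝 (Real.log s - Real.log r)) := by
  have h := (PR_tendsto N hr).sub (PR_tendsto N hs)
  have e : -Real.log r - cN N - (-Real.log s - cN N) = Real.log s - Real.log r := by ring
  rw [e] at h
  refine h.congr fun L => ?_
  ring

/-- primes in `(N, X]` -/
def PP (N X : ℕ) : Finset ℕ := (Icc 1 X).filter fun p => p.Prime ∧ N < p

lemma PP_prime {N X : ℕ} : ∀ p ∈ PP N X, Nat.Prime p := by
  intro p hp
  unfold PP at hp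
  exact (mem_filter.1 hp).2.1

lemma PP_lt {N X : ℕ} : ∀ p ∈ PP N X, N < p := by
  intro p hp
  unfold PP at hp
  exact (mem_filter.1 hp).2.2

/-- the set of primes as a finset of `Nat.Primes` -/
def PPp (N X : ℕ) : Finset Nat.Primes := (PP N X).subtype Nat.Prime

lemma sum_PP (N X : ℕ) (f : ℕ → ℝ) : ∑ p ∈ PP N X, f p = ∑ p ∈ PPp N X, f p := by
  exact (Finset.sum_subtype_of_mem f PP_prime).symm

lemma sum_PP_le {N X : ℕ} {f : ℕ → ℝ} (hf : ∀ p : Nat.Primes, 0 ≤ f p)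
    (hs : Summable (fun p : Nat.Primes => if N < (p : ℕ) then f p else 0)) :
    ∑ p ∈ PP N X, f p ≤ ∑' p : Nat.Primes, if N < (p : ℕ) then f p else 0 := by
  rw [sum_PP]
  have h1 : ∑ p ∈ PPp N X, f p = ∑ p ∈ PPp N X, if N < (p : ℕ) then f p else 0 := by
    refine sum_congr rfl fun p hp => ?_
    unfold PPp at hp
    rw [if_pos (PP_lt _ (mem_subtype.1 hp))]
  rw [h1]
  refine hs.sum_le_tsum _ fun p _ => ?_
  split_ifs
  · exact hf p
  · exact le_refl _

lemma PPp_tendsto (N : ℕ) {f : ℕ → ℝ}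
    (hs : Summable (fun p : Nat.Primes => if N < (p : ℕ) then f p else 0)) :
    Tendsto (fun X : ℕ => ∑ p ∈ PP N X, f p) atTop (𝓝 (∑' p : Nat.Primes, if N < (p : ℕ) then f p else 0)) := by
  have h := hs.hasSum
  -- use the finsets of primes up to `X`
  have h2 : Tendsto (fun X : ℕ => ((Icc 1 X).subtype Nat.Prime : Finset Nat.Primes)) atTop atTop := by
    refine tendsto_atTop_finset_of_monotone ?_ ?_
    · intro X Y hXY p hp
      rw [mem_subtype, mem_Icc] at hp ⊢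
      exact ⟨hp.1, hp.2.trans hXY⟩
    · intro p
      refine ⟨p, ?_⟩
      rw [mem_subtype, mem_Icc]
      exact ⟨p.2.one_lt.le, le_refl _⟩
  have h3 := h.comp h2
  refine h3.congr fun X => ?_
  simp only [Function.comp]
  rw [sum_PP]
  set S : Finset Nat.Primes := (Icc 1 X).subtype Nat.Prime with hS
  have h4 : PPp N X = S.filter (fun p : Nat.Primes => N < (p : ℕ)) := by
    ext p
    have m1 : p ∈ PPp N X ↔ (p : ℕ) ∈ PP N X := Finset.mem_subtype
    have m2 : p ∈ S ↔ (p : ℕ) ∈ Icc 1 X := Finset.mem_subtype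
    rw [m1, mem_filter, m2]
    unfold PP
    rw [mem_filter]
    constructor
    · intro h
      exact ⟨h.1, h.2.2⟩
    · intro h
      exact ⟨h.1, p.2, h.2⟩
  rw [h4, sum_filter]

end

end Pool.Agent.H84.Mom
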