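import Pool.Agent.H84.Mom.Win
import Pool.Agent.H84.Mom.Prim

set_option autoImplicit false
set_option linter.unusedSectionVars false

/-! The data of a design, the weights, and the estimates for prime sums. -/

namespace Pool.Agent.H84.Mom

open Finset Filter Topology MeasureTheory

noncomputable section

variable {n : ℕ} {J : Type} [Fintype J]

/-- value -/
def vl (x E : J → ℝ) : ℝ := ∑ a, x a * E a

/-- the basis -/
def Eb (r : J → ℝ) (σ : ℝ) (p : ℕ) (a : J) : ℝ := (p : ℝ) ^ (-(r a * σ))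

/-- weights -/
def uu (k : ℕ) (r : J → ℝ) (σ : ℝ) (x y : J → ℝ) (p : ℕ) (s : Fin 3) : ℝ :=
  if s = 1 then k * vl x (Eb r σ p) / Real.sqrt p else
    if s = 2 then k * vl y (Eb r σ p) / Real.sqrt p else 1

/-- the data of a design -/
structure Dat (n : ℕ) (J : Type) [Fintype J] where
  q : Fin n → ℕ
  r : J → ℝ
  z : J → ℝ
  lf : Option (Fin n) → J → ℝ
  rt : Option (Fin n) → J → ℝ
  A : Option (Fin n) → ℝ
  B : Option (Fin n) → ℝ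
  Q : J → J → ℝ
  ϑ : ℝ

/-- the exponent at one prime -/
def Dat.D (D : Dat n J) (E : J → ℝ) : ℝ :=
  2 * ((vl D.z E + ∑ c, vl (D.lf c) E) * (∑ c, vl (D.rt c) E) - ∑ c, vl (D.lf c) E * vl (D.rt c) E)
  - ((vl (D.rt none) E + vl (D.lf none) E) ^ 2 - 2 * (vl (D.rt none) E * vl (D.lf none) E))
  - ∑ i, 1 / (D.q i : ℝ) * ((D.q i : ℝ) ^ 2 * (vl (D.lf (some i)) E + vl (D.rt (some i)) E) ^ 2 -
      2 * D.q i * (vl (D.lf (some i)) E * vl (D.rt (some i)) E))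

/-- the coefficients for the tails -/
def Dat.F1 (D : Dat n J) (c : Option (Fin n)) (a b : J) : ℝ :=
  D.lf c a * (∑ c', D.rt c' b - D.rt c b)

/-- the coefficients for the tails -/
def Dat.F2 (D : Dat n J) (c : Option (Fin n)) (a b : J) : ℝ :=
  (D.z a + ∑ c', D.lf c' a - D.lf c a) * D.rt c b

/-- sizes -/
def Dat.sz (D : Dat n J) (F : J → J → ℝ) : ℝ := ∑ a, ∑ b, F a b / (D.r a + D.r b - D.ϑ)

structure Dat.OK (D : Dat n J) (k j : ℕ) : Prop where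
  hk : 1 ≤ k
  hj : 1 ≤ j
  hq : ∀ i, 1 ≤ D.q i
  hH : (j : ℝ) / k + ∑ i, 1 / (D.q i : ℝ) = 1
  hr : ∀ a, 0 ≤ D.r a
  hz0 : ∀ a, 0 ≤ D.z a
  hz : ∀ E : J → ℝ, (∀ a, D.r a = 0 → E a = 1) → vl D.z E = (j : ℝ) / k
  hl : ∀ c a, 0 ≤ D.lf c a
  hrt : ∀ c a, 0 ≤ D.rt c a
  hL1 : ∑ a, D.z a + ∑ c, ∑ a, D.lf c a ≤ 1
  hR1 : ∑ c, ∑ a, D.rt c a ≤ 1
  hA : ∀ c, 0 ≤ D.A c
  hB : ∀ c, 0 ≤ D.B c
  hAs : ∑ c, D.A c ≤ 1
  hBs : ∑ c, D.B c ≤ 1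
  hqA : ∀ i, D.q i * (D.A (some i) + D.B (some i)) ≤ 1
  hS : D.A none + D.B none ≤ 1
  hQ : ∀ E, D.D E = ∑ a, ∑ b, D.Q a b * (E a * E b)
  hQ0 : ∀ a b, D.Q a b ≠ 0 → 0 < D.r a + D.r b
  hQ1 : ∑ a, ∑ b, D.Q a b = (j : ℝ) / k
  hϑ : 0 < D.ϑ
  hF1 : ∀ c a b, D.F1 c a b ≠ 0 → D.ϑ < D.r a + D.r b
  hF2 : ∀ c a b, D.F2 c a b ≠ 0 → D.ϑ < D.r a + D.r b
  htail : ∑ c, (Real.exp (-(D.ϑ * (k : ℝ) ^ 2 * (D.A c - D.sz (D.F1 c)))) +
    Real.exp (-(D.ϑ * (k : ℝ) ^ 2 * (D.B c - D.sz (D.F2 c))))) ≤ 1 / 2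

section basics

variable {r : J → ℝ} {σ : ℝ} {p : ℕ}

lemma Eb_pos (hp : 1 ≤ p) (a : J) : 0 < Eb r σ p a :=
  Real.rpow_pos_of_pos (by exact_mod_cast hp) _

lemma Eb_le (hr : ∀ a, 0 ≤ r a) (hσ : 0 ≤ σ) (hp : 1 ≤ p) (a : J) : Eb r σ p a ≤ 1 := by
  unfold Eb
  exact Real.rpow_le_one_of_one_le_of_nonpos (by exact_mod_cast hp)
    (by have := mul_nonneg (hr a) hσ; linarith)

lemma Eb_zero {a : J} (h : r a = 0) : Eb r σ p a = 1 := by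
  unfold Eb
  rw [h, zero_mul, neg_zero, Real.rpow_zero]

lemma vl_nonneg {x E : J → ℝ} (hx : ∀ a, 0 ≤ x a) (hE : ∀ a, 0 ≤ E a) : 0 ≤ vl x E :=
  sum_nonneg fun a _ => mul_nonneg (hx a) (hE a)

lemma vl_le {x E : J → ℝ} (hx : ∀ a, 0 ≤ x a) (hE : ∀ a, E a ≤ 1) : vl x E ≤ ∑ a, x a :=
  sum_le_sum fun a _ => by
    have := mul_le_mul_of_nonneg_left (hE a) (hx a)
    linarith

lemma vl_mul (x y E : J → ℝ) : vl x E * vl y E = ∑ a, ∑ b, (x a * y b) * (E a * E b) := by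
  unfold vl
  rw [sum_mul_sum]
  exact sum_congr rfl fun a _ => sum_congr rfl fun b _ => by ring

lemma uu_nonneg {k : ℕ} {x y : J → ℝ} (hx : ∀ a, 0 ≤ x a) (hy : ∀ a, 0 ≤ y a) (s : Fin 3)
    (hp : 1 ≤ p) : 0 ≤ uu k r σ x y p s := by
  have h1 := vl_nonneg hx (fun a => (Eb_pos (r := r) (σ := σ) hp a).le)
  have h2 := vl_nonneg hy (fun a => (Eb_pos (r := r) (σ := σ) hp a).le)
  unfold uu
  split_ifs
  · positivity
  · positivity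
  · exact zero_le_one

lemma uu_le {k : ℕ} {x y : J → ℝ} (hx : ∀ a, 0 ≤ x a) (hy : ∀ a, 0 ≤ y a) (hx1 : ∑ a, x a ≤ 1)
    (hy1 : ∑ a, y a ≤ 1) (hr : ∀ a, 0 ≤ r a) (hσ : 0 ≤ σ) (s : Fin 3)
    (hp : 1 ≤ p) (hkp : k ^ 2 ≤ p) : uu k r σ x y p s ≤ 1 := by
  have h1 := (vl_le hx (fun a => Eb_le hr hσ hp a)).trans hx1
  have h2 := (vl_le hy (fun a => Eb_le hr hσ hp a)).trans hy1
  have hs : (k : ℝ) ≤ Real.sqrt p := by
    refine Real.le_sqrt_of_sq_le ?_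
    exact_mod_cast hkp
  have hp0 : 0 < Real.sqrt p := Real.sqrt_pos.2 (by exact_mod_cast hp)
  have hk0 : (0 : ℝ) ≤ k := Nat.cast_nonneg k
  unfold uu
  split_ifs
  · rw [div_le_one hp0]
    nlinarith
  · rw [div_le_one hp0]
    nlinarith
  · exact le_refl _

lemma uu_zero (k : ℕ) (x y : J → ℝ) : uu k r σ x y p 0 = 1 := by
  unfold uu
  simp

lemma sw_uu (k : ℕ) (x y : J → ℝ) : sw (uu k r σ x y) = uu k r σ y x := by
  funext p s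
  unfold sw uu
  fin_cases s
  · simp [Equiv.swap_apply_of_ne_of_ne]
  · simp
  · simp

/-- the square weights -/
lemma uu_K (k q : ℕ) (x y : J → ℝ) (hp : 1 ≤ p) :
    (q : ℝ) ^ 2 * (uu k r σ x y p 1 + uu k r σ x y p 2) ^ 2 -
      2 * q * (uu k r σ x y p 1 * uu k r σ x y p 2) =
    (k : ℝ) ^ 2 * ((1 / (p : ℝ)) * ((q : ℝ) ^ 2 * (vl x (Eb r σ p) + vl y (Eb r σ p)) ^ 2 -
      2 * q * (vl x (Eb r σ p) * vl y (Eb r σ p)))) := by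
  have hp0 : (0 : ℝ) < p := by exact_mod_cast hp
  have h2 : Real.sqrt p ^ 2 = p := Real.sq_sqrt hp0.le
  have h3 : Real.sqrt p ≠ 0 := (Real.sqrt_pos.2 hp0).ne'
  have e1 : uu k r σ x y p 1 = k * vl x (Eb r σ p) / Real.sqrt p := by unfold uu; simp
  have e2 : uu k r σ x y p 2 = k * vl y (Eb r σ p) / Real.sqrt p := by unfold uu; simp
  rw [e1, e2]
  generalize vl x (Eb r σ p) = X
  generalize vl y (Eb r σ p) = Y
  have h4 : (1 : ℝ) / p = 1 / Real.sqrt p ^ 2 := by rw [h2]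
  rw [h4]
  field_simp

end basics

section fam

variable (D : Dat n J) (k j : ℕ) (σ : ℝ)

/-- the family -/
def Dat.u (c : Option (Fin n)) : ℕ → Fin 3 → ℝ := uu k D.r σ (D.lf c) (D.rt c)

/-- the form of the correlation -/
def Dat.I (E : J → ℝ) : ℝ :=
  (vl D.z E + ∑ c, vl (D.lf c) E) * (∑ c, vl (D.rt c) E) - ∑ c, vl (D.lf c) E * vl (D.rt c) E

variable {D k j σ}

lemma u_one (c : Option (Fin n)) (p : ℕ) :
    D.u k σ c p 1 = k * vl (D.lf c) (Eb D.r σ p) / Real.sqrt p := by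
  unfold Dat.u uu; simp

lemma u_two (c : Option (Fin n)) (p : ℕ) :
    D.u k σ c p 2 = k * vl (D.rt c) (Eb D.r σ p) / Real.sqrt p := by
  unfold Dat.u uu; simp

lemma j_eq (h : D.OK k j) {p : ℕ} : (j : ℝ) / Real.sqrt p = k * vl D.z (Eb D.r σ p) / Real.sqrt p := by
  rw [h.hz _ fun a ha => Eb_zero ha]
  have hk : (k : ℝ) ≠ 0 := by have := h.hk; positivity
  congr 1
  field_simp

lemma WW_eq (h : D.OK k j) {p : ℕ} (hp : 1 ≤ p) :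
    WW j (D.u k σ) p = (k : ℝ) ^ 2 * (1 / (p : ℝ) * D.I (Eb D.r σ p)) := by
  have hp0 : (0 : ℝ) < p := by exact_mod_cast hp
  have h2 : Real.sqrt p ^ 2 = p := Real.sq_sqrt hp0.le
  have h3 : Real.sqrt p ≠ 0 := (Real.sqrt_pos.2 hp0).ne'
  unfold WW Dat.I
  rw [j_eq (σ := σ) h]
  simp only [u_one, u_two]
  rw [← sum_div, ← sum_div, ← mul_sum, ← mul_sum]
  have e1 : ∑ c, k * vl (D.lf c) (Eb D.r σ p) / Real.sqrt p * (k * vl (D.rt c) (Eb D.r σ p) / Real.sqrt p) =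
      (k : ℝ) ^ 2 / Real.sqrt p ^ 2 * ∑ c, vl (D.lf c) (Eb D.r σ p) * vl (D.rt c) (Eb D.r σ p) := by
    rw [mul_sum]
    refine sum_congr rfl fun c _ => ?_
    field_simp
  rw [e1]
  have h4 : (1 : ℝ) / p = 1 / Real.sqrt p ^ 2 := by rw [h2]
  rw [h4]
  field_simp

lemma W1_eq {c : Option (Fin n)} {p : ℕ} (hp : 1 ≤ p) :
    W1 (D.u k σ) c p = (k : ℝ) ^ 2 * (1 / (p : ℝ) * ∑ a, ∑ b, D.F1 c a b * (Eb D.r σ p a * Eb D.r σ p b)) := by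
  have hp0 : (0 : ℝ) < p := by exact_mod_cast hp
  have h2 : Real.sqrt p ^ 2 = p := Real.sq_sqrt hp0.le
  have h3 : Real.sqrt p ≠ 0 := (Real.sqrt_pos.2 hp0).ne'
  unfold W1 Dat.F1
  rw [← vl_mul (D.lf c) (fun b => ∑ c', D.rt c' b - D.rt c b)]
  have e1 : vl (fun b => ∑ c', D.rt c' b - D.rt c b) (Eb D.r σ p) =
      ∑ c', vl (D.rt c') (Eb D.r σ p) - vl (D.rt c) (Eb D.r σ p) := by
    unfold vl
    rw [sum_comm, ← sum_sub_distrib]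
    refine sum_congr rfl fun a _ => ?_
    rw [sub_mul, sum_mul]
  rw [e1]
  simp only [u_one, u_two]
  rw [← sum_div, ← mul_sum]
  have h4 : (1 : ℝ) / p = 1 / Real.sqrt p ^ 2 := by rw [h2]
  rw [h4]
  field_simp

lemma W2_eq (h : D.OK k j) {c : Option (Fin n)} {p : ℕ} (hp : 1 ≤ p) :
    W2 j (D.u k σ) c p = (k : ℝ) ^ 2 * (1 / (p : ℝ) * ∑ a, ∑ b, D.F2 c a b * (Eb D.r σ p a * Eb D.r σ p b)) := by
  have hp0 : (0 : ℝ) < p := by exact_mod_cast hp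
  have h2 : Real.sqrt p ^ 2 = p := Real.sq_sqrt hp0.le
  have h3 : Real.sqrt p ≠ 0 := (Real.sqrt_pos.2 hp0).ne'
  unfold W2 Dat.F2
  rw [← vl_mul (fun a => D.z a + ∑ c', D.lf c' a - D.lf c a) (D.rt c)]
  have e1 : vl (fun a => D.z a + ∑ c', D.lf c' a - D.lf c a) (Eb D.r σ p) =
      vl D.z (Eb D.r σ p) + ∑ c', vl (D.lf c') (Eb D.r σ p) - vl (D.lf c) (Eb D.r σ p) := by
    unfold vl
    rw [sum_comm, ← sum_add_distrib, ← sum_sub_distrib]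
    refine sum_congr rfl fun a _ => ?_
    rw [sub_mul, add_mul, sum_mul]
  rw [e1, j_eq (σ := σ) h]
  simp only [u_one, u_two]
  rw [← sum_div, ← mul_sum]
  have h4 : (1 : ℝ) / p = 1 / Real.sqrt p ^ 2 := by rw [h2]
  rw [h4]
  field_simp

lemma Eb_mul {r : J → ℝ} {p : ℕ} (hp : 1 ≤ p) (a b : J) :
    1 / (p : ℝ) * (Eb r σ p a * Eb r σ p b) = (p : ℝ) ^ (-1 - (r a + r b) * σ) := by
  have hp0 : (0 : ℝ) < p := by exact_mod_cast hp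
  unfold Eb
  rw [← Real.rpow_add hp0, one_div, ← Real.rpow_neg_one, ← Real.rpow_add hp0]
  congr 1
  ring

/-- sums of forms over primes -/
lemma form_sum {N X : ℕ} (F : J → J → ℝ) :
    ∑ p ∈ PP N X, 1 / (p : ℝ) * ∑ a, ∑ b, F a b * (Eb D.r σ p a * Eb D.r σ p b) =
      ∑ a, ∑ b, F a b * ∑ p ∈ PP N X, (p : ℝ) ^ (-1 - (D.r a + D.r b) * σ) := by
  have h1 : ∀ p ∈ PP N X, 1 / (p : ℝ) * ∑ a, ∑ b, F a b * (Eb D.r σ p a * Eb D.r σ p b) =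
      ∑ a, ∑ b, F a b * (p : ℝ) ^ (-1 - (D.r a + D.r b) * σ) := by
    intro p hp
    have hp1 : 1 ≤ p := (PP_prime p hp).one_lt.le
    rw [mul_sum]
    refine sum_congr rfl fun a _ => ?_
    rw [mul_sum]
    refine sum_congr rfl fun b _ => ?_
    rw [← Eb_mul hp1]
    ring
  rw [sum_congr rfl h1, sum_comm]
  refine sum_congr rfl fun a _ => ?_
  rw [sum_comm]
  refine sum_congr rfl fun b _ => ?_
  rw [mul_sum]

lemma I_bd (h : D.OK k j) {E : J → ℝ} (hE0 : ∀ a, 0 ≤ E a) (hE1 : ∀ a, E a ≤ 1) :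
    0 ≤ D.I E ∧ D.I E ≤ 1 := by
  have hl : ∀ c, 0 ≤ vl (D.lf c) E := fun c => vl_nonneg (h.hl c) hE0
  have hr : ∀ c, 0 ≤ vl (D.rt c) E := fun c => vl_nonneg (h.hrt c) hE0
  have hz : 0 ≤ vl D.z E := vl_nonneg h.hz0 hE0
  have hL : vl D.z E + ∑ c, vl (D.lf c) E ≤ 1 := by
    refine le_trans (add_le_add (vl_le h.hz0 hE1) (sum_le_sum fun c _ => vl_le (h.hl c) hE1)) h.hL1
  have hR : ∑ c, vl (D.rt c) E ≤ 1 := (sum_le_sum fun c _ => vl_le (h.hrt c) hE1).trans h.hR1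
  have hR0 : 0 ≤ ∑ c, vl (D.rt c) E := sum_nonneg fun c _ => hr c
  have hLR0 : 0 ≤ ∑ c, vl (D.lf c) E * vl (D.rt c) E := sum_nonneg fun c _ => mul_nonneg (hl c) (hr c)
  unfold Dat.I
  constructor
  · have h1 : ∑ c, vl (D.lf c) E * vl (D.rt c) E ≤ (∑ c, vl (D.lf c) E) * ∑ c, vl (D.rt c) E := by
      rw [sum_mul]
      exact sum_le_sum fun c _ => mul_le_mul_of_nonneg_left
        (single_le_sum (f := fun c => vl (D.rt c) E) (fun c _ => hr c) (mem_univ c)) (hl c)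
    nlinarith [mul_nonneg hz hR0]
  · nlinarith [sum_nonneg (fun c (_ : c ∈ univ) => hl c)]

end fam

end

end Pool.Agent.H84.Mom
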