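import Pool.Agent.H84.Mom.Num

set_option autoImplicit false

/-! The numerical design. -/

namespace Pool.Agent.H84.Mom

open Finset

/-- the design -/
def des : QB 3 14 where
  q := ![2, 3, 8]
  t := 24
  Dn := 100000
  Un := 48
  R := ![0, 1429, 118180, 9534, 3594, 41897, 9798, 65024, 125101, 13951, 18561, 76013, 124233, 17721]
  z0 := 0
  ρ := 1
  ex := 12
  H := ![![0, 0, 11, 3, 0, 0, 0, 0, 0, 0, 0, 0, 0, 0],
    ![0, 0, 0, 0, 0, 0, 2, 5, 0, 0, 0, 0, 0, 0],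
    ![0, 0, 0, 0, 0, 0, 0, 0, 0, 0, 1, 2, 0, 0]]
  L := ![![0, 0, 0, 0, 2, 8, 0, 0, 0, 0, 0, 0, 0, 0],
    ![0, 0, 0, 0, 0, 0, 0, 0, 6, 3, 0, 0, 0, 0],
    ![0, 0, 0, 0, 0, 0, 0, 0, 0, 0, 0, 0, 2, 1]]
  cA := ![21500 / 100000, 16265 / 100000, 6664 / 100000]
  cB := ![28500 / 100000, 17068 / 100000, 5836 / 100000]
  cL := 28 / 100
  cH := 4859 / 10000
  ϑ := 1 / 1000000
  s := 1 / 10

set_option maxRecDepth 100000 in
theorem des_OK : des.OK := by decide +kernel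

set_option maxRecDepth 100000 in
theorem des_R : ∀ a a', des.R a + des.R a' = 0 → des.N a a' = 0 := by decide +kernel

set_option maxRecDepth 100000 in
theorem des_lt : des.Pp * (43 * 27182818286) ^ 96 < des.Pm * (des.Dn * 20 * 10000000000) ^ 96 := by
  decide +kernel

end Pool.Agent.H84.Mom
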