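import Pool.Agent.H84.Mom.Tw

set_option autoImplicit false
set_option linter.unusedSectionVars false

/-! Euler products: upper bound for the balanced sums, lower bound for the correlation. -/

namespace Pool.Agent.H84.Mom

open Finset
open Pool.Agent.H306R2 (dv lc)
open H295MK (mt)

noncomputable section

variable {P : Finset ℕ}

lemma num_ne (hP : ∀ p ∈ P, Nat.Prime p) (s : Fin 3) (φ : P → Fin 3) : num s φ ≠ 0 :=
  Nat.one_le_iff_ne_zero.1 (num_pos hP s φ)

lemma fac_num (hP : ∀ p ∈ P, Nat.Prime p) (s : Fin 3) (φ : P → Fin 3) (p : P) :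
    (num s φ).factorization p = if φ p = s then 1 else 0 := by
  unfold num
  rw [Nat.factorization_prod (fun r _ => by
    split_ifs
    · exact (hP r r.2).ne_zero
    · exact one_ne_zero), Finsupp.finsetSum_apply]
  rw [Finset.sum_eq_single p]
  · split_ifs with h
    · rw [(hP p p.2).factorization_self]
    · simp
  · intro r _ hr
    split_ifs
    · rw [(hP r r.2).factorization, Finsupp.single_apply, if_neg]
      exact fun h => hr (Subtype.ext h)
    · simp
  · intro h
    exact absurd (mem_univ p) h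

section upper

variable {κ : Type*} [Fintype κ] [DecidableEq κ]

lemma fac_prod (hP : ∀ p ∈ P, Nat.Prime p) (s : Fin 3) (Φ : κ → P → Fin 3) (p : P) :
    (∏ c, num s (Φ c)).factorization p = ∑ c, if Φ c p = s then 1 else 0 := by
  rw [Nat.factorization_prod (fun c _ => num_ne hP s _), Finsupp.finsetSum_apply]
  exact sum_congr rfl fun c _ => fac_num hP s _ p

lemma imb_eq (s : κ → Fin 3) :
    imb s = (∑ c, (if s c = 1 then 1 else 0 : ℕ) : ℕ) - (∑ c, (if s c = 2 then 1 else 0 : ℕ) : ℕ) := by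
  unfold imb
  push_cast
  rw [← sum_sub_distrib]
  refine sum_congr rfl fun c _ => ?_
  generalize s c = x
  fin_cases x <;> simp [sg3]

theorem eul_upper (u : κ → ℕ → Fin 3 → ℝ) (XA XB : κ → ℝ) (hP : ∀ p ∈ P, Nat.Prime p)
    (hu : ∀ c, ∀ p ∈ P, ∀ s, 0 ≤ u c p s) (hu0 : ∀ c, ∀ p ∈ P, u c p 0 = 1) :
    ∑ Φ : κ → P → Fin 3, (∏ c, cf (u c) (XA c) (XB c) (Φ c)) *
        mt 0 (∏ c, num 1 (Φ c)) (∏ c, num 2 (Φ c)) ≤
      ∏ p : P, Real.exp ((∑ c, u c p 1) * (∑ c, u c p 2) - ∑ c, u c p 1 * u c p 2) := by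
  set g : P → (κ → Fin 3) → ℝ := fun p s =>
    if imb s = 0 then ∏ c, wt3 (u c p 1) (u c p 2) (s c) else 0 with hg
  have hw : ∀ c, ∀ p : P, ∀ s : Fin 3, wt3 (u c p 1) (u c p 2) s = u c p s := by
    intro c p s
    unfold wt3
    fin_cases s
    · simp [hu0 c p p.2]
    · simp
    · simp
  have hg0 : ∀ p s, 0 ≤ g p s := by
    intro p s
    rw [hg]
    dsimp only
    split_ifs
    · exact prod_nonneg fun c _ => by rw [hw]; exact hu c p p.2 _
    · exact le_refl _
  have h1 : ∀ Φ : κ → P → Fin 3, (∏ c, cf (u c) (XA c) (XB c) (Φ c)) *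
        mt 0 (∏ c, num 1 (Φ c)) (∏ c, num 2 (Φ c)) ≤ ∏ p, g p (fun c => Φ c p) := by
    intro Φ
    rw [H295MK.mt_zero _ _ (Finset.one_le_prod' fun c _ => num_pos hP _ _)
      (Finset.one_le_prod' fun c _ => num_pos hP _ _)]
    split_ifs with h
    · rw [mul_one]
      have h2 : ∀ c, cf (u c) (XA c) (XB c) (Φ c) ≤ ∏ p : P, u c p (Φ c p) := by
        intro c
        unfold cf
        split_ifs
        · exact le_refl _
        · exact prod_nonneg fun p _ => hu c p p.2 _
      refine (prod_le_prod (fun c _ => cf_nonneg (hu c) _ _ _) fun c _ => h2 c).trans ?_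
      rw [prod_comm]
      refine le_of_eq (prod_congr rfl fun p _ => ?_)
      have h3 : imb (fun c => Φ c p) = 0 := by
        rw [imb_eq]
        have e1 := fac_prod hP 1 Φ p
        have e2 := fac_prod hP 2 Φ p
        rw [h] at e1
        rw [← e1, ← e2]
        ring
      rw [hg]
      dsimp only
      rw [if_pos h3]
      exact prod_congr rfl fun c _ => (hw c p _).symm
    · rw [mul_zero]
      exact prod_nonneg fun p _ => hg0 p _
  refine (sum_le_sum fun Φ _ => h1 Φ).trans ?_
  rw [sum_swap]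
  refine prod_le_prod (fun p _ => sum_nonneg fun s _ => hg0 p s) fun p _ => ?_
  exact bal_bound (fun c => u c p 1) (fun c => u c p 2) (fun c => hu c p p.2 _) (fun c => hu c p p.2 _)

end upper

section lower

variable (κ : Type*) [Fintype κ] [DecidableEq κ]

/-- the blocks: (left, right) -/
abbrev Blk : Type _ := {b : Option κ × κ // b.1 ≠ some b.2}

variable {κ}

/-- the state of `c` in a block -/
def st (b : Option (Blk κ)) (c : κ) : Fin 3 :=
  match b with
  | none => 0
  | some b => if b.1.1 = some c then 1 else if b.1.2 = c then 2 else 0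

lemma st_two (b : Blk κ) (c : κ) : st (some b) c = 2 ↔ b.1.2 = c := by
  unfold st
  dsimp only
  constructor
  · intro h
    split_ifs at h with h1 h2
    · exact absurd h (by decide)
    · exact h2
    · exact absurd h (by decide)
  · intro h
    rw [if_neg, if_pos h]
    rw [← h]
    exact b.2

lemma st_one (b : Blk κ) (c : κ) : st (some b) c = 1 ↔ b.1.1 = some c := by
  unfold st
  dsimp only
  constructor
  · intro h
    split_ifs at h with h1 h2
    · exact h1
    · exact absurd h (by decide)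
    · exact absurd h (by decide)
  · intro h
    rw [if_pos h]

lemma st_inj : Function.Injective (st : Option (Blk κ) → κ → Fin 3) := by
  intro b b' h
  rcases b with _ | b <;> rcases b' with _ | b'
  · rfl
  · have h1 := congrFun h b'.1.2
    rw [(st_two b' _).2 rfl] at h1
    exact absurd h1 (by unfold st; simp)
  · have h1 := congrFun h b.1.2
    rw [(st_two b _).2 rfl] at h1
    exact absurd h1 (by unfold st; simp)
  · congr 1
    have h2 : b.1.2 = b'.1.2 := by
      have h1 := congrFun h b.1.2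
      rw [(st_two b _).2 rfl] at h1
      exact ((st_two b' _).1 h1.symm).symm
    have h3 : ∀ c, b.1.1 = some c ↔ b'.1.1 = some c := by
      intro c
      rw [← st_one b c, ← st_one b' c, h]
    have h4 : b.1.1 = b'.1.1 := by
      rcases hb : b.1.1 with _ | c
      · rcases hb' : b'.1.1 with _ | c'
        · rfl
        · have := (h3 c').2 hb'
          rw [hb] at this
          exact absurd this (by simp)
      · exact ((h3 c).1 hb).symm
    exact Subtype.ext (Prod.ext h4 h2)

/-- the weight of a block -/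
def om (j : ℕ) (u : κ → ℕ → Fin 3 → ℝ) (p : ℕ) (b : Option (Blk κ)) : ℝ :=
  match b with
  | none => 1
  | some b => (match b.1.1 with
    | none => (j : ℝ) / Real.sqrt p
    | some c => u c p 1) * u b.1.2 p 2

/-- the family belonging to `Ψ` -/
def fam (Ψ : P → Option (Blk κ)) : κ → P → Fin 3 := fun c p => st (Ψ p) c

lemma fam_inj : Function.Injective (fam : (P → Option (Blk κ)) → κ → P → Fin 3) := by
  intro Ψ Ψ' h
  funext p
  refine st_inj ?_
  funext c
  exact congrFun (congrFun h c) p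

lemma om_nonneg (j : ℕ) {u : κ → ℕ → Fin 3 → ℝ} {p : ℕ} (hu : ∀ c, ∀ s, 0 ≤ u c p s)
    (b : Option (Blk κ)) : 0 ≤ om j u p b := by
  unfold om
  rcases b with _ | ⟨⟨_ | c, r⟩, hb⟩
  · exact zero_le_one
  · exact mul_nonneg (by positivity) (hu _ _)
  · exact mul_nonneg (hu _ _) (hu _ _)

/-- numbers of `ζ` -/
def ez (b : Option (Blk κ)) : Bool :=
  match b with
  | none => false
  | some b => b.1.1.isNone

lemma prod_num_one (Ψ : P → Option (Blk κ)) :
    ∏ c, num 1 (fam Ψ c) = ∏ p : P, if (Ψ p).isSome ∧ ez (Ψ p) = false then (p : ℕ) else 1 := by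
  unfold num fam
  rw [prod_comm]
  refine prod_congr rfl fun p _ => ?_
  rcases h : Ψ p with _ | ⟨⟨_ | c, r⟩, hb⟩
  · simp [st]
  · simp [ez, st_one]
  · have : ∀ c', (st (some (⟨(some c, r), hb⟩ : Blk κ)) c' = 1) ↔ c = c' := by
      intro c'
      rw [st_one]
      simp
    simp only [this]
    simp [ez]

lemma prod_num_two (Ψ : P → Option (Blk κ)) :
    ∏ c, num 2 (fam Ψ c) = ∏ p : P, if (Ψ p).isSome then (p : ℕ) else 1 := by
  unfold num fam
  rw [prod_comm]
  refine prod_congr rfl fun p _ => ?_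
  rcases h : Ψ p with _ | b
  · simp [st]
  · simp only [st_two]
    simp

lemma dv_sqfree (hP : ∀ p ∈ P, Nat.Prime p) (j : ℕ) (S : P → Prop) [DecidablePred S] :
    dv j (∏ p : P, if S p then (p : ℕ) else 1) = ∏ p : P, if S p then (j : ℝ) else 1 := by
  have h := ArithmeticFunction.IsMultiplicative.map_prod (fun p : P => if S p then (p : ℕ) else 1)
    (Pool.Agent.H306R2.dA_mult (j : ℝ)) univ (by
      intro p _ r _ hpr
      simp only [Function.onFun]
      split_ifs
      · exact (Nat.coprime_primes (hP p p.2) (hP r r.2)).2 fun h => hpr (Subtype.ext h)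
      · simp
      · simp
      · simp)
  rw [Pool.Agent.H306R2.dA_apply] at h
  rw [h]
  refine prod_congr rfl fun p _ => ?_
  rw [Pool.Agent.H306R2.dA_apply]
  split_ifs
  · have := Pool.Agent.H306R2.dv_prime_pow (j : ℝ) (hP p p.2) 1
    rw [pow_one, Pool.Agent.H306R2.lc_one] at this
    exact this
  · exact Pool.Agent.H306R2.dv_one _

lemma mt_fam (hP : ∀ p ∈ P, Nat.Prime p) (j : ℕ) (Ψ : P → Option (Blk κ)) :
    mt j (∏ c, num 1 (fam Ψ c)) (∏ c, num 2 (fam Ψ c)) =
      ∏ p : P, if ez (Ψ p) = true then (j : ℝ) / Real.sqrt p else 1 := by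
  rw [prod_num_one, prod_num_two]
  set a := ∏ p : P, if (Ψ p).isSome ∧ ez (Ψ p) = false then (p : ℕ) else 1 with ha
  set m := ∏ p : P, if ez (Ψ p) = true then (p : ℕ) else 1 with hm
  have hb : ∏ p : P, (if (Ψ p).isSome then (p : ℕ) else 1) = a * m := by
    rw [ha, hm, ← prod_mul_distrib]
    refine prod_congr rfl fun p _ => ?_
    rcases h : Ψ p with _ | ⟨⟨_ | c, r⟩, hb⟩
    · simp [ez]
    · simp [ez]
    · simp [ez]
  have ha0 : a ≠ 0 := by
    rw [ha]
    refine prod_ne_zero_iff.2 fun p _ => ?_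
    split_ifs
    · exact (hP p p.2).ne_zero
    · exact one_ne_zero
  have hm0 : m ≠ 0 := by
    rw [hm]
    refine prod_ne_zero_iff.2 fun p _ => ?_
    split_ifs
    · exact (hP p p.2).ne_zero
    · exact one_ne_zero
  rw [hb]
  unfold H295MK.mt
  rw [if_pos (Dvd.intro _ rfl), Nat.mul_div_cancel_left _ (Nat.pos_of_ne_zero ha0)]
  have h1 : (a : ℝ) / ((a * m : ℕ) : ℝ) = 1 / (m : ℝ) := by
    push_cast
    have : (a : ℝ) ≠ 0 := by exact_mod_cast ha0
    have : (m : ℝ) ≠ 0 := by exact_mod_cast hm0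
    field_simp
  rw [h1, hm, dv_sqfree hP]
  have h2 : Real.sqrt (1 / ((∏ p : P, if ez (Ψ p) = true then (p : ℕ) else 1 : ℕ) : ℝ)) =
      ∏ p : P, if ez (Ψ p) = true then 1 / Real.sqrt p else 1 := by
    push_cast
    rw [one_div, ← prod_inv_distrib, Real.sqrt_prod _ (fun p _ => by split_ifs <;> positivity)]
    refine prod_congr rfl fun p _ => ?_
    split_ifs
    · rw [Real.sqrt_inv, one_div]
    · simp
  rw [h2, ← prod_mul_distrib]
  refine prod_congr rfl fun p _ => ?_
  split_ifs
  · rw [mul_one_div]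
  · rw [mul_one]

lemma term_fam (hP : ∀ p ∈ P, Nat.Prime p) (j : ℕ) (u : κ → ℕ → Fin 3 → ℝ)
    (hu0 : ∀ c, ∀ p ∈ P, u c p 0 = 1) (Ψ : P → Option (Blk κ)) :
    (∏ c, ∏ p : P, u c p (fam Ψ c p)) * mt j (∏ c, num 1 (fam Ψ c)) (∏ c, num 2 (fam Ψ c)) =
      ∏ p : P, om j u p (Ψ p) := by
  rw [mt_fam hP, prod_comm, ← prod_mul_distrib]
  refine prod_congr rfl fun p _ => ?_
  unfold fam
  rcases h : Ψ p with _ | b
  · simp only [st, om, ez, Bool.false_eq_true, if_false, mul_one]
    exact prod_eq_one fun c _ => hu0 c p p.2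
  · have h1 : ∏ c, u c p (st (some b) c) = (match b.1.1 with
        | none => 1
        | some c => u c p 1) * u b.1.2 p 2 := by
      have h2 : ∀ c, u c p (st (some b) c) = (if b.1.1 = some c then u c p 1 else 1) *
          (if b.1.2 = c then u c p 2 else 1) := by
        intro c
        by_cases h3 : b.1.1 = some c
        · have h4 : b.1.2 ≠ c := by
            intro h5
            exact b.2 (by rw [h3, h5])
          rw [(st_one b c).2 h3, if_pos h3, if_neg h4, mul_one]
        · by_cases h4 : b.1.2 = c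
          · rw [(st_two b c).2 h4, if_neg h3, if_pos h4, one_mul]
          · rw [if_neg h3, if_neg h4, mul_one]
            have : st (some b) c = 0 := by
              unfold st
              dsimp only
              rw [if_neg h3, if_neg h4]
            rw [this, hu0 c p p.2]
      rw [prod_congr rfl fun c _ => h2 c, prod_mul_distrib]
      congr 1
      · rcases hb : b.1.1 with _ | c
        · simp
        · simp
      · rw [prod_ite_eq]
        simp
    rw [h1]
    rcases b with ⟨⟨_ | c, r⟩, hb⟩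
    · simp only [om, ez, Option.isNone_none, if_true, one_mul]
      ring
    · simp only [om, ez, Option.isNone_some, Bool.false_eq_true, if_false, mul_one]

/-- the caps hold -/
def capOK (XA XB : κ → ℝ) (Ψ : P → Option (Blk κ)) : Prop :=
  ∀ c, (num 1 (fam Ψ c) : ℝ) ≤ XA c ∧ (num 2 (fam Ψ c) : ℝ) ≤ XB c

open Classical in
theorem eul_lower0 (u : κ → ℕ → Fin 3 → ℝ) (XA XB : κ → ℝ) (hP : ∀ p ∈ P, Nat.Prime p)
    (hu : ∀ c, ∀ p ∈ P, ∀ s, 0 ≤ u c p s) (hu0 : ∀ c, ∀ p ∈ P, u c p 0 = 1) (j : ℕ) :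
    ∑ Ψ : P → Option (Blk κ), (if capOK XA XB Ψ then ∏ p : P, om j u p (Ψ p) else 0) ≤
    ∑ Φ : κ → P → Fin 3, (∏ c, cf (u c) (XA c) (XB c) (Φ c)) *
        mt j (∏ c, num 1 (Φ c)) (∏ c, num 2 (Φ c)) := by
  have h1 : ∀ Ψ : P → Option (Blk κ), (if capOK XA XB Ψ then ∏ p : P, om j u p (Ψ p) else 0) =
      (∏ c, cf (u c) (XA c) (XB c) (fam Ψ c)) *
        mt j (∏ c, num 1 (fam Ψ c)) (∏ c, num 2 (fam Ψ c)) := by
    intro Ψ
    split_ifs with h
    · rw [← term_fam hP j u hu0 Ψ]
      congr 1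
      refine prod_congr rfl fun c _ => ?_
      unfold cf
      rw [if_pos (h c)]
    · unfold capOK at h
      push Not at h
      obtain ⟨c, hc⟩ := h
      have h2 : cf (u c) (XA c) (XB c) (fam Ψ c) = 0 := by
        unfold cf
        rw [if_neg]
        intro h3
        exact absurd h3.2 (not_le.2 (hc h3.1))
      rw [prod_eq_zero (mem_univ c) h2, zero_mul]
  rw [sum_congr rfl fun Ψ _ => h1 Ψ]
  rw [← sum_image (s := univ) (g := fam) (f := fun Φ : κ → P → Fin 3 =>
    (∏ c, cf (u c) (XA c) (XB c) (Φ c)) * mt j (∏ c, num 1 (Φ c)) (∏ c, num 2 (Φ c)))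
    (fun a _ b _ h => fam_inj h)]
  refine sum_le_sum_of_subset_of_nonneg (subset_univ _) fun Φ _ _ => ?_
  refine mul_nonneg (prod_nonneg fun c _ => cf_nonneg (hu c) _ _ _) ?_
  unfold H295MK.mt
  split_ifs
  · exact mul_nonneg (Pool.Agent.H306R2.dv_nonneg (Nat.cast_nonneg j) _) (Real.sqrt_nonneg _)
  · exact le_refl _

end lower

end

end Pool.Agent.H84.Mom
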