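import Pool.Agent.H84.Mom.Bas3

set_option autoImplicit false
set_option linter.unusedSectionVars false

/-! The growth theorem for a base design. -/

namespace Pool.Agent.H84.Mom

open Finset Filter Topology MeasureTheory
open Pool.Agent.H306R2 (aF aF_pos)

noncomputable section

variable {n : ℕ} {J : Type} [Fintype J] [DecidableEq J] {b : Base n J}

/-- the logarithmic form -/
def Base.LQ (b : Base n J) (x : ℝ) : ℝ := ∑ a, ∑ a', b.Q x a a' * Real.log (b.r a + b.r a')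

lemma cont_LQ : Continuous fun x => b.LQ x := by
  unfold Base.LQ
  refine continuous_finsetSum _ fun a _ => continuous_finsetSum _ fun a' _ => Continuous.mul ?_ continuous_const
  unfold Base.Q
  refine (((cont_w a).mul (cont_w a')).sub ((cont_zz a).mul (cont_zz a'))).sub continuous_const |>.sub ?_
  fun_prop

lemma fact_low {k : ℕ} (hk : 1 ≤ k) :
    (k : ℝ) ^ 2 * (2 * Real.log k - 1) ≤ Real.log ((k ^ 2).factorial : ℝ) := by
  have hk0 : (0 : ℝ) < k := by exact_mod_cast hk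
  have h1 := Real.pow_div_factorial_le_exp ((k : ℝ) ^ 2) (by positivity) (k ^ 2)
  have hf : (0 : ℝ) < ((k ^ 2).factorial : ℝ) := by exact_mod_cast Nat.factorial_pos _
  have h2 := Real.log_le_log (by positivity) h1
  rw [Real.log_exp, Real.log_div (by positivity) hf.ne', Real.log_pow, Real.log_pow] at h2
  push_cast at h2
  nlinarith

theorem base_main (hb : b.OK) (A : ℝ) (hA : 0 < A) (hnum : Real.log A + 1 + b.t * b.LQ 0 < 0) :
    ∀ᶠ k : ℕ in atTop, ∀ᶠ T : ℝ in atTop,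
      (A ^ (k ^ 2) * aF k / ((k ^ 2).factorial : ℝ)) * (T * Real.log T ^ (k ^ 2)) ≤
      ∫ t in (0:ℝ)..T, ‖riemannZeta (1 / 2 + t * Complex.I)‖ ^ (2 * k) := by
  have ht := hb.t0
  set δ := -(Real.log A + 1 + b.t * b.LQ 0) with hδ
  have hδ0 : 0 < δ := by rw [hδ]; linarith
  -- continuity in `x`
  have hg : ContinuousAt (fun x : ℝ => Real.log A + 1 + b.LQ x / (1 / b.t - x)) 0 := by
    refine continuousAt_const.add (ContinuousAt.div cont_LQ.continuousAt (by fun_prop) ?_)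
    rw [sub_zero]
    positivity
  have hg0 : Real.log A + 1 + b.LQ 0 / (1 / b.t - 0) < -(δ / 2) := by
    have : b.LQ 0 / (1 / (b.t : ℝ) - 0) = b.t * b.LQ 0 := by
      rw [sub_zero]
      field_simp
    rw [this, hδ]
    linarith
  obtain ⟨r, hr, hball⟩ := Metric.eventually_nhds_iff.1 (hg.eventually (gt_mem_nhds hg0))
  set ε := δ / (4 * (10 + 2 * b.t)) with hε
  have hε0 : 0 < ε := by positivity
  have hsq : Tendsto (fun k : ℕ => k ^ 2) atTop atTop := tendsto_pow_atTop (by norm_num)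
  have hinv : Tendsto (fun k : ℕ => 1 / (k : ℝ)) atTop (𝓝 0) := tendsto_one_div_atTop_nhds_zero_nat
  have E1 := hinv.eventually (gt_mem_nhds hr)
  have E2 := hinv.eventually (gt_mem_nhds (by positivity : 0 < 1 / (2 * (b.t : ℝ))))
  have E3 := hsq.eventually (SN_small ε hε0)
  have E4 := hsq.eventually (FN_small ε hε0)
  have E5 : ∀ᶠ k : ℕ in atTop, 4 * b.t * Real.log 8 < (k : ℝ) ^ 2 * (δ / 4) := by
    have h1 : Tendsto (fun k : ℕ => (k : ℝ) ^ 2 * (δ / 4)) atTop atTop :=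
      Tendsto.atTop_mul_const (by positivity) ((tendsto_pow_atTop (by norm_num)).comp tendsto_natCast_atTop_atTop)
    exact h1.eventually_gt_atTop _
  filter_upwards [dat_OK hb, E1, E2, E3, E4, E5, eventually_ge_atTop 1] with k hOK h1 h2 h3 h4 h5 hk
  have hk0 : (0 : ℝ) < k := by exact_mod_cast hk
  -- `j` and `e`
  set j := k / b.t with hj
  set e := k % b.t with he
  have hkj : k = b.t * j + e := (Nat.div_add_mod k b.t).symm
  have het : e < b.t := Nat.mod_lt _ (by have := hb.ht; omega)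
  have hD := hOK j e hkj het
  have hj1 := hD.hj
  have hj0 : (0 : ℝ) < j := by exact_mod_cast hj1
  have hjk := jk_eq hb hk hkj
  set x : ℝ := (e : ℝ) / (b.t * k) with hx
  have hx0 : 0 ≤ x := by positivity
  have het' : (e : ℝ) ≤ b.t := by exact_mod_cast het.le
  have hxk : x ≤ 1 / k := by
    rw [hx, div_le_div_iff₀ (by positivity) hk0]
    nlinarith
  have hgx := hball (y := x) (by
    rw [Real.dist_eq, sub_zero, abs_of_nonneg hx0]
    linarith)
  refine fixedK hD (N := k ^ 2) (le_refl _) _ ?_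
  -- the comparison of constants
  have haF := aF_pos hk0
  have hf : (0 : ℝ) < ((k ^ 2).factorial : ℝ) := by exact_mod_cast Nat.factorial_pos _
  have hpos : 0 < A ^ (k ^ 2) * aF k / ((k ^ 2).factorial : ℝ) := by positivity
  rw [← Real.log_lt_iff_lt_exp hpos, Real.log_div (by positivity) hf.ne',
    Real.log_mul (by positivity) haF.ne', Real.log_pow]
  have a1 := log_aF_le hk (k ^ 2)
  have a2 := fact_low hk
  -- bounds for the error terms
  have hSN : (k : ℝ) ^ 2 * SN (k ^ 2) ≤ ε := by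
    have := h3
    push_cast at this
    exact this
  have hSN0 : 0 ≤ SN (k ^ 2) := tsum_nonneg fun p => by
    split_ifs
    · positivity
    · exact le_refl _
  have hF : 8 * (k : ℝ) * ∑ p ∈ PP 0 (k ^ 2), 1 / Real.sqrt p ≤ 8 * ε * (k : ℝ) ^ 2 := by
    have h6 : Real.sqrt ((k ^ 2 : ℕ) : ℝ) = k := by
      push_cast
      exact Real.sqrt_sq hk0.le
    rw [h6] at h4
    have := mul_le_mul_of_nonneg_left h4 (by positivity : (0 : ℝ) ≤ 8 * k)
    nlinarith
  have hkj2 : (k : ℝ) / j ≤ 2 * b.t := by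
    have h6 : 1 / (2 * (b.t : ℝ)) ≤ (j : ℝ) / k := by
      rw [hjk]
      have : 1 / (b.t : ℝ) = 2 * (1 / (2 * (b.t : ℝ))) := by field_simp
      linarith
    have h7 : (k : ℝ) / j = ((j : ℝ) / k)⁻¹ := by rw [inv_div]
    rw [h7, inv_le_comm₀ (by positivity) (by positivity)]
    rw [← one_div]
    exact h6
  have hk1 : (1 : ℝ) ≤ (k : ℝ) ^ 2 := by
    have : (1 : ℝ) ≤ k := by exact_mod_cast hk
    nlinarith
  have hb1 : (k : ℝ) / j * ((k : ℝ) ^ 4 * SN (k ^ 2)) ≤ 2 * b.t * ((k : ℝ) ^ 2 * ε) := by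
    have h6 : (k : ℝ) ^ 4 * SN (k ^ 2) ≤ (k : ℝ) ^ 2 * ε := by
      have h9 := mul_le_mul_of_nonneg_left hSN (by positivity : (0 : ℝ) ≤ (k : ℝ) ^ 2)
      have h10 : (k : ℝ) ^ 2 * ((k : ℝ) ^ 2 * SN (k ^ 2)) = (k : ℝ) ^ 4 * SN (k ^ 2) := by ring
      rw [h10] at h9
      exact h9
    have h11 : 0 ≤ (k : ℝ) ^ 4 * SN (k ^ 2) := mul_nonneg (by positivity) hSN0
    have h12 : 0 ≤ 2 * (b.t : ℝ) := by positivity
    exact mul_le_mul hkj2 h6 h11 h12
  have hl8 : 0 < Real.log 8 := Real.log_pos (by norm_num)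
  have hb2 : 2 * (k : ℝ) / j * Real.log 8 ≤ 4 * b.t * Real.log 8 := by
    refine mul_le_mul_of_nonneg_right ?_ hl8.le
    have : 2 * (k : ℝ) / j = 2 * ((k : ℝ) / j) := by ring
    rw [this]
    linarith
  -- the main term
  have hLQ : ∑ a, ∑ a', (b.dat k e).Q a a' * Real.log ((b.dat k e).r a + (b.dat k e).r a') = b.LQ x := rfl
  have hmain : (k : ℝ) ^ 2 * (Real.log A + 1) + (k : ℝ) ^ 3 / j * b.LQ x ≤ -((k : ℝ) ^ 2 * (δ / 2)) := by
    rw [← hjk] at hgx
    have h6 : b.LQ x / ((j : ℝ) / k) = (k : ℝ) / j * b.LQ x := by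
      field_simp
    rw [h6] at hgx
    have h7 := mul_le_mul_of_nonneg_left hgx.le (by positivity : (0 : ℝ) ≤ (k : ℝ) ^ 2)
    have h8 : (k : ℝ) ^ 2 * (Real.log A + 1 + (k : ℝ) / j * b.LQ x) =
        (k : ℝ) ^ 2 * (Real.log A + 1) + (k : ℝ) ^ 3 / j * b.LQ x := by ring
    rw [h8] at h7
    linarith
  have hεe : (10 + 2 * (b.t : ℝ)) * ε = δ / 4 := by
    rw [hε]
    field_simp
  unfold Bk
  rw [hLQ]
  push_cast
  have hεk : (10 + 2 * (b.t : ℝ)) * ε * (k : ℝ) ^ 2 = (k : ℝ) ^ 2 * (δ / 4) := by rw [hεe]; ring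
  have h2e' : ε ≤ ε * (k : ℝ) ^ 2 := le_mul_of_one_le_right hε0.le hk1
  have h2e : 2 * ((k : ℝ) ^ 2 * SN (k ^ 2)) ≤ 2 * (ε * (k : ℝ) ^ 2) := by linarith
  have a1' : Real.log (aF k) + (k : ℝ) ^ 2 * cN (k ^ 2) ≤
      2 * ((k : ℝ) ^ 2 * SN (k ^ 2)) + 8 * k * ∑ p ∈ PP 0 (k ^ 2), 1 / Real.sqrt p := by
    have e1 : 2 * ((k : ℝ) ^ 2 * SN (k ^ 2)) = 2 * (k : ℝ) ^ 2 * SN (k ^ 2) := by ring
    rw [e1]
    exact a1
  clear_value x ε δ j e
  linarith

end

end Pool.Agent.H84.Mom
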