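import Pool.Agent.H84.Mom.Asy
import Pool.Graph.R_seed8.TH535.Master

set_option autoImplicit false
set_option linter.unusedSectionVars false

/-! The lower bound for one exponent. -/

namespace Pool.Agent.H84.Mom

open Finset Filter Topology MeasureTheory
open Pool.Agent.H306R2 (Yt Ht gw gw_continuous gw_nonneg gw_symm gw_integrable gw_integral Yt_tendsto Yt_le
  zeta_line_continuous window_holder_real window_sum)
open H295MK (fr win winR mt cl)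

noncomputable section

variable {n : ℕ} {J : Type} [Fintype J]

/-- the constant -/
def Bk (D : Dat n J) (k j N : ℕ) : ℝ :=
  -((k : ℝ) ^ 2 * (2 * Real.log k + cN N)) -
    (k : ℝ) ^ 3 / j * ∑ a, ∑ b, D.Q a b * Real.log (D.r a + D.r b) -
    (k : ℝ) / j * ((k : ℝ) ^ 4 * SN N) - 2 * k / j * Real.log 8

section

variable {D : Dat n J} {k j : ℕ}

lemma lf_sum (h : D.OK k j) (c : Option (Fin n)) : ∑ a, D.lf c a ≤ 1 := by
  have h1 := h.hL1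
  have h2 : ∑ a, D.lf c a ≤ ∑ c, ∑ a, D.lf c a :=
    single_le_sum (f := fun c => ∑ a, D.lf c a) (fun c _ => sum_nonneg fun a _ => h.hl c a) (mem_univ c)
  have h3 : 0 ≤ ∑ a, D.z a := sum_nonneg fun a _ => h.hz0 a
  linarith

lemma rt_sum (h : D.OK k j) (c : Option (Fin n)) : ∑ a, D.rt c a ≤ 1 := by
  have h1 := h.hR1
  have h2 : ∑ a, D.rt c a ≤ ∑ c, ∑ a, D.rt c a :=
    single_le_sum (f := fun c => ∑ a, D.rt c a) (fun c _ => sum_nonneg fun a _ => h.hrt c a) (mem_univ c)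
  linarith

lemma F1_nonneg (h : D.OK k j) (c : Option (Fin n)) (a b : J) : 0 ≤ D.F1 c a b := by
  unfold Dat.F1
  refine mul_nonneg (h.hl c a) (sub_nonneg.2 ?_)
  exact single_le_sum (f := fun c' => D.rt c' b) (fun c _ => h.hrt c b) (mem_univ c)

lemma F2_nonneg (h : D.OK k j) (c : Option (Fin n)) (a b : J) : 0 ≤ D.F2 c a b := by
  unfold Dat.F2
  refine mul_nonneg ?_ (h.hrt c b)
  have h1 : D.lf c a ≤ ∑ c', D.lf c' a :=
    single_le_sum (f := fun c' => D.lf c' a) (fun c _ => h.hl c a) (mem_univ c)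
  have h2 := h.hz0 a
  linarith

/-- the exponent of the correlation is nonnegative, and its second order part is small -/
lemma WW_bd (h : D.OK k j) {N : ℕ} (hN : k ^ 2 ≤ N) {σ : ℝ} (hσ : 0 ≤ σ) {p : ℕ} (hp : N < p) :
    0 ≤ WW j (D.u k σ) p ∧ WW j (D.u k σ) p ≤ 1 ∧ WW j (D.u k σ) p ^ 2 ≤ (k : ℝ) ^ 4 * (1 / (p : ℝ)) ^ 2 := by
  have hp1 : 1 ≤ p := by omega
  have hp0 : (0 : ℝ) < p := by exact_mod_cast hp1
  have hI := I_bd h (E := Eb D.r σ p) (fun a => (Eb_pos hp1 a).le) (fun a => Eb_le h.hr hσ hp1 a)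
  rw [WW_eq h hp1]
  have hkp : (k : ℝ) ^ 2 * (1 / (p : ℝ)) ≤ 1 := by
    rw [mul_one_div, div_le_one hp0]
    exact_mod_cast (by omega : k ^ 2 ≤ p)
  have h0 : 0 ≤ (k : ℝ) ^ 2 * (1 / (p : ℝ)) := by positivity
  have e1 : (k : ℝ) ^ 2 * (1 / (p : ℝ) * D.I (Eb D.r σ p)) = (k : ℝ) ^ 2 * (1 / (p : ℝ)) * D.I (Eb D.r σ p) := by
    ring
  rw [e1]
  have h2 : (k : ℝ) ^ 2 * (1 / (p : ℝ)) * D.I (Eb D.r σ p) ≤ (k : ℝ) ^ 2 * (1 / (p : ℝ)) := by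
    nlinarith
  refine ⟨mul_nonneg h0 hI.1, h2.trans hkp, ?_⟩
  have h3 := pow_le_pow_left₀ (mul_nonneg h0 hI.1) h2 2
  refine h3.trans (le_of_eq ?_)
  ring

/-- the tails are small -/
lemma tail_small (h : D.OK k j) {N X : ℕ} {L : ℝ} (hL : 0 < L)
    (hdiff : ∀ a b, D.ϑ < D.r a + D.r b →
      PR N ((D.r a + D.r b - D.ϑ) * ((k : ℝ) ^ 2 / L)) - PR N ((D.r a + D.r b) * ((k : ℝ) ^ 2 / L)) ≤
        D.ϑ / (D.r a + D.r b - D.ϑ)) (Y : ℝ) (hY : 0 < Y) (hYL : Real.log Y = L) :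
    ∑ c, ((Y ^ D.A c) ^ (-(D.ϑ * ((k : ℝ) ^ 2 / L))) * Real.exp (∑ p : PP N X,
      (((p : ℕ) : ℝ) ^ (D.ϑ * ((k : ℝ) ^ 2 / L)) - 1) * W1 (D.u k ((k : ℝ) ^ 2 / L)) c p) +
        (Y ^ D.B c) ^ (-(D.ϑ * ((k : ℝ) ^ 2 / L))) * Real.exp (∑ p : PP N X,
      (((p : ℕ) : ℝ) ^ (D.ϑ * ((k : ℝ) ^ 2 / L)) - 1) * W2 j (D.u k ((k : ℝ) ^ 2 / L)) c p)) ≤ 1 / 2 := by
  have hk : (0 : ℝ) < k := by exact_mod_cast h.hk
  have hσ : 0 < (k : ℝ) ^ 2 / L := by positivity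
  refine le_trans (sum_le_sum fun c _ => ?_) h.htail
  have hY1 : ∀ A : ℝ, (Y ^ A) ^ (-(D.ϑ * ((k : ℝ) ^ 2 / L))) = Real.exp (-(D.ϑ * (k : ℝ) ^ 2 * A)) := by
    intro A
    rw [← Real.rpow_mul hY.le, Real.rpow_def_of_pos hY, hYL]
    congr 1
    field_simp
  have t1 := tail_form D N X hσ h.hϑ hdiff (D.F1 c) (F1_nonneg h c) (h.hF1 c) ((k : ℝ) ^ 2)
    (by positivity) (W1 (D.u k ((k : ℝ) ^ 2 / L)) c) (fun p hp => W1_eq (PP_prime p hp).one_lt.le)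
  have t2 := tail_form D N X hσ h.hϑ hdiff (D.F2 c) (F2_nonneg h c) (h.hF2 c) ((k : ℝ) ^ 2)
    (by positivity) (W2 j (D.u k ((k : ℝ) ^ 2 / L)) c) (fun p hp => W2_eq h (PP_prime p hp).one_lt.le)
  rw [hY1, hY1]
  refine add_le_add ?_ ?_
  · rw [← Real.exp_add]
    refine Real.exp_le_exp.2 ?_
    linarith
  · rw [← Real.exp_add]
    refine Real.exp_le_exp.2 ?_
    linarith

/-- Hölder combination of exponents -/
lemma holder_exp (h : D.OK k j) (EN ES : ℝ) (EK : Fin n → ℝ) :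
    Real.exp (k / j * (2 * EN - ES - ∑ i, 1 / (D.q i : ℝ) * EK i) - 2 * k / j * Real.log 8) ≤
      (Real.exp EN / 4 / ((2 * Real.exp ES) ^ (1 / 2 : ℝ) *
        ∏ i, (2 * Real.exp (EK i)) ^ (1 / (2 * (D.q i : ℝ))))) ^ ((2 * k : ℝ) / (j : ℝ)) := by
  have hk : (0 : ℝ) < k := by exact_mod_cast h.hk
  have hj : (0 : ℝ) < j := by exact_mod_cast h.hj
  have hq : ∀ i, (0 : ℝ) < D.q i := fun i => by exact_mod_cast h.hq i
  have e1 : ∀ (E s : ℝ), (2 * Real.exp E) ^ s = Real.exp (s * (Real.log 2 + E)) := by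
    intro E s
    rw [Real.rpow_def_of_pos (by positivity), Real.log_mul (by norm_num) (Real.exp_pos _).ne',
      Real.log_exp, mul_comm]
  rw [e1]
  simp only [e1]
  rw [← Real.exp_sum, ← Real.exp_add]
  have e2 : Real.exp EN / 4 = Real.exp (EN - 2 * Real.log 2) := by
    rw [Real.exp_sub]
    congr 1
    rw [show (2 : ℝ) * Real.log 2 = Real.log 4 by
      rw [show (4 : ℝ) = 2 ^ 2 by norm_num, Real.log_pow]; push_cast; ring]
    exact (Real.exp_log (by norm_num)).symm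
  rw [e2, ← Real.exp_sub, ← Real.exp_mul]
  refine Real.exp_le_exp.2 ?_
  have hs : ∑ i, 1 / (2 * (D.q i : ℝ)) * (Real.log 2 + EK i) =
      Real.log 2 * (∑ i, 1 / (D.q i : ℝ)) / 2 + (∑ i, 1 / (D.q i : ℝ) * EK i) / 2 := by
    rw [mul_sum, sum_div, sum_div, ← sum_add_distrib]
    refine sum_congr rfl fun i _ => ?_
    have := (hq i).ne'
    field_simp
  rw [hs]
  have h8 : Real.log 8 = 3 * Real.log 2 := by
    rw [show (8 : ℝ) = 2 ^ 3 by norm_num, Real.log_pow]; push_cast; ring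
  have hl2 : 0 < Real.log 2 := Real.log_pos (by norm_num)
  have hsum : ∑ i, 1 / (D.q i : ℝ) ≤ 1 := by
    have := h.hH
    have : 0 < (j : ℝ) / k := by positivity
    linarith
  rw [h8]
  set S := ∑ i, 1 / (D.q i : ℝ) with hS
  set K := ∑ i, 1 / (D.q i : ℝ) * EK i with hK
  have h1 : (EN - 2 * Real.log 2 - (1 / 2 * (Real.log 2 + ES) + (Real.log 2 * S / 2 + K / 2))) * (2 * k / j) =
      k / j * (2 * EN - ES - K) - 2 * k / j * (Real.log 2 * (5 / 2 + S / 2)) := by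
    field_simp
    ring
  rw [h1]
  have h2 : Real.log 2 * (5 / 2 + S / 2) ≤ 3 * Real.log 2 := by nlinarith
  have h3 : 2 * (k : ℝ) / j * (Real.log 2 * (5 / 2 + S / 2)) ≤ 2 * k / j * (3 * Real.log 2) :=
    mul_le_mul_of_nonneg_left h2 (by positivity)
  linarith

/-- the combination of the exponents -/
lemma comb (h : D.OK k j) {N X : ℕ} (hN : k ^ 2 ≤ N) {σ : ℝ} (hσ : 0 ≤ σ) :
    (k : ℝ) ^ 2 * (∑ p ∈ PP N X, 1 / (p : ℝ) * D.D (Eb D.r σ p)) - (k : ℝ) ^ 4 * SN N ≤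
    2 * (∑ p : PP N X, (WW j (D.u k σ) p - WW j (D.u k σ) p ^ 2 / 2)) -
    (∑ p : PP N X, (((1 : ℕ) : ℝ) ^ 2 * (uu k D.r σ (D.rt none) (D.lf none) p 1 +
      uu k D.r σ (D.rt none) (D.lf none) p 2) ^ 2 -
      2 * ((1 : ℕ) : ℝ) * (uu k D.r σ (D.rt none) (D.lf none) p 1 * uu k D.r σ (D.rt none) (D.lf none) p 2))) -
    ∑ i, 1 / (D.q i : ℝ) * (∑ p : PP N X, ((D.q i : ℝ) ^ 2 * (D.u k σ (some i) p 1 + D.u k σ (some i) p 2) ^ 2 -
      2 * D.q i * (D.u k σ (some i) p 1 * D.u k σ (some i) p 2))) := by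
  have h1 : ∀ p : PP N X, (k : ℝ) ^ 2 * (1 / ((p : ℕ) : ℝ) * D.D (Eb D.r σ p)) - WW j (D.u k σ) p ^ 2 =
      2 * (WW j (D.u k σ) p - WW j (D.u k σ) p ^ 2 / 2) -
      (((1 : ℕ) : ℝ) ^ 2 * (uu k D.r σ (D.rt none) (D.lf none) p 1 +
      uu k D.r σ (D.rt none) (D.lf none) p 2) ^ 2 -
      2 * ((1 : ℕ) : ℝ) * (uu k D.r σ (D.rt none) (D.lf none) p 1 * uu k D.r σ (D.rt none) (D.lf none) p 2)) -
      ∑ i, 1 / (D.q i : ℝ) * ((D.q i : ℝ) ^ 2 * (D.u k σ (some i) p 1 + D.u k σ (some i) p 2) ^ 2 -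
      2 * D.q i * (D.u k σ (some i) p 1 * D.u k σ (some i) p 2)) := by
    intro p
    have hp1 : 1 ≤ (p : ℕ) := (PP_prime p p.2).one_lt.le
    rw [uu_K _ _ _ _ hp1]
    have e2 : ∀ i, (D.q i : ℝ) ^ 2 * (D.u k σ (some i) p 1 + D.u k σ (some i) p 2) ^ 2 -
      2 * D.q i * (D.u k σ (some i) p 1 * D.u k σ (some i) p 2) = (k : ℝ) ^ 2 * ((1 / ((p : ℕ) : ℝ)) *
        ((D.q i : ℝ) ^ 2 * (vl (D.lf (some i)) (Eb D.r σ p) + vl (D.rt (some i)) (Eb D.r σ p)) ^ 2 -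
      2 * D.q i * (vl (D.lf (some i)) (Eb D.r σ p) * vl (D.rt (some i)) (Eb D.r σ p)))) := fun i => by
      unfold Dat.u
      exact uu_K _ _ _ _ hp1
    simp only [e2]
    rw [WW_eq h hp1]
    unfold Dat.D Dat.I
    have e3 : ∑ i, 1 / (D.q i : ℝ) * ((k : ℝ) ^ 2 * ((1 / ((p : ℕ) : ℝ)) *
        ((D.q i : ℝ) ^ 2 * (vl (D.lf (some i)) (Eb D.r σ p) + vl (D.rt (some i)) (Eb D.r σ p)) ^ 2 -
      2 * D.q i * (vl (D.lf (some i)) (Eb D.r σ p) * vl (D.rt (some i)) (Eb D.r σ p))))) =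
      (k : ℝ) ^ 2 * (1 / ((p : ℕ) : ℝ)) * ∑ i, 1 / (D.q i : ℝ) *
        ((D.q i : ℝ) ^ 2 * (vl (D.lf (some i)) (Eb D.r σ p) + vl (D.rt (some i)) (Eb D.r σ p)) ^ 2 -
      2 * D.q i * (vl (D.lf (some i)) (Eb D.r σ p) * vl (D.rt (some i)) (Eb D.r σ p))) := by
      rw [mul_sum]
      exact sum_congr rfl fun i _ => by ring
    rw [e3]
    push_cast
    ring
  have h2 := sum_congr rfl fun (p : PP N X) (_ : p ∈ univ) => h1 p
  rw [sum_sub_distrib, sum_sub_distrib, sum_sub_distrib, ← mul_sum, ← mul_sum, sum_comm] at h2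
  simp only [← mul_sum] at h2
  rw [← h2]
  rw [Finset.sum_coe_sort (PP N X) (fun p : ℕ => 1 / (p : ℝ) * D.D (Eb D.r σ p)),
    Finset.sum_coe_sort (PP N X) (fun p : ℕ => WW j (D.u k σ) p ^ 2)]
  have h3 : ∑ p ∈ PP N X, WW j (D.u k σ) p ^ 2 ≤ (k : ℝ) ^ 4 * SN N := by
    calc ∑ p ∈ PP N X, WW j (D.u k σ) p ^ 2 ≤ ∑ p ∈ PP N X, (k : ℝ) ^ 4 * (1 / (p : ℝ)) ^ 2 :=
          sum_le_sum fun p hp => (WW_bd h hN hσ (PP_lt p hp)).2.2
      _ = (k : ℝ) ^ 4 * ∑ p ∈ PP N X, (1 / (p : ℝ)) ^ 2 := by rw [mul_sum]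
      _ ≤ _ := mul_le_mul_of_nonneg_left (SN_le N X) (by positivity)
  linarith

/-- one window -/
theorem win_one (h : D.OK k j) {N X : ℕ} (hN : k ^ 2 ≤ N) (x T τ : ℝ) (hx : 0 < x) (hT : 4 ≤ T)
    (hL : 0 < Real.log (Yt x T)) (hYT : Yt x T ≤ T)
    (h1 : ∀ a b : ℕ, 1 ≤ a → (a : ℝ) ≤ T → 1 ≤ b → (b : ℝ) ≤ Yt x T →
      ‖win x x T τ (fun t => riemannZeta (cl t) ^ j * fr a b t) - (mt j a b : ℂ)‖ ≤ 1 / T ^ 3)
    (h2 : ∀ a b : ℕ, 1 ≤ a → (a : ℝ) ≤ T → 1 ≤ b → (b : ℝ) ≤ Yt x T →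
      ‖win x x T τ (fun t => riemannZeta (cl t) ^ 0 * fr a b t) - (mt 0 a b : ℂ)‖ ≤ 1 / T ^ 3)
    (hdiff : ∀ a b, D.ϑ < D.r a + D.r b →
      PR N ((D.r a + D.r b - D.ϑ) * ((k : ℝ) ^ 2 / Real.log (Yt x T))) -
        PR N ((D.r a + D.r b) * ((k : ℝ) ^ 2 / Real.log (Yt x T))) ≤ D.ϑ / (D.r a + D.r b - D.ϑ)) :
    Real.exp (k / j * ((k : ℝ) ^ 2 * (∑ p ∈ PP N X, 1 / (p : ℝ) * D.D (Eb D.r ((k : ℝ) ^ 2 / Real.log (Yt x T)) p))
      - (k : ℝ) ^ 4 * SN N) - 2 * k / j * Real.log 8) ≤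
    ∫ t in (τ - x / 2 * T)..(τ + x / 2 * T), ‖riemannZeta (1 / 2 + t * Complex.I)‖ ^ (2 * k) *
        gw τ (Ht x T) t := by
  have hk : (0 : ℝ) < k := by exact_mod_cast h.hk
  have hj : (0 : ℝ) < j := by exact_mod_cast h.hj
  have hq : ∀ i, (0 : ℝ) < D.q i := fun i => by exact_mod_cast h.hq i
  have hT0 : 0 < T := by linarith
  have hH0 : 0 < Ht x T := Real.rpow_pos_of_pos hT0 _
  have hY0 : 0 < Yt x T := Real.rpow_pos_of_pos hT0 _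
  have hY1 : 1 ≤ Yt x T := ((Real.log_pos_iff hY0.le).1 hL).le
  set L := Real.log (Yt x T) with hLdef
  set σ := (k : ℝ) ^ 2 / L with hσdef
  have hσ : 0 < σ := by positivity
  set Y := Yt x T with hYdef
  have hPp : ∀ p ∈ PP N X, 1 ≤ p := fun p hp => (PP_prime p hp).one_lt.le
  have hPk : ∀ p ∈ PP N X, k ^ 2 ≤ p := fun p hp => hN.trans (PP_lt p hp).le
  have hu : ∀ c, ∀ p ∈ PP N X, ∀ s, 0 ≤ D.u k σ c p s := fun c p hp s =>
    uu_nonneg (h.hl c) (h.hrt c) s (hPp p hp)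
  have hu1 : ∀ c, ∀ p ∈ PP N X, ∀ s, D.u k σ c p s ≤ 1 := fun c p hp s =>
    uu_le (h.hl c) (h.hrt c) (lf_sum h c) (rt_sum h c) h.hr hσ.le s (hPp p hp) (hPk p hp)
  have hu0 : ∀ c, ∀ p ∈ PP N X, D.u k σ c p 0 = 1 := fun c p hp => uu_zero k _ _
  have hYA : ∀ A : ℝ, 0 < Y ^ A := fun A => Real.rpow_pos_of_pos hY0 _
  have hprodA : ∏ c, Y ^ D.A c ≤ Y := by
    rw [← Real.rpow_sum_of_pos hY0]
    calc Y ^ (∑ c, D.A c) ≤ Y ^ (1 : ℝ) := Real.rpow_le_rpow_of_exponent_le hY1 h.hAs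
      _ = Y := Real.rpow_one _
  have hprodB : ∏ c, Y ^ D.B c ≤ Y := by
    rw [← Real.rpow_sum_of_pos hY0]
    calc Y ^ (∑ c, D.B c) ≤ Y ^ (1 : ℝ) := Real.rpow_le_rpow_of_exponent_le hY1 h.hBs
      _ = Y := Real.rpow_one _
  have hpos : 0 ≤ ∑ p : PP N X, (WW j (D.u k σ) p - WW j (D.u k σ) p ^ 2 / 2) := by
    refine sum_nonneg fun p _ => ?_
    have := WW_bd h hN hσ.le (PP_lt p p.2)
    nlinarith [this.1, this.2.1]
  have hlow := win_lower (fun p hp => PP_prime p hp) (D.u k σ) hu hu1 hu0 (fun c => Y ^ D.A c)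
    (fun c => Y ^ D.B c) (fun c => hYA _) (fun c => hYA _) j x x T τ hT hYT (hprodA.trans hYT) hprodB h1
    (D.ϑ * σ) (mul_nonneg h.hϑ.le hσ.le) (tail_small h hL hdiff Y hY0 hLdef.symm) hpos
  have hsw : sw (D.u k σ none) = uu k D.r σ (D.rt none) (D.lf none) := by
    unfold Dat.u
    rw [sw_uu]
  rw [hsw] at hlow
  have hC := win_upper (P := PP N X) (fun p hp => PP_prime p hp) (uu k D.r σ (D.rt none) (D.lf none))
    (fun p hp s => uu_nonneg (h.hrt none) (h.hl none) s (hPp p hp))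
    (fun p hp s => uu_le (h.hrt none) (h.hl none) (rt_sum h none) (lf_sum h none) h.hr hσ.le s (hPp p hp) (hPk p hp))
    (fun p hp => uu_zero k _ _) (Y ^ D.B none) (Y ^ D.A none) (hYA _).le (hYA _).le 1 x x T τ
    (by linarith) hYT (by
      rw [pow_one, ← Real.rpow_add hY0]
      calc Y ^ (D.B none + D.A none) ≤ Y ^ (1 : ℝ) := Real.rpow_le_rpow_of_exponent_le hY1 (by linarith [h.hS])
        _ = Y := Real.rpow_one _) h2
  have hU : ∀ i, ∫ t in (τ - x / 2 * T)..(τ + x / 2 * T),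
      ‖UU (PP N X) (D.u k σ (some i)) (Y ^ D.A (some i)) (Y ^ D.B (some i)) t‖ ^ (2 * D.q i) *
        gw τ (Ht x T) t ≤ 2 * Real.exp (∑ p : PP N X, ((D.q i : ℝ) ^ 2 * (D.u k σ (some i) p 1 + D.u k σ (some i) p 2) ^ 2 -
      2 * D.q i * (D.u k σ (some i) p 1 * D.u k σ (some i) p 2))) := fun i =>
    win_upper (P := PP N X) (fun p hp => PP_prime p hp) (D.u k σ (some i)) (hu (some i)) (hu1 (some i))
      (hu0 (some i)) _ _ (hYA _).le (hYA _).le (D.q i) x x T τ (by linarith) hYT (by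
        rw [← Real.rpow_add hY0, ← Real.rpow_natCast, ← Real.rpow_mul hY0.le]
        calc Y ^ ((D.A (some i) + D.B (some i)) * (D.q i : ℝ)) ≤ Y ^ (1 : ℝ) :=
              Real.rpow_le_rpow_of_exponent_le hY1 (by linarith [h.hqA i])
          _ = Y := Real.rpow_one _) h2
  have hjk : (j : ℝ) / (2 * k : ℝ) + 1 / 2 + ∑ i, 1 / (2 * (D.q i : ℝ)) = 1 := by
    have e1 : ∑ i, 1 / (2 * (D.q i : ℝ)) = (∑ i, 1 / (D.q i : ℝ)) / 2 := by
      rw [sum_div]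
      exact sum_congr rfl fun i _ => by rw [div_div, mul_comm (D.q i : ℝ) 2]
    have e2 : (j : ℝ) / (2 * k : ℝ) = (j : ℝ) / k / 2 := by rw [div_div, mul_comm (k : ℝ) 2]
    rw [e1, e2]
    have := h.hH
    linarith
  have hHol := window_holder_real n D.q h.hq j (2 * k : ℝ) h.hj (by positivity) hjk
    (fun t => riemannZeta (1 / 2 + t * Complex.I))
    (fun t => UU (PP N X) (uu k D.r σ (D.rt none) (D.lf none)) (Y ^ D.B none) (Y ^ D.A none) t)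
    (fun i t => UU (PP N X) (D.u k σ (some i)) (Y ^ D.A (some i)) (Y ^ D.B (some i)) t)
    zeta_line_continuous (UU_cont _ _ _) (fun i => UU_cont _ _ _)
    (gw τ (Ht x T)) (gw_continuous _ _) (fun t => gw_nonneg _ _ _ hH0)
    (τ - x / 2 * T) (τ + x / 2 * T) (by nlinarith) _ _ _ (by positivity) (by positivity)
    (fun i => by positivity) hlow hC hU
  have hexp := holder_exp h (∑ p : PP N X, (WW j (D.u k σ) p - WW j (D.u k σ) p ^ 2 / 2))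
    (∑ p : PP N X, (((1 : ℕ) : ℝ) ^ 2 * (uu k D.r σ (D.rt none) (D.lf none) p 1 +
      uu k D.r σ (D.rt none) (D.lf none) p 2) ^ 2 -
      2 * ((1 : ℕ) : ℝ) * (uu k D.r σ (D.rt none) (D.lf none) p 1 * uu k D.r σ (D.rt none) (D.lf none) p 2)))
    (fun i => ∑ p : PP N X, ((D.q i : ℝ) ^ 2 * (D.u k σ (some i) p 1 + D.u k σ (some i) p 2) ^ 2 -
      2 * D.q i * (D.u k σ (some i) p 1 * D.u k σ (some i) p 2)))
  have hfin := hexp.trans hHol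
  have e5 : ∀ t : ℝ, ‖riemannZeta (1 / 2 + t * Complex.I)‖ ^ (2 * k : ℝ) =
      ‖riemannZeta (1 / 2 + t * Complex.I)‖ ^ (2 * k) := by
    intro t
    rw [← Real.rpow_natCast]
    push_cast
    rfl
  simp only [e5] at hfin
  refine le_trans (Real.exp_le_exp.2 ?_) hfin
  have hc := comb h (X := X) hN hσ.le
  have hkj : 0 ≤ (k : ℝ) / j := by positivity
  have := mul_le_mul_of_nonneg_left hc hkj
  linarith

end

end

end Pool.Agent.H84.Mom
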