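import Pool.Agent.H84.Mom.Fix

set_option autoImplicit false
set_option linter.unusedSectionVars false

/-! The lower bound for one exponent, large `T`. -/

namespace Pool.Agent.H84.Mom

open Finset Filter Topology MeasureTheory
open Pool.Agent.H306R2 (Yt Ht gw gw_continuous gw_nonneg gw_symm gw_integrable gw_integral Yt_tendsto Yt_le
  zeta_line_continuous window_holder_real window_sum)
open H295MK (fr win winR mt cl)

noncomputable section

variable {n : ℕ} {J : Type} [Fintype J] {D : Dat n J} {k j : ℕ}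

/-- all windows -/
theorem win_all (h : D.OK k j) {N : ℕ} (hN : k ^ 2 ≤ N) (x ε : ℝ) (hx : 0 < x) (hx4 : x < 1 / 4)
    (hε : 0 < ε) :
    ∀ᶠ T : ℝ in atTop, ∀ τ : ℝ, x * T ≤ τ → τ ≤ T →
      Real.exp (Bk D k j N - ε) * Real.log (Yt x T) ^ (k ^ 2) ≤
      ∫ t in (τ - x / 2 * T)..(τ + x / 2 * T), ‖riemannZeta (1 / 2 + t * Complex.I)‖ ^ (2 * k) *
        gw τ (Ht x T) t := by
  have hk : (0 : ℝ) < k := by exact_mod_cast h.hk
  have hj : (0 : ℝ) < j := by exact_mod_cast h.hj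
  have hYlog := Yt_tendsto (η := x) (by linarith : x < 1 / 2)
  set ε' : ℝ := ε * j / (2 * (k : ℝ) ^ 3) with hε'
  have hε'0 : 0 < ε' := by positivity
  have E1 := Pool.Agent.H802R2.MK.R1 j 3 x x hx (by linarith) hx (by linarith)
  have E2 := Pool.Agent.H802R2.MK.R1 0 3 x x hx (by linarith) hx (by linarith)
  have E3 := hYlog.eventually (diff_ev D N (K := (k : ℝ) ^ 2) (by positivity) h.hϑ)
  have E4 := hYlog.eventually ((lim_L h N).eventually (lt_mem_nhds (sub_lt_self _ hε'0)))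
  filter_upwards [E1, E2, E3, E4, eventually_ge_atTop 4, hYlog.eventually_gt_atTop 0] with T
    h1 h2 h3 h4 h5 h6 τ hτ1 hτ2
  have hYT : Yt x T ≤ T := Yt_le hx (by linarith)
  set L := Real.log (Yt x T) with hL
  have hσ : 0 < (k : ℝ) ^ 2 / L := by positivity
  obtain ⟨X, hX⟩ := main_X h N hσ hε'0
  have hw := win_one h (X := X) hN x T τ hx h5 h6 hYT (h1 τ hτ1 hτ2) (h2 τ hτ1 hτ2) h3
  have e0 : Real.exp (Bk D k j N - ε) * L ^ (k ^ 2) =
      Real.exp (Bk D k j N - ε + (k : ℝ) ^ 2 * Real.log L) := by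
    rw [Real.exp_add]
    congr 1
    have : (k : ℝ) ^ 2 * Real.log L = Real.log (L ^ (k ^ 2)) := by
      rw [Real.log_pow]; push_cast; ring
    rw [this, Real.exp_log (by positivity)]
  rw [e0]
  refine le_trans (Real.exp_le_exp.2 ?_) hw
  · unfold Bk
    set S := ∑ p ∈ PP N X, 1 / (p : ℝ) * D.D (Eb D.r ((k : ℝ) ^ 2 / L) p) with hS
    set R := ∑ a, ∑ b, D.Q a b * PR N ((D.r a + D.r b) * ((k : ℝ) ^ 2 / L)) with hR
    set Λ := ∑ a, ∑ b, D.Q a b * Real.log (D.r a + D.r b) with hΛ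
    have hS2 : (j : ℝ) / k * Real.log L - Λ - (j : ℝ) / k * (2 * Real.log k + cN N) - 2 * ε' ≤ S := by
      linarith
    have hkj : 0 ≤ (k : ℝ) / j * (k : ℝ) ^ 2 := by positivity
    have h7 := mul_le_mul_of_nonneg_left hS2 hkj
    have e1 : (k : ℝ) / j * (k : ℝ) ^ 2 * ((j : ℝ) / k * Real.log L - Λ -
        (j : ℝ) / k * (2 * Real.log k + cN N) - 2 * ε') =
        (k : ℝ) ^ 2 * Real.log L - (k : ℝ) ^ 3 / j * Λ - (k : ℝ) ^ 2 * (2 * Real.log k + cN N) - ε := by
      rw [hε']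
      field_simp
    rw [e1] at h7
    have e2 : (k : ℝ) / j * ((k : ℝ) ^ 2 * S - (k : ℝ) ^ 4 * SN N) =
        (k : ℝ) / j * (k : ℝ) ^ 2 * S - (k : ℝ) / j * ((k : ℝ) ^ 4 * SN N) := by ring
    rw [e2]
    linarith

/-- **The lower bound for one exponent.** -/
theorem fixedK (h : D.OK k j) {N : ℕ} (hN : k ^ 2 ≤ N) (c : ℝ) (hc : c < Real.exp (Bk D k j N)) :
    ∀ᶠ T : ℝ in atTop, c * (T * Real.log T ^ (k ^ 2)) ≤
      ∫ t in (0:ℝ)..T, ‖riemannZeta (1 / 2 + t * Complex.I)‖ ^ (2 * k) := by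
  -- choice of `x`
  have hlim : Tendsto (fun x : ℝ => (1 - 2 * x) * (1 - 2 * x) ^ (k ^ 2) * Real.exp (Bk D k j N - x))
      (𝓝[>] 0) (𝓝 (Real.exp (Bk D k j N))) := by
    have h1 : ContinuousAt (fun x : ℝ => (1 - 2 * x) * (1 - 2 * x) ^ (k ^ 2) * Real.exp (Bk D k j N - x)) 0 := by
      fun_prop
    have h2 := h1.tendsto.mono_left (nhdsWithin_le_nhds (s := Set.Ioi 0))
    simpa using h2
  obtain ⟨x, hxc, hx0, hx4⟩ := ((hlim.eventually_const_lt hc).and
    (Ioo_mem_nhdsGT (by norm_num : (0:ℝ) < 1 / 4))).exists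
  have hwin := win_all h hN x x hx0 hx4 hx0
  filter_upwards [hwin, eventually_gt_atTop 1,
    (Yt_tendsto (η := x) (by linarith)).eventually_gt_atTop 0] with T hT1 hT4 hT5
  have hT0 : 0 < T := by linarith
  have hH0 : 0 < Ht x T := Real.rpow_pos_of_pos hT0 _
  set Dd := Real.exp (Bk D k j N - x) * Real.log (Yt x T) ^ (k ^ 2) with hD
  have hD0 : 0 ≤ Dd := by positivity
  have hw2 : ∀ τ ∈ Set.Icc (x * T) ((1 - x) * T), Dd ≤
      ∫ t in (τ - x / 2 * T)..(τ + x / 2 * T), ‖riemannZeta (1 / 2 + t * Complex.I)‖ ^ (2 * k) *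
        gw τ (Ht x T) t := by
    intro τ hτ
    exact hT1 τ hτ.1 (by have := hτ.2; nlinarith)
  have hfin := window_sum (fun t => ‖riemannZeta (1 / 2 + t * Complex.I)‖ ^ (2 * k))
    (zeta_line_continuous.norm.pow _) (fun t => by positivity)
    (fun τ t => gw τ (Ht x T) t) (by unfold Pool.Agent.H306R2.gw; fun_prop) (fun τ t => gw_nonneg _ _ _ hH0)
    (by
      intro t
      have h1 : ∀ τ, gw τ (Ht x T) t = gw t (Ht x T) τ := fun τ => gw_symm _ _ _
      simp only [h1]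
      rw [← ofReal_integral_eq_lintegral_ofReal (gw_integrable _ _ hH0)
        (Eventually.of_forall fun τ => gw_nonneg _ _ _ hH0), gw_integral _ _ hH0]
      simp)
    T (x * T) ((1 - x) * T) (x / 2 * T) Dd (by nlinarith) (by positivity) (by nlinarith)
    (by nlinarith) (by positivity) hw2
  refine le_trans ?_ hfin
  have hlog : Real.log (Yt x T) = (1 - 2 * x) * Real.log T := by
    unfold Pool.Agent.H306R2.Yt
    rw [Real.log_rpow hT0]
  have hlogT : 0 ≤ Real.log T := Real.log_nonneg hT4.le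
  rw [hD, hlog, mul_pow]
  have h9 : 0 ≤ T * Real.log T ^ (k ^ 2) := by positivity
  have h10 := mul_le_mul_of_nonneg_right hxc.le h9
  refine h10.trans (le_of_eq ?_)
  ring

end

end Pool.Agent.H84.Mom
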