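import Pool.Agent.H84.Mom.Fin

set_option autoImplicit false
set_option linter.unusedSectionVars false

/-! Rational base designs: the conditions are decidable. -/

namespace Pool.Agent.H84.Mom

open Finset

/-- a rational base design -/
structure QB (n m : ℕ) where
  q : Fin n → ℕ
  t : ℕ
  /-- denominator of the rates -/
  Dn : ℕ
  /-- denominator of the weights -/
  Un : ℕ
  R : Fin m → ℕ
  z0 : Fin m
  ρ : Fin m
  ex : Fin m
  H : Fin n → Fin m → ℕ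
  L : Fin n → Fin m → ℕ
  cA : Fin n → ℚ
  cB : Fin n → ℚ
  cL : ℚ
  cH : ℚ
  ϑ : ℚ
  s : ℚ

variable {n m : ℕ}

def QB.r (c : QB n m) (a : Fin m) : ℚ := (c.R a : ℚ) / c.Dn
def QB.hh (c : QB n m) (i : Fin n) (a : Fin m) : ℚ := (c.H i a : ℚ) / c.Un
def QB.ll (c : QB n m) (i : Fin n) (a : Fin m) : ℚ := (c.L i a : ℚ) / c.Un
def QB.mm (c : QB n m) (a : Fin m) : ℚ := ∑ i, c.ll i a
def QB.h (c : QB n m) (a : Fin m) : ℚ := ∑ i, c.hh i a
def QB.γ (c : QB n m) (a : Fin m) : ℚ := (if a = c.ρ then 1 / (c.t : ℚ) else 0) + c.h a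
def QB.w (c : QB n m) (a : Fin m) : ℚ := (if a = c.z0 then 1 / (c.t : ℚ) else 0) + (c.h a + c.mm a)

def BLq (r : Fin m → ℚ) (ϑ : ℚ) (u v : Fin m → ℚ) : ℚ := ∑ a, ∑ a', u a * v a' / (r a + r a' - ϑ)

/-- the decidable conditions -/
def QB.OK (c : QB n m) : Prop :=
  (∀ i, 1 ≤ c.q i) ∧ 1 ≤ c.t ∧ 1 ≤ c.Dn ∧ 1 ≤ c.Un ∧ (1 : ℚ) / c.t + ∑ i, 1 / (c.q i : ℚ) = 1 ∧ c.R c.z0 = 0 ∧
  (∀ a, a ≠ c.z0 → c.ϑ < c.r a) ∧ 0 < c.ϑ ∧ c.ρ ≠ c.z0 ∧ c.ex ≠ c.z0 ∧
  (∀ i, c.H i c.z0 = 0) ∧ (∀ i, c.L i c.z0 = 0) ∧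
  (∀ i, ∑ a, (c.hh i a + c.ll i a) = 1 / (c.q i : ℚ)) ∧
  (∀ i, 0 ≤ c.cA i) ∧ (∀ i, 0 ≤ c.cB i) ∧ 0 ≤ c.cL ∧ 0 ≤ c.cH ∧ 0 < c.s ∧ c.s < 1 ∧
  (∀ i, c.q i * (c.cA i + c.cB i) ≤ 1) ∧ c.cL + ∑ i, c.cA i < 1 ∧ c.cH + ∑ i, c.cB i < 1 ∧
  c.cL + c.cH ≤ 1 ∧
  (∀ i, BLq c.r c.ϑ (c.hh i) (fun a => c.γ a + c.mm a - c.ll i a) < c.cA i) ∧
  (∀ i, BLq c.r c.ϑ (fun a => c.w a - c.hh i a) (c.ll i) < c.cB i) ∧
  BLq c.r c.ϑ c.mm c.mm < c.cL ∧
  BLq c.r c.ϑ (fun a => c.w a - c.mm a) c.γ < c.cH ∧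
  BLq c.r c.ϑ (fun a => if a = c.ex then 1 else 0) (fun a => c.γ a + c.mm a) < 1 - c.s

instance (c : QB n m) : Decidable c.OK := by unfold QB.OK; infer_instance

/-- integer coefficients of the form -/
def QB.W (c : QB n m) (a : Fin m) : ℤ :=
  (if a = c.z0 then (c.Un / c.t : ℕ) else 0) + ∑ i, ((c.H i a : ℤ) + c.L i a)
def QB.Z (c : QB n m) (a : Fin m) : ℤ :=
  (if a = c.z0 then (c.Un / c.t : ℕ) else 0) - (if a = c.ρ then ((c.Un / c.t : ℕ) : ℤ) else 0)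
def QB.N (c : QB n m) (a a' : Fin m) : ℤ :=
  c.W a * c.W a' - c.Z a * c.Z a' - ∑ i, (c.q i : ℤ) * (((c.H i a : ℤ) + c.L i a) * ((c.H i a' : ℤ) + c.L i a'))

noncomputable section

/-- the real base design -/
def QB.base (c : QB n m) : Base n (Fin m) where
  q := c.q
  t := c.t
  r := fun a => (c.r a : ℝ)
  z0 := c.z0
  ρ := c.ρ
  ex := c.ex
  hh := fun i a => (c.hh i a : ℝ)
  ll := fun i a => (c.ll i a : ℝ)
  cA := fun i => (c.cA i : ℝ)
  cB := fun i => (c.cB i : ℝ)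
  cL := (c.cL : ℝ)
  cH := (c.cH : ℝ)
  ϑ := (c.ϑ : ℝ)
  s := (c.s : ℝ)

lemma m_cast (c : QB n m) (a : Fin m) : c.base.m a = ((c.mm a : ℚ) : ℝ) := by
  unfold Base.m QB.mm QB.base
  push_cast
  rfl

lemma h_cast (c : QB n m) (a : Fin m) : c.base.h a = ((c.h a : ℚ) : ℝ) := by
  unfold Base.h QB.h QB.base
  push_cast
  rfl

lemma ind_zero {J : Type} [DecidableEq J] (a0 a : J) : ind a0 0 a = 0 := by
  unfold ind; split_ifs <;> rfl

lemma γ_cast (c : QB n m) (a : Fin m) : c.base.γ 0 a = ((c.γ a : ℚ) : ℝ) := by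
  unfold Base.γ QB.γ
  rw [ind_zero, h_cast, sub_zero]
  unfold ind
  show (if a = c.ρ then 1 / (c.t : ℝ) else 0) + _ + 0 = _
  push_cast
  split_ifs <;> simp

lemma w_cast (c : QB n m) (a : Fin m) : c.base.w 0 a = ((c.w a : ℚ) : ℝ) := by
  unfold Base.w QB.w
  rw [ind_zero, h_cast, m_cast, sub_zero]
  unfold ind
  show (if a = c.z0 then 1 / (c.t : ℝ) else 0) + _ + 0 = _
  push_cast
  split_ifs <;> simp

lemma BL_cast (r : Fin m → ℚ) (ϑ : ℚ) (u v : Fin m → ℚ) (u' v' : Fin m → ℝ)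
    (hu : ∀ a, u' a = u a) (hv : ∀ a, v' a = v a) :
    BL (fun a => (r a : ℝ)) (ϑ : ℝ) u' v' = ((BLq r ϑ u v : ℚ) : ℝ) := by
  unfold BL BLq
  push_cast
  refine sum_congr rfl fun a _ => sum_congr rfl fun a' _ => ?_
  rw [hu, hv]

theorem base_OK (c : QB n m) (hc : c.OK) : c.base.OK := by
  obtain ⟨h1, h2, h3, h4, h5, h6, h7, h8, h9, h10, h11, h12, h13, h14, h15, h16, h17, h18, h19, h20,
    h21, h22, h23, h24, h25, h26, h27, h28⟩ := hc
  refine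
    { hq := h1
      ht := h2
      hsum := ?_
      hz0 := ?_
      hr := ?_
      hϑ := ?_
      hρ := h9
      hex := h10
      hh0 := ?_
      ll0 := ?_
      hhz := ?_
      llz := ?_
      hhl := ?_
      cA0 := ?_
      cB0 := ?_
      cL0 := ?_
      cH0 := ?_
      hs0 := ?_
      hs1 := ?_
      capq := ?_
      capA := ?_
      capB := ?_
      capS := ?_
      n1 := ?_
      n2 := ?_
      nL := ?_
      nH := ?_
      nE := ?_ }
  · show (1 : ℝ) / c.t + ∑ i, 1 / (c.q i : ℝ) = 1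
    have h := congrArg (fun x : ℚ => (x : ℝ)) h5
    push_cast at h
    exact h
  · show ((c.r c.z0 : ℚ) : ℝ) = 0
    unfold QB.r
    rw [h6]
    simp
  · intro a ha
    show ((c.ϑ : ℚ) : ℝ) < ((c.r a : ℚ) : ℝ)
    exact_mod_cast h7 a ha
  · show (0 : ℝ) < ((c.ϑ : ℚ) : ℝ)
    exact_mod_cast h8
  · intro i a
    show (0 : ℝ) ≤ ((c.hh i a : ℚ) : ℝ)
    have : 0 ≤ c.hh i a := by unfold QB.hh; positivity
    exact_mod_cast this
  · intro i a
    show (0 : ℝ) ≤ ((c.ll i a : ℚ) : ℝ)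
    have : 0 ≤ c.ll i a := by unfold QB.ll; positivity
    exact_mod_cast this
  · intro i
    show ((c.hh i c.z0 : ℚ) : ℝ) = 0
    unfold QB.hh
    rw [h11]
    simp
  · intro i
    show ((c.ll i c.z0 : ℚ) : ℝ) = 0
    unfold QB.ll
    rw [h12]
    simp
  · intro i
    show ∑ a, (((c.hh i a : ℚ) : ℝ) + ((c.ll i a : ℚ) : ℝ)) = 1 / (c.q i : ℝ)
    have h := congrArg (fun x : ℚ => (x : ℝ)) (h13 i)
    push_cast at h
    exact h
  · intro i
    show (0 : ℝ) ≤ ((c.cA i : ℚ) : ℝ)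
    exact_mod_cast h14 i
  · intro i
    show (0 : ℝ) ≤ ((c.cB i : ℚ) : ℝ)
    exact_mod_cast h15 i
  · show (0 : ℝ) ≤ ((c.cL : ℚ) : ℝ)
    exact_mod_cast h16
  · show (0 : ℝ) ≤ ((c.cH : ℚ) : ℝ)
    exact_mod_cast h17
  · show (0 : ℝ) < ((c.s : ℚ) : ℝ)
    exact_mod_cast h18
  · show ((c.s : ℚ) : ℝ) < 1
    exact_mod_cast h19
  · intro i
    show (c.q i : ℝ) * (((c.cA i : ℚ) : ℝ) + ((c.cB i : ℚ) : ℝ)) ≤ 1
    exact_mod_cast h20 i
  · show ((c.cL : ℚ) : ℝ) + ∑ i, ((c.cA i : ℚ) : ℝ) < 1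
    exact_mod_cast h21
  · show ((c.cH : ℚ) : ℝ) + ∑ i, ((c.cB i : ℚ) : ℝ) < 1
    exact_mod_cast h22
  · show ((c.cL : ℚ) : ℝ) + ((c.cH : ℚ) : ℝ) ≤ 1
    exact_mod_cast h23
  · intro i
    have e := BL_cast c.r c.ϑ (c.hh i) (fun a => c.γ a + c.mm a - c.ll i a) (c.base.hh i)
      (fun a => c.base.γ 0 a + c.base.m a - c.base.ll i a) (fun a => rfl) (fun a => by
        rw [γ_cast, m_cast]
        push_cast
        rfl)
    show BL (fun a => (c.r a : ℝ)) (c.ϑ : ℝ) _ _ < ((c.cA i : ℚ) : ℝ)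
    rw [e]
    exact_mod_cast h24 i
  · intro i
    have e := BL_cast c.r c.ϑ (fun a => c.w a - c.hh i a) (c.ll i)
      (fun a => c.base.w 0 a - c.base.hh i a) (c.base.ll i) (fun a => by
        rw [w_cast]
        push_cast
        rfl) (fun a => rfl)
    show BL (fun a => (c.r a : ℝ)) (c.ϑ : ℝ) _ _ < ((c.cB i : ℚ) : ℝ)
    rw [e]
    exact_mod_cast h25 i
  · have e := BL_cast c.r c.ϑ c.mm c.mm c.base.m c.base.m (m_cast c) (m_cast c)
    show BL (fun a => (c.r a : ℝ)) (c.ϑ : ℝ) _ _ < ((c.cL : ℚ) : ℝ)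
    rw [e]
    exact_mod_cast h26
  · have e := BL_cast c.r c.ϑ (fun a => c.w a - c.mm a) c.γ
      (fun a => c.base.w 0 a - c.base.m a) (c.base.γ 0) (fun a => by
        rw [w_cast, m_cast]
        push_cast
        rfl) (γ_cast c)
    show BL (fun a => (c.r a : ℝ)) (c.ϑ : ℝ) _ _ < ((c.cH : ℚ) : ℝ)
    rw [e]
    exact_mod_cast h27
  · have e := BL_cast c.r c.ϑ (fun a => if a = c.ex then 1 else 0) (fun a => c.γ a + c.mm a)
      (ind c.base.ex 1) (fun a => c.base.γ 0 a + c.base.m a) (fun a => by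
        unfold ind
        show (if a = c.ex then (1 : ℝ) else 0) = _
        split_ifs <;> simp) (fun a => by
        rw [γ_cast, m_cast]
        push_cast
        rfl)
    show BL (fun a => (c.r a : ℝ)) (c.ϑ : ℝ) _ _ < 1 - ((c.s : ℚ) : ℝ)
    rw [e]
    exact_mod_cast h28

lemma W_cast (c : QB n m) (hU : c.t ∣ c.Un) (ht : 1 ≤ c.t) (h4 : 1 ≤ c.Un) (a : Fin m) :
    (c.W a : ℝ) = c.Un * c.base.w 0 a := by
  have hU0 : (c.Un : ℝ) ≠ 0 := by positivity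
  have ht0 : (c.t : ℝ) ≠ 0 := by positivity
  have hd : ((c.Un / c.t : ℕ) : ℝ) = c.Un * (1 / c.t) := by
    rw [Nat.cast_div hU ht0]; ring
  have hd' : (((c.Un / c.t : ℕ) : ℤ) : ℝ) = c.Un * (1 / c.t) := by
    rw [← hd]
    norm_cast
  rw [w_cast]
  unfold QB.W QB.w QB.h QB.mm QB.hh QB.ll
  rw [Int.cast_add, Rat.cast_add, Rat.cast_add, mul_add, mul_add]
  push_cast
  rw [mul_sum, mul_sum, sum_add_distrib]
  congr 1
  · split_ifs
    · have h9 : ((((c.Un : ℤ) / (c.t : ℤ) : ℤ)) : ℝ) = c.Un * (1 / c.t) := by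
        rw [← hd']
        norm_cast
      rw [h9]
      simp
    · simp
  · congr 1
    · refine sum_congr rfl fun i _ => ?_
      field_simp
    · refine sum_congr rfl fun i _ => ?_
      field_simp

lemma Z_cast (c : QB n m) (hU : c.t ∣ c.Un) (ht : 1 ≤ c.t) (a : Fin m) :
    (c.Z a : ℝ) = c.Un * c.base.zz 0 a := by
  have ht0 : (c.t : ℝ) ≠ 0 := by positivity
  have hd : ((c.Un / c.t : ℕ) : ℝ) = c.Un * (1 / c.t) := by
    rw [Nat.cast_div hU ht0]; ring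
  have hd' : (((c.Un / c.t : ℕ) : ℤ) : ℝ) = c.Un * (1 / c.t) := by
    rw [← hd]
    norm_cast
  unfold QB.Z Base.zz ind
  show _ = (c.Un : ℝ) * ((if a = c.z0 then 1 / (c.t : ℝ) - 0 else 0) - (if a = c.ρ then 1 / (c.t : ℝ) - 0 else 0))
  rw [Int.cast_sub]
  split_ifs
  · rw [hd']; ring
  · rw [hd']; simp
  · rw [hd']; simp
  · simp

lemma N_cast (c : QB n m) (hU : c.t ∣ c.Un) (ht : 1 ≤ c.t) (h4 : 1 ≤ c.Un) (a a' : Fin m) :
    (c.N a a' : ℝ) = (c.Un : ℝ) ^ 2 * c.base.Q 0 a a' := by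
  have hU0 : (c.Un : ℝ) ≠ 0 := by positivity
  unfold QB.N Base.Q
  push_cast
  rw [W_cast c hU ht h4, W_cast c hU ht h4, Z_cast c hU ht, Z_cast c hU ht]
  have e1 : ∑ i, (c.base.q i : ℝ) * ((c.base.hh i a + c.base.ll i a) * (c.base.hh i a' + c.base.ll i a')) =
      (∑ i, (c.q i : ℝ) * (((c.H i a : ℝ) + c.L i a) * ((c.H i a' : ℝ) + c.L i a'))) / (c.Un : ℝ) ^ 2 := by
    rw [sum_div]
    refine sum_congr rfl fun i _ => ?_
    show (c.q i : ℝ) * ((((c.hh i a : ℚ) : ℝ) + ((c.ll i a : ℚ) : ℝ)) *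
      (((c.hh i a' : ℚ) : ℝ) + ((c.ll i a' : ℚ) : ℝ))) = _
    unfold QB.hh QB.ll
    push_cast
    field_simp
  rw [e1]
  field_simp
  ring

/-- products of powers -/
def QB.Pp (c : QB n m) : ℕ := ∏ a, ∏ a', (c.R a + c.R a') ^ (c.N a a').toNat
def QB.Pm (c : QB n m) : ℕ := ∏ a, ∏ a', (c.R a + c.R a') ^ (-c.N a a').toNat

theorem log_cond (c : QB n m) (hc : c.OK) (hU : c.t ∣ c.Un) (An Ad V : ℕ) (hV : c.t * V = c.Un ^ 2)
    (hV1 : 1 ≤ V) (hAn : 1 ≤ An) (hAd : 1 ≤ Ad)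
    (hR : ∀ a a', c.R a + c.R a' = 0 → c.N a a' = 0)
    (hlt : c.Pp * (An * 27182818286) ^ V < c.Pm * (c.Dn * Ad * 10000000000) ^ V) :
    Real.log ((An : ℝ) / Ad) + 1 + c.base.t * c.base.LQ 0 < 0 := by
  have hc' := hc
  obtain ⟨h1, h2, h3, h4, h5, -⟩ := hc'
  have hb := base_OK c hc
  have ht0 : (0 : ℝ) < c.t := by exact_mod_cast h2
  have hD0 : (0 : ℝ) < c.Dn := by exact_mod_cast h3
  have hU0 : (0 : ℝ) < c.Un := by exact_mod_cast h4
  have hV0 : (0 : ℝ) < V := by exact_mod_cast hV1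
  have hAn0 : (0 : ℝ) < An := by exact_mod_cast hAn
  have hAd0 : (0 : ℝ) < Ad := by exact_mod_cast hAd
  have hVr : (c.t : ℝ) * V = (c.Un : ℝ) ^ 2 := by exact_mod_cast hV
  -- the sum of the coefficients
  have hsumN : ∑ a, ∑ a', (c.N a a' : ℝ) = V := by
    have := sum_Q hb 0
    have e1 : ∑ a, ∑ a', (c.N a a' : ℝ) = (c.Un : ℝ) ^ 2 * ∑ a, ∑ a', c.base.Q 0 a a' := by
      rw [mul_sum]
      refine sum_congr rfl fun a _ => ?_
      rw [mul_sum]
      exact sum_congr rfl fun a' _ => N_cast c hU h2 h4 a a'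
    rw [e1, this, sub_zero]
    show (c.Un : ℝ) ^ 2 * (1 / (c.t : ℝ)) = V
    rw [← hVr]
    field_simp
  -- the logarithmic sum
  have hpt : ∀ a a', (c.N a a' : ℝ) * Real.log (((c.r a : ℚ) : ℝ) + ((c.r a' : ℚ) : ℝ)) =
      (Real.log (((c.R a + c.R a') ^ (c.N a a').toNat : ℕ) : ℝ) -
        Real.log (((c.R a + c.R a') ^ (-c.N a a').toNat : ℕ) : ℝ)) - (c.N a a' : ℝ) * Real.log c.Dn := by
    intro a a'
    by_cases h0 : c.R a + c.R a' = 0
    · rw [hR a a' h0]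
      simp
    · have h00 : (0 : ℝ) < ((c.R a + c.R a' : ℕ) : ℝ) := by
        exact_mod_cast Nat.pos_of_ne_zero h0
      have e1 : ((c.r a : ℚ) : ℝ) + ((c.r a' : ℚ) : ℝ) = ((c.R a + c.R a' : ℕ) : ℝ) / c.Dn := by
        unfold QB.r
        push_cast
        ring
      rw [e1, Real.log_div h00.ne' hD0.ne', Nat.cast_pow, Nat.cast_pow, Real.log_pow, Real.log_pow]
      have e2 : (c.N a a' : ℝ) = ((c.N a a').toNat : ℝ) - ((-c.N a a').toNat : ℝ) := by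
        have := Int.toNat_sub_toNat_neg (c.N a a')
        exact_mod_cast this.symm
      rw [mul_sub]
      congr 1
      rw [← sub_mul, ← e2]
  have hLQ : (c.Un : ℝ) ^ 2 * c.base.LQ 0 = Real.log c.Pp - Real.log c.Pm - V * Real.log c.Dn := by
    unfold Base.LQ
    rw [mul_sum]
    have e1 : ∀ a, (c.Un : ℝ) ^ 2 * ∑ a', c.base.Q 0 a a' * Real.log (c.base.r a + c.base.r a') =
        ∑ a', ((Real.log (((c.R a + c.R a') ^ (c.N a a').toNat : ℕ) : ℝ) -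
        Real.log (((c.R a + c.R a') ^ (-c.N a a').toNat : ℕ) : ℝ)) - (c.N a a' : ℝ) * Real.log c.Dn) := by
      intro a
      rw [mul_sum]
      refine sum_congr rfl fun a' _ => ?_
      rw [← hpt, N_cast c hU h2 h4]
      show _ = (c.Un : ℝ) ^ 2 * c.base.Q 0 a a' * Real.log (c.base.r a + c.base.r a')
      ring
    rw [sum_congr rfl fun a _ => e1 a]
    simp only [sum_sub_distrib, ← sum_mul]
    rw [hsumN]
    have hne : ∀ (N : Fin m → Fin m → ℕ), (∀ a a', c.R a + c.R a' = 0 → N a a' = 0) → ∀ a a',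
        (((c.R a + c.R a') ^ (N a a') : ℕ) : ℝ) ≠ 0 := by
      intro N hN a a'
      by_cases h0 : c.R a + c.R a' = 0
      · rw [hN a a' h0]; simp
      · have : (c.R a + c.R a') ^ (N a a') ≠ 0 := pow_ne_zero _ h0
        exact_mod_cast this
    have hne1 := hne (fun a a' => (c.N a a').toNat) (fun a a' h => by rw [hR a a' h]; rfl)
    have hne2 := hne (fun a a' => (-c.N a a').toNat) (fun a a' h => by rw [hR a a' h]; rfl)
    have e2 : Real.log c.Pp = ∑ a, ∑ a', Real.log (((c.R a + c.R a') ^ (c.N a a').toNat : ℕ) : ℝ) := by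
      unfold QB.Pp
      rw [Nat.cast_prod, Real.log_prod (fun a _ => ?_)]
      · refine sum_congr rfl fun a _ => ?_
        rw [Nat.cast_prod, Real.log_prod (fun a' _ => hne1 a a')]
      · rw [Nat.cast_prod]
        exact prod_ne_zero_iff.2 fun a' _ => hne1 a a'
    have e3 : Real.log c.Pm = ∑ a, ∑ a', Real.log (((c.R a + c.R a') ^ (-c.N a a').toNat : ℕ) : ℝ) := by
      unfold QB.Pm
      rw [Nat.cast_prod, Real.log_prod (fun a _ => ?_)]
      · refine sum_congr rfl fun a _ => ?_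
        rw [Nat.cast_prod, Real.log_prod (fun a' _ => hne2 a a')]
      · rw [Nat.cast_prod]
        exact prod_ne_zero_iff.2 fun a' _ => hne2 a a'
    rw [e2, e3]
  -- positivity of the products
  have hPp : 0 < c.Pp := by
    unfold QB.Pp
    refine Finset.prod_pos fun a _ => Finset.prod_pos fun a' _ => ?_
    by_cases h0 : c.R a + c.R a' = 0
    · rw [hR a a' h0]; simp
    · exact Nat.pow_pos (Nat.pos_of_ne_zero h0)
  have hPm : 0 < c.Pm := by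
    unfold QB.Pm
    refine Finset.prod_pos fun a _ => Finset.prod_pos fun a' _ => ?_
    by_cases h0 : c.R a + c.R a' = 0
    · rw [hR a a' h0]; simp
    · exact Nat.pow_pos (Nat.pos_of_ne_zero h0)
  have hPp' : (0 : ℝ) < c.Pp := by exact_mod_cast hPp
  have hPm' : (0 : ℝ) < c.Pm := by exact_mod_cast hPm
  -- the inequality
  have hlt' : (c.Pp : ℝ) * (An * 27182818286) ^ V < c.Pm * (c.Dn * Ad * 10000000000) ^ V := by
    exact_mod_cast hlt
  have hlog := Real.log_lt_log (by positivity) hlt'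
  have l1 : Real.log ((c.Pp : ℝ) * (An * 27182818286) ^ V) =
      Real.log c.Pp + V * (Real.log An + Real.log 27182818286) := by
    rw [Real.log_mul hPp'.ne' (by positivity), Real.log_pow, Real.log_mul hAn0.ne' (by norm_num)]
  have l2 : Real.log ((c.Pm : ℝ) * (c.Dn * Ad * 10000000000) ^ V) =
      Real.log c.Pm + V * (Real.log c.Dn + Real.log Ad + Real.log (10000000000)) := by
    rw [Real.log_mul hPm'.ne' (by positivity), Real.log_pow, Real.log_mul (by positivity) (by norm_num),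
      Real.log_mul hD0.ne' hAd0.ne']
  rw [l1, l2] at hlog
  have hexp : (1 : ℝ) < Real.log (27182818286 / 10000000000) := by
    rw [Real.lt_log_iff_exp_lt (by norm_num)]
    have := Real.exp_one_lt_d9
    norm_num
    linarith
  rw [Real.log_div (by norm_num) (by norm_num)] at hexp
  have ht1 : (c.base.t : ℝ) = c.t := rfl
  have hLQ2 : (c.t : ℝ) * c.base.LQ 0 = (Real.log c.Pp - Real.log c.Pm) / V - Real.log c.Dn := by
    have : (V : ℝ) * (c.t * c.base.LQ 0) = Real.log c.Pp - Real.log c.Pm - V * Real.log c.Dn := by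
      rw [← hLQ, ← hVr]; ring
    field_simp
    linarith
  rw [ht1, hLQ2, Real.log_div hAn0.ne' hAd0.ne']
  have h9 : (Real.log c.Pp - Real.log c.Pm) / V < Real.log c.Dn + Real.log Ad + Real.log (10000000000) -
      (Real.log An + Real.log 27182818286) := by
    rw [div_lt_iff₀ hV0]
    linarith
  linarith

end

end Pool.Agent.H84.Mom
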