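import Mathlib

set_option autoImplicit false

/-! Combinatorial lemmas: local factors of balanced sums. -/

namespace Pool.Agent.H84.Mom

open Finset

/-- swapping the order of products and sums -/
lemma sum_swap {κ P S : Type*} [Fintype κ] [Fintype P] [DecidableEq κ] [DecidableEq P] [Fintype S]
    (g : P → (κ → S) → ℝ) :
    ∑ Φ : κ → P → S, ∏ p, g p (fun c => Φ c p) = ∏ p, ∑ s : κ → S, g p s := by
  rw [Finset.prod_univ_sum, Fintype.piFinset_univ]
  exact Fintype.sum_equiv (Equiv.piComm (fun (_ : κ) (_ : P) => S)) _ _ (fun Φ => rfl)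

/-- the sign of a state -/
def sg3 (s : Fin 3) : ℤ := if s = 1 then 1 else if s = 2 then -1 else 0

/-- the imbalance -/
def imb {κ : Type*} [Fintype κ] (s : κ → Fin 3) : ℤ := ∑ c, sg3 (s c)

/-- the weight of a state -/
def wt3 (x y : ℝ) (s : Fin 3) : ℝ := if s = 1 then x else if s = 2 then y else 1

lemma wt3_nonneg {x y : ℝ} (hx : 0 ≤ x) (hy : 0 ≤ y) (s : Fin 3) : 0 ≤ wt3 x y s := by
  unfold wt3; split_ifs <;> linarith

/-- the sum of the weights with imbalance `d` -/
noncomputable def Asum {κ : Type*} [Fintype κ] [DecidableEq κ] (x y : κ → ℝ) (d : ℤ) : ℝ :=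
  ∑ s : κ → Fin 3, if imb s = d then ∏ c, wt3 (x c) (y c) (s c) else 0

lemma Asum_nonneg {κ : Type*} [Fintype κ] [DecidableEq κ] {x y : κ → ℝ} (hx : ∀ c, 0 ≤ x c)
    (hy : ∀ c, 0 ≤ y c) (d : ℤ) : 0 ≤ Asum x y d := by
  unfold Asum
  refine sum_nonneg fun s _ => ?_
  split_ifs
  · exact prod_nonneg fun c _ => wt3_nonneg (hx c) (hy c) _
  · exact le_refl _

lemma Asum_succ {m : ℕ} (x y : Fin (m + 1) → ℝ) (d : ℤ) :
    Asum x y d = Asum (fun c : Fin m => x c.succ) (fun c : Fin m => y c.succ) d +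
      x 0 * Asum (fun c : Fin m => x c.succ) (fun c : Fin m => y c.succ) (d - 1) +
      y 0 * Asum (fun c : Fin m => x c.succ) (fun c : Fin m => y c.succ) (d + 1) := by
  unfold Asum
  rw [← (Fin.consEquiv (fun _ : Fin (m + 1) => Fin 3)).sum_comp, Fintype.sum_prod_type]
  rw [Fin.sum_univ_three]
  have h : ∀ (a : Fin 3) (s : Fin m → Fin 3),
      imb ((Fin.consEquiv (fun _ : Fin (m + 1) => Fin 3)) (a, s)) = sg3 a + imb s := by
    intro a s
    unfold imb
    rw [Fin.sum_univ_succ]
    rfl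
  have h2 : ∀ (a : Fin 3) (s : Fin m → Fin 3),
      ∏ c, wt3 (x c) (y c) ((Fin.consEquiv (fun _ : Fin (m + 1) => Fin 3)) (a, s) c) =
        wt3 (x 0) (y 0) a * ∏ c : Fin m, wt3 (x c.succ) (y c.succ) (s c) := by
    intro a s
    rw [Fin.prod_univ_succ]
    rfl
  simp only [h, h2]
  have e0 : sg3 0 = 0 := rfl
  have e1 : sg3 1 = 1 := rfl
  have e2 : sg3 2 = -1 := rfl
  have w0 : wt3 (x 0) (y 0) 0 = 1 := rfl
  have w1 : wt3 (x 0) (y 0) 1 = x 0 := rfl
  have w2 : wt3 (x 0) (y 0) 2 = y 0 := rfl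
  rw [e0, e1, e2, w0, w1, w2, mul_sum, mul_sum]
  congr 1
  · congr 1
    · refine sum_congr rfl fun s _ => ?_
      rw [zero_add, one_mul]
    · refine sum_congr rfl fun s _ => ?_
      have : (1 + imb s = d) ↔ (imb s = d - 1) := by constructor <;> intro h <;> linarith
      simp only [this]
      split_ifs <;> ring
  · refine sum_congr rfl fun s _ => ?_
    have : (-1 + imb s = d) ↔ (imb s = d + 1) := by constructor <;> intro h <;> linarith
    simp only [this]
    split_ifs <;> ring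

lemma Asum_bound : ∀ (m : ℕ) (x y : Fin m → ℝ), (∀ c, 0 ≤ x c) → (∀ c, 0 ≤ y c) → ∀ d : ℕ,
    Asum x y d ≤ (∑ c, x c) ^ d * Real.exp ((∑ c, x c) * (∑ c, y c) - ∑ c, x c * y c) ∧
    Asum x y (-d) ≤ (∑ c, y c) ^ d * Real.exp ((∑ c, x c) * (∑ c, y c) - ∑ c, x c * y c) := by
  intro m
  induction m with
  | zero =>
    intro x y _ _ d
    simp only [univ_eq_empty, sum_empty, mul_zero, sub_zero, Real.exp_zero, mul_one]
    unfold Asum imb
    simp only [univ_eq_empty, sum_empty, prod_empty, univ_unique, sum_const, card_singleton, one_smul]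
    rcases Nat.eq_zero_or_pos d with h | h
    · subst h; simp
    · have h1 : ¬ ((0 : ℤ) = d) := by omega
      have h2 : ¬ ((0 : ℤ) = -d) := by omega
      rw [if_neg h1, if_neg h2, zero_pow (by omega)]
      simp
  | succ m ih =>
    intro x y hx hy d
    set x' : Fin m → ℝ := fun c => x c.succ with hx'
    set y' : Fin m → ℝ := fun c => y c.succ with hy'
    have ih' := ih x' y' (fun c => hx _) (fun c => hy _)
    set X := ∑ c, x' c with hX
    set Y := ∑ c, y' c with hY
    have hX0 : 0 ≤ X := sum_nonneg fun c _ => hx _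
    have hY0 : 0 ≤ Y := sum_nonneg fun c _ => hy _
    have hx0 := hx 0
    have hy0 := hy 0
    set E := Real.exp (X * Y - ∑ c, x' c * y' c) with hE
    have hE0 : 0 < E := Real.exp_pos _
    have eX : ∑ c, x c = x 0 + X := by rw [Fin.sum_univ_succ]
    have eY : ∑ c, y c = y 0 + Y := by rw [Fin.sum_univ_succ]
    have eXY : ∑ c, x c * y c = x 0 * y 0 + ∑ c, x' c * y' c := by rw [Fin.sum_univ_succ]
    have hexp : Real.exp ((∑ c, x c) * (∑ c, y c) - ∑ c, x c * y c) =
        E * Real.exp (x 0 * Y + y 0 * X) := by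
      rw [hE, ← Real.exp_add, eX, eY, eXY]
      congr 1
      ring
    have hexp2 : 1 + (x 0 * Y + y 0 * X) ≤ Real.exp (x 0 * Y + y 0 * X) := by
      have := Real.add_one_le_exp (x 0 * Y + y 0 * X)
      linarith
    rw [hexp, eX, eY]
    have bern : ∀ (u v : ℝ), 0 ≤ u → 0 ≤ v → ∀ n : ℕ, v ^ (n + 1) + u * v ^ n ≤ (u + v) ^ (n + 1) := by
      intro u v hu hv n
      induction n with
      | zero => simp; linarith
      | succ n ihn =>
        have h1 : (u + v) ^ (n + 1 + 1) = (u + v) ^ (n + 1) * (u + v) := by ring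
        rw [h1]
        have h2 : (v ^ (n + 1) + u * v ^ n) * (u + v) ≤ (u + v) ^ (n + 1) * (u + v) :=
          mul_le_mul_of_nonneg_right ihn (by linarith)
        have h3 : v ^ (n + 1 + 1) + u * v ^ (n + 1) ≤ (v ^ (n + 1) + u * v ^ n) * (u + v) := by
          have : (v ^ (n + 1) + u * v ^ n) * (u + v) =
              v ^ (n + 1 + 1) + u * v ^ (n + 1) + u * v ^ (n + 1) + u * u * v ^ n := by ring
          rw [this]
          have : 0 ≤ u * v ^ (n + 1) := by positivity
          have : 0 ≤ u * u * v ^ n := by positivity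
          linarith
        linarith
    -- the common estimate
    have key : ∀ (u v U V : ℝ), 0 ≤ u → 0 ≤ v → 0 ≤ U → 0 ≤ V →
        (u * V + v * U = x 0 * Y + y 0 * X) → ∀ (n : ℕ),
        U ^ (n + 1) * E + u * (U ^ n * E) + v * (U ^ (n + 2) * E) ≤
          (u + U) ^ (n + 1) * (E * Real.exp (x 0 * Y + y 0 * X)) := by
      intro u v U V hu hv hU hV huv n
      have h1 := bern u U hu hU n
      have h4 : U ^ (n + 1) ≤ (u + U) ^ (n + 1) := pow_le_pow_left₀ hU (by linarith) _
      have h5 : 0 ≤ U ^ (n + 1) := by positivity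
      have h6 : 0 ≤ (u + U) ^ (n + 1) := by positivity
      have h2 : (u + U) ^ (n + 1) * (1 + v * U) ≤ (u + U) ^ (n + 1) * Real.exp (x 0 * Y + y 0 * X) := by
        refine mul_le_mul_of_nonneg_left ?_ h6
        have : 0 ≤ u * V := by positivity
        linarith
      have h3 : U ^ (n + 1) + u * U ^ n + v * U ^ (n + 2) ≤ (u + U) ^ (n + 1) * (1 + v * U) := by
        have e1 : (u + U) ^ (n + 1) * (1 + v * U) = (u + U) ^ (n + 1) + (v * U) * (u + U) ^ (n + 1) := by ring
        have e2 : v * U ^ (n + 2) = (v * U) * U ^ (n + 1) := by ring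
        rw [e1, e2]
        have : (v * U) * U ^ (n + 1) ≤ (v * U) * (u + U) ^ (n + 1) :=
          mul_le_mul_of_nonneg_left h4 (by positivity)
        linarith
      calc _ = (U ^ (n + 1) + u * U ^ n + v * U ^ (n + 2)) * E := by ring
        _ ≤ ((u + U) ^ (n + 1) * Real.exp (x 0 * Y + y 0 * X)) * E :=
          mul_le_mul_of_nonneg_right (h3.trans h2) hE0.le
        _ = _ := by ring
    rcases Nat.eq_zero_or_pos d with hd | hd
    · subst hd
      have h0 := (ih' 0).1
      have h1 := (ih' 1).1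
      have h2 := (ih' 1).2
      simp only [Nat.cast_zero, pow_zero, one_mul, neg_zero, Nat.cast_one, pow_one] at h0 h1 h2 ⊢
      rw [Asum_succ]
      simp only [zero_sub, zero_add]
      have h3 : Asum x' y' 0 + x 0 * Asum x' y' (-1) + y 0 * Asum x' y' 1 ≤
          E * Real.exp (x 0 * Y + y 0 * X) := by
        have a1 := mul_le_mul_of_nonneg_left h2 hx0
        have a2 := mul_le_mul_of_nonneg_left h1 hy0
        have a3 := mul_le_mul_of_nonneg_left hexp2 hE0.le
        nlinarith
      exact ⟨h3, h3⟩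
    · obtain ⟨n, rfl⟩ : ∃ n, d = n + 1 := ⟨d - 1, by omega⟩
      constructor
      · rw [Asum_succ]
        have e1 : ((n + 1 : ℕ) : ℤ) - 1 = (n : ℕ) := by push_cast; ring
        have e2 : ((n + 1 : ℕ) : ℤ) + 1 = ((n + 2 : ℕ) : ℤ) := by push_cast; ring
        rw [e1, e2]
        have a0 := (ih' (n + 1)).1
        have a1 := mul_le_mul_of_nonneg_left (ih' n).1 hx0
        have a2 := mul_le_mul_of_nonneg_left (ih' (n + 2)).1 hy0
        have := key (x 0) (y 0) X Y hx0 hy0 hX0 hY0 rfl n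
        linarith
      · rw [Asum_succ]
        have e1 : -((n + 1 : ℕ) : ℤ) - 1 = -((n + 2 : ℕ) : ℤ) := by push_cast; ring
        have e2 : -((n + 1 : ℕ) : ℤ) + 1 = -((n : ℕ) : ℤ) := by push_cast; ring
        rw [e1, e2]
        have a0 := (ih' (n + 1)).2
        have a1 := mul_le_mul_of_nonneg_left (ih' n).2 hy0
        have a2 := mul_le_mul_of_nonneg_left (ih' (n + 2)).2 hx0
        have := key (y 0) (x 0) Y X hy0 hx0 hY0 hX0 (by ring) n
        linarith

lemma Asum_equiv {κ κ' : Type*} [Fintype κ] [DecidableEq κ] [Fintype κ'] [DecidableEq κ'] (e : κ ≃ κ')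
    (x y : κ → ℝ) (d : ℤ) : Asum x y d = Asum (fun c => x (e.symm c)) (fun c => y (e.symm c)) d := by
  unfold Asum
  refine Fintype.sum_equiv (e.arrowCongr (Equiv.refl (Fin 3))) _ _ fun s => ?_
  have h1 : imb ((e.arrowCongr (Equiv.refl (Fin 3))) s) = imb s := by
    unfold imb
    exact (Fintype.sum_equiv e _ _ fun c => by simp [Equiv.arrowCongr]).symm
  have h2 : ∏ c, wt3 (x (e.symm c)) (y (e.symm c)) ((e.arrowCongr (Equiv.refl (Fin 3))) s c) =
      ∏ c, wt3 (x c) (y c) (s c) := by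
    exact (Fintype.prod_equiv e _ _ fun c => by simp [Equiv.arrowCongr]).symm
  rw [h1, h2]

/-- the balanced sum -/
theorem bal_bound {κ : Type*} [Fintype κ] [DecidableEq κ] (x y : κ → ℝ) (hx : ∀ c, 0 ≤ x c)
    (hy : ∀ c, 0 ≤ y c) :
    Asum x y 0 ≤ Real.exp ((∑ c, x c) * (∑ c, y c) - ∑ c, x c * y c) := by
  set e := Fintype.equivFin κ with he
  rw [Asum_equiv e]
  have h := (Asum_bound _ (fun c => x (e.symm c)) (fun c => y (e.symm c)) (fun c => hx _)
    (fun c => hy _) 0).1
  simp only [Nat.cast_zero, pow_zero, one_mul] at h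
  refine h.trans (le_of_eq ?_)
  congr 1
  congr 1
  · congr 1
    · exact (Fintype.sum_equiv e _ _ fun c => by simp).symm
    · exact (Fintype.sum_equiv e _ _ fun c => by simp).symm
  · exact (Fintype.sum_equiv e _ _ fun c => by simp).symm

end Pool.Agent.H84.Mom
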