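import Pool.Graph.R_seed8.H802R2.MK_R1
import Pool.Graph.R_seed8.H295R2.MK.R2
import Pool.Graph.R_seed8.H306R2.RWindow
import Pool.Agent.H84.Mom.Swap

set_option autoImplicit false

/-! Window means of products of test functions with rational frequencies. -/

namespace Pool.Agent.H84.Mom

open Finset Filter Topology MeasureTheory Complex
open Pool.Agent.H306R2 (Yt Ht gw dv)
open H295MK (fr win winR mt cl)

noncomputable section

variable {P : Finset ℕ}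

/-- the product of the primes in the state `s` -/
def num (s : Fin 3) (φ : P → Fin 3) : ℕ := ∏ p : P, if φ p = s then (p : ℕ) else 1

/-- the coefficients of a test function -/
def cf (u : ℕ → Fin 3 → ℝ) (XA XB : ℝ) (φ : P → Fin 3) : ℝ :=
  if (num 1 φ : ℝ) ≤ XA ∧ (num 2 φ : ℝ) ≤ XB then ∏ p : P, u p (φ p) else 0

variable (P) in
/-- the test function -/
def UU (u : ℕ → Fin 3 → ℝ) (XA XB : ℝ) (t : ℝ) : ℂ :=
  ∑ φ : P → Fin 3, (cf u XA XB φ : ℂ) * fr (num 1 φ) (num 2 φ) t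

/-- exchanging the states `1` and `2` -/
def sw (u : ℕ → Fin 3 → ℝ) : ℕ → Fin 3 → ℝ := fun p s => u p (Equiv.swap 1 2 s)

lemma fr_conj (a b : ℕ) (t : ℝ) : (starRingEnd ℂ) (fr a b t) = fr b a t := by
  unfold H295MK.fr
  rw [← Complex.exp_conj, map_mul, Complex.conj_ofReal, Complex.conj_I]
  congr 1
  push_cast
  ring

lemma fr_cont (a b : ℕ) : Continuous (fr a b) := by
  unfold H295MK.fr
  fun_prop

lemma num_swap (s : Fin 3) (φ : P → Fin 3) :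
    num s (fun p => Equiv.swap 1 2 (φ p)) = num (Equiv.swap 1 2 s) φ := by
  unfold num
  refine prod_congr rfl fun p _ => ?_
  have h : (Equiv.swap (1 : Fin 3) 2 (φ p) = s) ↔ (φ p = Equiv.swap 1 2 s) := by
    rw [Equiv.swap_apply_eq_iff]
  simp only [h]

lemma UU_conj (u : ℕ → Fin 3 → ℝ) (XA XB : ℝ) (t : ℝ) :
    (starRingEnd ℂ) (UU P u XA XB t) = UU P (sw u) XB XA t := by
  unfold UU
  rw [map_sum]
  refine Fintype.sum_equiv ((Equiv.refl P).arrowCongr (Equiv.swap (1 : Fin 3) 2)) _ _ fun φ => ?_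
  rw [map_mul, Complex.conj_ofReal, fr_conj]
  have e : ((Equiv.refl P).arrowCongr (Equiv.swap (1 : Fin 3) 2)) φ = fun p => Equiv.swap 1 2 (φ p) := rfl
  rw [e, num_swap, num_swap, Equiv.swap_apply_left, Equiv.swap_apply_right]
  congr 2
  unfold cf sw
  rw [num_swap, num_swap, Equiv.swap_apply_left, Equiv.swap_apply_right]
  simp only [Equiv.swap_apply_self]
  congr 1
  exact propext and_comm

lemma UU_cont (u : ℕ → Fin 3 → ℝ) (XA XB : ℝ) : Continuous (UU P u XA XB) := by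
  unfold UU
  exact continuous_finsetSum _ fun φ _ => continuous_const.mul (fr_cont _ _)

lemma num_pos (hP : ∀ p ∈ P, Nat.Prime p) (s : Fin 3) (φ : P → Fin 3) : 1 ≤ num s φ := by
  unfold num
  refine Nat.one_le_iff_ne_zero.2 (prod_ne_zero_iff.2 fun p _ => ?_)
  split_ifs
  · exact (hP p p.2).ne_zero
  · exact one_ne_zero

lemma fr_prod {κ : Type*} (S : Finset κ) (a b : κ → ℕ) (ha : ∀ c, 1 ≤ a c) (hb : ∀ c, 1 ≤ b c)
    (t : ℝ) : ∏ c ∈ S, fr (a c) (b c) t = fr (∏ c ∈ S, a c) (∏ c ∈ S, b c) t := by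
  unfold H295MK.fr
  rw [← Complex.exp_sum]
  congr 1
  rw [← sum_mul]
  congr 1
  rw [← Complex.ofReal_sum]
  congr 1
  rw [← sum_mul]
  congr 1
  push_cast
  rw [Real.log_prod (fun c _ => by have := hb c; positivity),
    Real.log_prod (fun c _ => by have := ha c; positivity), sum_sub_distrib]

section family

variable {κ : Type*} [Fintype κ] [DecidableEq κ]
variable (u : κ → ℕ → Fin 3 → ℝ) (XA XB : κ → ℝ)

lemma prod_UU (hP : ∀ p ∈ P, Nat.Prime p) (t : ℝ) :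
    ∏ c, UU P (u c) (XA c) (XB c) t =
      ∑ Φ : κ → P → Fin 3, ((∏ c, cf (u c) (XA c) (XB c) (Φ c) : ℝ) : ℂ) *
        fr (∏ c, num 1 (Φ c)) (∏ c, num 2 (Φ c)) t := by
  unfold UU
  rw [Finset.prod_univ_sum, Fintype.piFinset_univ]
  refine sum_congr rfl fun Φ _ => ?_
  rw [prod_mul_distrib, fr_prod _ _ _ (fun c => num_pos hP _ _) (fun c => num_pos hP _ _)]
  push_cast
  rfl

lemma num_dvd (hP : ∀ p ∈ P, Nat.Prime p) (s : Fin 3) (φ : P → Fin 3) (p : P) :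
    (p : ℕ) ∣ num s φ ↔ φ p = s := by
  unfold num
  constructor
  · intro h
    rw [(hP p p.2).prime.dvd_finsetProd_iff] at h
    obtain ⟨r, -, hr⟩ := h
    split_ifs at hr with h1
    · have h2 : (p : ℕ) = r := (Nat.prime_dvd_prime_iff_eq (hP p p.2) (hP r r.2)).1 hr
      have h3 : p = r := Subtype.ext h2
      rw [h3]; exact h1
    · exact absurd (Nat.dvd_one.1 hr) (hP p p.2).one_lt.ne'
  · intro h
    refine dvd_trans ?_ (dvd_prod_of_mem (fun r : P => if φ r = s then (r : ℕ) else 1) (mem_univ p))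
    rw [if_pos h]

lemma num_inj (hP : ∀ p ∈ P, Nat.Prime p) {φ ψ : P → Fin 3} (h1 : num 1 φ = num 1 ψ)
    (h2 : num 2 φ = num 2 ψ) : φ = ψ := by
  funext p
  have a1 := num_dvd hP 1 φ p
  have b1 := num_dvd hP 1 ψ p
  have a2 := num_dvd hP 2 φ p
  have b2 := num_dvd hP 2 ψ p
  rw [h1] at a1
  rw [h2] at a2
  have c1 : φ p = 1 ↔ ψ p = 1 := a1.symm.trans b1
  have c2 : φ p = 2 ↔ ψ p = 2 := a2.symm.trans b2
  generalize φ p = x at *
  generalize ψ p = y at *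
  fin_cases x <;> fin_cases y <;> simp_all

lemma cf_nonneg {v : ℕ → Fin 3 → ℝ} (hv : ∀ p ∈ P, ∀ s, 0 ≤ v p s) (A B : ℝ) (φ : P → Fin 3) :
    0 ≤ cf v A B φ := by
  unfold cf
  split_ifs
  · exact prod_nonneg fun p _ => hv p p.2 _
  · exact le_refl _

lemma sum_cf_le (hP : ∀ p ∈ P, Nat.Prime p) {v : ℕ → Fin 3 → ℝ} (hv : ∀ p ∈ P, ∀ s, 0 ≤ v p s)
    (hv1 : ∀ p ∈ P, ∀ s, v p s ≤ 1) {A B : ℝ} (hA : 0 ≤ A) (hB : 0 ≤ B) :
    ∑ φ : P → Fin 3, cf v A B φ ≤ A * B := by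
  classical
  set S : Finset (P → Fin 3) := univ.filter fun φ => (num 1 φ : ℝ) ≤ A ∧ (num 2 φ : ℝ) ≤ B with hS
  have h1 : ∑ φ : P → Fin 3, cf v A B φ ≤ ∑ φ ∈ S, (1 : ℝ) := by
    rw [hS, sum_filter]
    refine sum_le_sum fun φ _ => ?_
    unfold cf
    split_ifs
    · exact prod_le_one (fun p _ => hv p p.2 _) (fun p _ => hv1 p p.2 _)
    · exact le_refl _
  have h2 : S.card ≤ (Icc 1 ⌊A⌋₊ ×ˢ Icc 1 ⌊B⌋₊).card := by
    refine Finset.card_le_card_of_injOn (fun φ => (num 1 φ, num 2 φ)) ?_ ?_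
    · intro φ hφ
      rw [hS] at hφ
      have hφ' := (mem_filter.1 (mem_coe.1 hφ)).2
      rw [mem_coe, mem_product, mem_Icc, mem_Icc]
      exact ⟨⟨num_pos hP _ _, Nat.le_floor hφ'.1⟩, ⟨num_pos hP _ _, Nat.le_floor hφ'.2⟩⟩
    · intro φ _ ψ _ h
      exact num_inj hP (congrArg Prod.fst h) (congrArg Prod.snd h)
  rw [card_product, Nat.card_Icc, Nat.card_Icc] at h2
  simp only [Nat.add_sub_cancel] at h2
  rw [sum_const, nsmul_eq_mul, mul_one] at h1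
  have h3 : (S.card : ℝ) ≤ (⌊A⌋₊ : ℝ) * ⌊B⌋₊ := by exact_mod_cast h2
  have h4 : (⌊A⌋₊ : ℝ) * ⌊B⌋₊ ≤ A * B :=
    mul_le_mul (Nat.floor_le hA) (Nat.floor_le hB) (by positivity) hA
  linarith

/-- bounds for the numbers -/
lemma num_le {v : ℕ → Fin 3 → ℝ} {A B : ℝ} {φ : P → Fin 3} (h : cf v A B φ ≠ 0) :
    (num 1 φ : ℝ) ≤ A ∧ (num 2 φ : ℝ) ≤ B := by
  unfold cf at h
  split_ifs at h with h1
  · exact h1
  · exact absurd rfl h

theorem win_family (hP : ∀ p ∈ P, Nat.Prime p) (hu : ∀ c, ∀ p ∈ P, ∀ s, 0 ≤ u c p s)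
    (hu1 : ∀ c, ∀ p ∈ P, ∀ s, u c p s ≤ 1) (hXA : ∀ c, 0 ≤ XA c) (hXB : ∀ c, 0 ≤ XB c)
    (j B : ℕ) (η δ T τ : ℝ) (hT : 0 < T)
    (hL : ∏ c, XA c ≤ T) (hR : ∏ c, XB c ≤ Yt η T)
    (h : ∀ a b : ℕ, 1 ≤ a → (a : ℝ) ≤ T → 1 ≤ b → (b : ℝ) ≤ Yt η T →
      ‖win η δ T τ (fun t => riemannZeta (cl t) ^ j * fr a b t) - (mt j a b : ℂ)‖ ≤ 1 / T ^ B) :
    ‖win η δ T τ (fun t => riemannZeta (cl t) ^ j * ∏ c, UU P (u c) (XA c) (XB c) t) -
      ((∑ Φ : κ → P → Fin 3, (∏ c, cf (u c) (XA c) (XB c) (Φ c)) *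
        mt j (∏ c, num 1 (Φ c)) (∏ c, num 2 (Φ c)) : ℝ) : ℂ)‖ ≤
      (∏ c, (XA c * XB c)) / T ^ B := by
  have hz : Continuous (fun t : ℝ => riemannZeta (cl t) ^ j) :=
    (Pool.Agent.H306R2.zeta_line_continuous).pow j
  have hg : Continuous (fun t : ℝ => (gw τ (Ht η T) t : ℂ)) := by
    unfold Pool.Agent.H306R2.gw
    fun_prop
  have e1 : win η δ T τ (fun t => riemannZeta (cl t) ^ j * ∏ c, UU P (u c) (XA c) (XB c) t) =
      ∑ Φ : κ → P → Fin 3, ((∏ c, cf (u c) (XA c) (XB c) (Φ c) : ℝ) : ℂ) *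
        win η δ T τ (fun t => riemannZeta (cl t) ^ j *
          fr (∏ c, num 1 (Φ c)) (∏ c, num 2 (Φ c)) t) := by
    unfold H295MK.win
    have h1 : ∀ t, riemannZeta (cl t) ^ j * (∏ c, UU P (u c) (XA c) (XB c) t) *
        (gw τ (Ht η T) t : ℂ) = ∑ Φ : κ → P → Fin 3, ((∏ c, cf (u c) (XA c) (XB c) (Φ c) : ℝ) : ℂ) *
        (riemannZeta (cl t) ^ j *
          fr (∏ c, num 1 (Φ c)) (∏ c, num 2 (Φ c)) t * (gw τ (Ht η T) t : ℂ)) := by
      intro t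
      rw [prod_UU u XA XB hP t, mul_sum, sum_mul]
      refine sum_congr rfl fun Φ _ => ?_
      ring
    rw [intervalIntegral.integral_congr (fun t _ => h1 t), intervalIntegral.integral_finsetSum]
    · refine sum_congr rfl fun Φ _ => ?_
      rw [intervalIntegral.integral_const_mul]
    · intro Φ _
      exact (continuous_const.mul ((hz.mul (fr_cont _ _)).mul hg)).intervalIntegrable _ _
  rw [e1]
  have e2 : ((∑ Φ : κ → P → Fin 3, (∏ c, cf (u c) (XA c) (XB c) (Φ c)) *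
        mt j (∏ c, num 1 (Φ c)) (∏ c, num 2 (Φ c)) : ℝ) : ℂ) =
      ∑ Φ : κ → P → Fin 3, ((∏ c, cf (u c) (XA c) (XB c) (Φ c) : ℝ) : ℂ) *
        ((mt j (∏ c, num 1 (Φ c)) (∏ c, num 2 (Φ c)) : ℝ) : ℂ) := by
    push_cast
    rfl
  rw [e2, ← sum_sub_distrib]
  have hcf : ∀ Φ : κ → P → Fin 3, 0 ≤ ∏ c, cf (u c) (XA c) (XB c) (Φ c) := fun Φ =>
    prod_nonneg fun c _ => cf_nonneg (hu c) _ _ _
  have h3 : ∀ Φ : κ → P → Fin 3,
      ‖((∏ c, cf (u c) (XA c) (XB c) (Φ c) : ℝ) : ℂ) *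
        win η δ T τ (fun t => riemannZeta (cl t) ^ j *
          fr (∏ c, num 1 (Φ c)) (∏ c, num 2 (Φ c)) t) -
        ((∏ c, cf (u c) (XA c) (XB c) (Φ c) : ℝ) : ℂ) *
        ((mt j (∏ c, num 1 (Φ c)) (∏ c, num 2 (Φ c)) : ℝ) : ℂ)‖ ≤
      (∏ c, cf (u c) (XA c) (XB c) (Φ c)) * (1 / T ^ B) := by
    intro Φ
    rw [← mul_sub, norm_mul, Complex.norm_real, Real.norm_of_nonneg (hcf Φ)]
    by_cases h0 : ∏ c, cf (u c) (XA c) (XB c) (Φ c) = 0
    · rw [h0]; simp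
    · refine mul_le_mul_of_nonneg_left ?_ (hcf Φ)
      have h0' : ∀ c, cf (u c) (XA c) (XB c) (Φ c) ≠ 0 := fun c => (prod_ne_zero_iff.1 h0) c (mem_univ c)
      refine h _ _ ?_ ?_ ?_ ?_
      · exact Finset.one_le_prod' fun c _ => num_pos hP _ _
      · push_cast
        refine (prod_le_prod (fun c _ => Nat.cast_nonneg _) fun c _ => (num_le (h0' c)).1).trans hL
      · exact Finset.one_le_prod' fun c _ => num_pos hP _ _
      · push_cast
        refine (prod_le_prod (fun c _ => Nat.cast_nonneg _) fun c _ => (num_le (h0' c)).2).trans hR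
  refine (norm_sum_le _ _).trans ((sum_le_sum fun Φ _ => h3 Φ).trans ?_)
  rw [← sum_mul]
  have h4 : ∑ Φ : κ → P → Fin 3, ∏ c, cf (u c) (XA c) (XB c) (Φ c) =
      ∏ c, ∑ φ : P → Fin 3, cf (u c) (XA c) (XB c) φ := by
    rw [Finset.prod_univ_sum, Fintype.piFinset_univ]
  rw [h4, mul_one_div]
  have hTB : 0 < T ^ B := by positivity
  refine div_le_div_of_nonneg_right ?_ hTB.le
  exact prod_le_prod (fun c _ => sum_nonneg fun φ _ => cf_nonneg (hu c) _ _ _)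
    fun c _ => sum_cf_le hP (hu c) (hu1 c) (hXA c) (hXB c)

end family

end

end Pool.Agent.H84.Mom
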