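import Pool.Agent.H84.Mom.Conc

set_option autoImplicit false
set_option linter.unusedSectionVars false

/-! Estimates on one window. -/

namespace Pool.Agent.H84.Mom

open Finset Filter Topology MeasureTheory Complex
open Pool.Agent.H306R2 (Yt Ht gw dv)
open H295MK (fr win winR mt cl)

noncomputable section

variable {P : Finset ℕ}

lemma sw_sw (u : ℕ → Fin 3 → ℝ) : sw (sw u) = u := by
  funext p s
  unfold sw
  rw [Equiv.swap_apply_self]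

lemma sw_zero (u : ℕ → Fin 3 → ℝ) (p : ℕ) : sw u p 0 = u p 0 := by
  unfold sw
  rw [Equiv.swap_apply_of_ne_of_ne (by decide) (by decide)]

lemma sw_one (u : ℕ → Fin 3 → ℝ) (p : ℕ) : sw u p 1 = u p 2 := by
  unfold sw
  rw [Equiv.swap_apply_left]

lemma sw_two (u : ℕ → Fin 3 → ℝ) (p : ℕ) : sw u p 2 = u p 1 := by
  unfold sw
  rw [Equiv.swap_apply_right]

theorem win_upper (hP : ∀ p ∈ P, Nat.Prime p) (v : ℕ → Fin 3 → ℝ) (hv : ∀ p ∈ P, ∀ s, 0 ≤ v p s)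
    (hv1 : ∀ p ∈ P, ∀ s, v p s ≤ 1) (hv0 : ∀ p ∈ P, v p 0 = 1) (XA XB : ℝ) (hXA : 0 ≤ XA) (hXB : 0 ≤ XB)
    (q : ℕ) (η δ T τ : ℝ) (hT : 1 ≤ T) (hYT : Yt η T ≤ T) (hcap : (XA * XB) ^ q ≤ Yt η T)
    (h : ∀ a b : ℕ, 1 ≤ a → (a : ℝ) ≤ T → 1 ≤ b → (b : ℝ) ≤ Yt η T →
      ‖win η δ T τ (fun t => riemannZeta (cl t) ^ 0 * fr a b t) - (mt 0 a b : ℂ)‖ ≤ 1 / T ^ 3) :
    ∫ t in (τ - δ / 2 * T)..(τ + δ / 2 * T), ‖UU P v XA XB t‖ ^ (2 * q) * gw τ (Ht η T) t ≤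
      2 * Real.exp (∑ p : P, ((q : ℝ) ^ 2 * (v p 1 + v p 2) ^ 2 - 2 * q * (v p 1 * v p 2))) := by
  set u : Fin q ⊕ Fin q → ℕ → Fin 3 → ℝ := Sum.elim (fun _ => v) (fun _ => sw v) with hu
  set XA' : Fin q ⊕ Fin q → ℝ := Sum.elim (fun _ => XA) (fun _ => XB) with hXA'
  set XB' : Fin q ⊕ Fin q → ℝ := Sum.elim (fun _ => XB) (fun _ => XA) with hXB'
  have e1 : ∏ c, XA' c = (XA * XB) ^ q := by
    rw [Fintype.prod_sum_type, hXA']
    simp only [Sum.elim_inl, Sum.elim_inr, prod_const, card_univ, Fintype.card_fin]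
    rw [mul_pow]
  have e2 : ∏ c, XB' c = (XA * XB) ^ q := by
    rw [Fintype.prod_sum_type, hXB']
    simp only [Sum.elim_inl, Sum.elim_inr, prod_const, card_univ, Fintype.card_fin]
    rw [mul_pow, mul_comm]
  have hu0 : ∀ c, ∀ p ∈ P, ∀ s, 0 ≤ u c p s := by
    rintro (c | c) p hp s
    · exact hv p hp s
    · exact hv p hp _
  have hu1 : ∀ c, ∀ p ∈ P, ∀ s, u c p s ≤ 1 := by
    rintro (c | c) p hp s
    · exact hv1 p hp s
    · exact hv1 p hp _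
  have huz : ∀ c, ∀ p ∈ P, u c p 0 = 1 := by
    rintro (c | c) p hp
    · exact hv0 p hp
    · show sw v p 0 = 1
      rw [sw_zero]
      exact hv0 p hp
  have hA0 : ∀ c, 0 ≤ XA' c := by
    rintro (c | c)
    · exact hXA
    · exact hXB
  have hB0 : ∀ c, 0 ≤ XB' c := by
    rintro (c | c)
    · exact hXB
    · exact hXA
  have hT0 : 0 < T := by linarith
  have hw := win_family u XA' XB' hP hu0 hu1 hA0 hB0 0 3 η δ T τ hT0 (by rw [e1]; exact hcap.trans hYT)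
    (by rw [e2]; exact hcap) h
  have hup := eul_upper u XA' XB' hP hu0 huz
  set M := ∑ Φ : (Fin q ⊕ Fin q) → P → Fin 3, (∏ c, cf (u c) (XA' c) (XB' c) (Φ c)) *
        mt 0 (∏ c, num 1 (Φ c)) (∏ c, num 2 (Φ c)) with hM
  have e3 : win η δ T τ (fun t => riemannZeta (cl t) ^ 0 * ∏ c, UU P (u c) (XA' c) (XB' c) t) =
      ((∫ t in (τ - δ / 2 * T)..(τ + δ / 2 * T), ‖UU P v XA XB t‖ ^ (2 * q) * gw τ (Ht η T) t : ℝ) : ℂ) := by
    unfold H295MK.win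
    rw [← intervalIntegral.integral_ofReal]
    refine intervalIntegral.integral_congr fun t _ => ?_
    dsimp only
    rw [pow_zero, one_mul, Fintype.prod_sum_type]
    push_cast
    congr 1
    rw [hu, hXA', hXB']
    simp only [Sum.elim_inl, Sum.elim_inr, prod_const, card_univ, Fintype.card_fin]
    rw [← UU_conj, ← mul_pow, Complex.mul_conj, Complex.normSq_eq_norm_sq, pow_mul]
    push_cast
    rfl
  rw [e3, ← Complex.ofReal_sub, Complex.norm_real] at hw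
  have hw2 := (abs_le.1 (Real.norm_eq_abs _ ▸ hw)).2
  have herr : (∏ c, (XA' c * XB' c)) / T ^ 3 ≤ 1 := by
    rw [prod_mul_distrib, e1, e2, div_le_one (by positivity)]
    have h1 : (XA * XB) ^ q ≤ T := hcap.trans hYT
    have h0 : 0 ≤ (XA * XB) ^ q := by positivity
    calc (XA * XB) ^ q * (XA * XB) ^ q ≤ T * T := mul_le_mul h1 h1 h0 hT0.le
      _ ≤ T * T * T := by nlinarith [mul_pos hT0 hT0]
      _ = T ^ 3 := by ring
  have hexp : ∏ p : P, Real.exp ((∑ c, u c p 1) * (∑ c, u c p 2) - ∑ c, u c p 1 * u c p 2) =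
      Real.exp (∑ p : P, ((q : ℝ) ^ 2 * (v p 1 + v p 2) ^ 2 - 2 * q * (v p 1 * v p 2))) := by
    rw [Real.exp_sum]
    refine prod_congr rfl fun p _ => ?_
    congr 1
    rw [Fintype.sum_sum_type, Fintype.sum_sum_type, Fintype.sum_sum_type, hu]
    simp only [Sum.elim_inl, Sum.elim_inr, sum_const, card_univ, Fintype.card_fin, nsmul_eq_mul,
      sw_one, sw_two]
    ring
  rw [hexp] at hup
  have h1 : (1 : ℝ) ≤ Real.exp (∑ p : P, ((q : ℝ) ^ 2 * (v p 1 + v p 2) ^ 2 - 2 * q * (v p 1 * v p 2))) := by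
    rw [← Real.exp_zero]
    refine Real.exp_le_exp.2 (sum_nonneg fun p _ => ?_)
    rcases Nat.eq_zero_or_pos q with h0 | h0
    · subst h0; simp
    · have hq : (1 : ℝ) ≤ q := by exact_mod_cast h0
      have a1 := hv p p.2 1
      have a2 := hv p p.2 2
      have a3 : 0 ≤ v p 1 * v p 2 := mul_nonneg a1 a2
      have a4 : (q : ℝ) ≤ (q : ℝ) ^ 2 := by nlinarith
      have a5 : 4 * (v p 1 * v p 2) ≤ (v p 1 + v p 2) ^ 2 := by nlinarith [sq_nonneg (v p 1 - v p 2)]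
      have a6 : (q : ℝ) ^ 2 * (4 * (v p 1 * v p 2)) ≤ (q : ℝ) ^ 2 * (v p 1 + v p 2) ^ 2 :=
        mul_le_mul_of_nonneg_left a5 (by positivity)
      have a7 : (q : ℝ) * (v p 1 * v p 2) ≤ (q : ℝ) ^ 2 * (v p 1 * v p 2) :=
        mul_le_mul_of_nonneg_right a4 a3
      nlinarith
  linarith

/-- the index set of the correlation -/
theorem win_lower {n : ℕ} (hP : ∀ p ∈ P, Nat.Prime p) (u : Option (Fin n) → ℕ → Fin 3 → ℝ)
    (hu : ∀ c, ∀ p ∈ P, ∀ s, 0 ≤ u c p s) (hu1 : ∀ c, ∀ p ∈ P, ∀ s, u c p s ≤ 1)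
    (hu0 : ∀ c, ∀ p ∈ P, u c p 0 = 1) (XA XB : Option (Fin n) → ℝ) (hXA : ∀ c, 0 < XA c)
    (hXB : ∀ c, 0 < XB c) (j : ℕ) (η δ T τ : ℝ) (hT : 4 ≤ T) (hYT : Yt η T ≤ T)
    (hL : ∏ c, XA c ≤ T) (hR : ∏ c, XB c ≤ Yt η T)
    (h : ∀ a b : ℕ, 1 ≤ a → (a : ℝ) ≤ T → 1 ≤ b → (b : ℝ) ≤ Yt η T →
      ‖win η δ T τ (fun t => riemannZeta (cl t) ^ j * fr a b t) - (mt j a b : ℂ)‖ ≤ 1 / T ^ 3)
    (θ : ℝ) (hθ : 0 ≤ θ)
    (htail : ∑ c, (XA c ^ (-θ) * Real.exp (∑ p : P, (((p : ℕ) : ℝ) ^ θ - 1) * W1 u c p) +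
        XB c ^ (-θ) * Real.exp (∑ p : P, (((p : ℕ) : ℝ) ^ θ - 1) * W2 j u c p)) ≤ 1 / 2)
    (hpos : 0 ≤ ∑ p : P, (WW j u p - WW j u p ^ 2 / 2)) :
    Real.exp (∑ p : P, (WW j u p - WW j u p ^ 2 / 2)) / 4 ≤
    ‖∫ t in (τ - δ / 2 * T)..(τ + δ / 2 * T), (riemannZeta (1 / 2 + t * Complex.I) ^ j *
      ∏ i, UU P (u (some i)) (XA (some i)) (XB (some i)) t) *
      (starRingEnd ℂ) (UU P (sw (u none)) (XB none) (XA none) t) * (gw τ (Ht η T) t : ℂ)‖ := by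
  have hT0 : 0 < T := by linarith
  have hw := win_family u XA XB hP hu hu1 (fun c => (hXA c).le) (fun c => (hXB c).le) j 3 η δ T τ hT0
    hL hR h
  have hlow := eul_lower u j XA XB hXA hXB hP hu hu0 θ hθ htail
  set M := ∑ Φ : Option (Fin n) → P → Fin 3, (∏ c, cf (u c) (XA c) (XB c) (Φ c)) *
        mt j (∏ c, num 1 (Φ c)) (∏ c, num 2 (Φ c)) with hM
  have e3 : win η δ T τ (fun t => riemannZeta (cl t) ^ j * ∏ c, UU P (u c) (XA c) (XB c) t) =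
      ∫ t in (τ - δ / 2 * T)..(τ + δ / 2 * T), (riemannZeta (1 / 2 + t * Complex.I) ^ j *
      ∏ i, UU P (u (some i)) (XA (some i)) (XB (some i)) t) *
      (starRingEnd ℂ) (UU P (sw (u none)) (XB none) (XA none) t) * (gw τ (Ht η T) t : ℂ) := by
    unfold H295MK.win
    refine intervalIntegral.integral_congr fun t _ => ?_
    dsimp only
    rw [Fintype.prod_option, UU_conj, sw_sw]
    unfold H295MK.cl
    ring
  rw [← e3]
  have herr : (∏ c, (XA c * XB c)) / T ^ 3 ≤ 1 / 4 := by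
    rw [prod_mul_distrib, div_le_iff₀ (by positivity)]
    have h0 : 0 ≤ ∏ c, XB c := prod_nonneg fun c _ => (hXB c).le
    calc (∏ c, XA c) * ∏ c, XB c ≤ T * T := mul_le_mul hL (hR.trans hYT) h0 hT0.le
      _ ≤ 1 / 4 * T ^ 3 := by nlinarith [mul_pos hT0 hT0]
  have h1 : (1 : ℝ) ≤ Real.exp (∑ p : P, (WW j u p - WW j u p ^ 2 / 2)) := by
    rw [← Real.exp_zero]
    exact Real.exp_le_exp.2 hpos
  set W := win η δ T τ (fun t => riemannZeta (cl t) ^ j * ∏ c, UU P (u c) (XA c) (XB c) t) with hW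
  have h2 : ‖((M : ℝ) : ℂ)‖ ≤ ‖W‖ + ‖W - (M : ℂ)‖ := by
    calc ‖((M : ℝ) : ℂ)‖ = ‖W - (W - (M : ℂ))‖ := by congr 1; ring
      _ ≤ _ := norm_sub_le _ _
  rw [Complex.norm_real, Real.norm_eq_abs] at h2
  have h3 := le_abs_self M
  linarith

end

end Pool.Agent.H84.Mom
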